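import Pool.Agent.R320.VQ.Tail
import Pool.Agent.R320.CL.Asm

/-! # Tails of sums of unfolded gaps over all zeros, on RH -/

set_option autoImplicit false

open Filter Topology MeasureTheory Set

namespace Pool.Agent.R320.VQ

open SG (ord NZ)
open LG (dlt)
open SP (RHs)
open Pool.Agent.Y743.LR
open Pool.Agent.Y743.NC (ff)
open Pool.Agent.R320.CL (SS dl SS_ge SS_le)

/-- `x log x ≤ B L` forces `x ≤ η L` for large `L` -/
lemma lin_small {η B : ℝ} (hη : 0 < η) (hB : 0 < B) : ∃ L0 : ℝ, 1 ≤ L0 ∧ ∀ L : ℝ, L0 ≤ L → ∀ x : ℝ, 1 ≤ x →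
    x * Real.log x ≤ B * L → x ≤ η * L := by
  refine ⟨max 1 (Real.exp (B / η) / η), le_max_left _ _, fun L hL x hx hxB => ?_⟩
  have hL1 : 1 ≤ L := (le_max_left _ _).trans hL
  have hL2 : Real.exp (B / η) / η ≤ L := (le_max_right _ _).trans hL
  rcases le_or_gt (B / η) (Real.log x) with h | h
  · have h1 : x * (B / η) ≤ B * L := (mul_le_mul_of_nonneg_left h (by linarith)).trans hxB
    have h2 : x * (B / η) = B * (x / η) := by ring
    rw [h2] at h1
    have h3 := le_of_mul_le_mul_left h1 hB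
    rw [div_le_iff₀ hη] at h3
    linarith
  · have h1 : x < Real.exp (B / η) := (Real.log_lt_iff_lt_exp (by linarith)).1 h
    rw [div_le_iff₀ hη] at hL2
    linarith

/-- comparison of the two normalisations -/
lemma SS_ff {T : ℝ} (hT : 100 ≤ T) {r n : ℕ} {H : ℝ} (hn : 1 ≤ n) (h1 : T ≤ ord n) (h2 : ord n ≤ 2 * T)
    (hH : 4 ≤ H) (hrH : (r : ℝ) + H ≤ Real.log T / 16) (h : H < |SS r n - r|) : H / 4 < |ff T r n| := by
  have hpi := Real.pi_pos
  have hpi3 := Real.pi_gt_three
  have hpi4 := Real.pi_lt_d2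
  obtain ⟨L, hL⟩ : ∃ L : ℝ, L = Real.log T := ⟨_, rfl⟩
  rw [← hL] at hrH
  have hr0 : (0 : ℝ) ≤ r := Nat.cast_nonneg _
  have hL0 : 0 < L := by linarith
  have huv : ord n ≤ ord (n + r) := SG.ord_mono hn (by omega)
  obtain ⟨g, hg⟩ : ∃ g : ℝ, g = (ord (n + r) - ord n) / (2 * Real.pi) := ⟨_, rfl⟩
  have hg0 : 0 ≤ g := by rw [hg]; exact div_nonneg (by linarith) (by positivity)
  have hff : ff T r n = g * L - r := by
    unfold ff yv
    rw [hg, hL]
    ring
  by_contra hcon
  push Not at hcon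
  rw [hff] at hcon
  obtain ⟨c1, c2⟩ := abs_le.1 hcon
  have hg16 : g ≤ 1 / 16 := by
    by_contra hg16
    push Not at hg16
    nlinarith
  have hlogn : L - 2 ≤ Real.log (ord n / (2 * Real.pi)) := by
    rw [Real.log_div (by linarith) (by positivity), hL]
    have a1 : Real.log T ≤ Real.log (ord n) := Real.log_le_log (by linarith) h1
    have a2 : Real.log (2 * Real.pi) ≤ 2 := by
      rw [Real.log_le_iff_le_exp (by positivity)]
      have e1 : Real.exp 2 = Real.exp 1 * Real.exp 1 := by rw [← Real.exp_add]; norm_num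
      rw [e1]
      have := Real.exp_one_gt_d9
      nlinarith
    linarith
  have lo : g * (L - 2) ≤ SS r n := by
    have a1 := SS_ge (r := r) hn
    rw [← hg] at a1
    exact (mul_le_mul_of_nonneg_left hlogn hg0).trans a1
  have hv : ord (n + r) = ord n + g * (2 * Real.pi) := by rw [hg]; field_simp; ring
  have hv3 : ord (n + r) ≤ 3 * T := by
    rw [hv]
    nlinarith
  have hup : SS r n ≤ g * (L + 3) := by
    have a1 := SS_le (r := r) hn
    have hu0 : 0 < ord n := by linarith
    have hv0 : 0 < ord (n + r) := by linarith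
    have a2 : Real.log (ord (n + r)) - Real.log (ord n) ≤ (ord (n + r) - ord n) / ord n := by
      rw [← Real.log_div hv0.ne' hu0.ne']
      have := Real.log_le_sub_one_of_pos (show 0 < ord (n + r) / ord n by positivity)
      refine this.trans (le_of_eq ?_)
      field_simp
    have a3 : ord n * (Real.log (ord (n + r)) - Real.log (ord n)) ≤ ord (n + r) - ord n := by
      have := mul_le_mul_of_nonneg_left a2 hu0.le
      rwa [mul_div_cancel₀ _ hu0.ne'] at this
    have a4 : Real.log (ord (n + r)) ≤ L + 2 := by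
      have b1 : Real.log (ord (n + r)) ≤ Real.log (3 * T) := Real.log_le_log hv0 hv3
      rw [Real.log_mul (by norm_num) (by linarith), ← hL] at b1
      have b2 : Real.log 3 ≤ 2 := by
        have := Real.log_le_sub_one_of_pos (show (0 : ℝ) < 3 by norm_num)
        linarith
      linarith
    have a5 : ord (n + r) * Real.log (ord (n + r)) / (2 * Real.pi) -
        ord n * Real.log (ord n) / (2 * Real.pi) =
        (ord (n + r) - ord n) / (2 * Real.pi) * Real.log (ord (n + r)) +
          ord n * (Real.log (ord (n + r)) - Real.log (ord n)) / (2 * Real.pi) := by ring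
    rw [a5, ← hg] at a1
    have a6 : ord n * (Real.log (ord (n + r)) - Real.log (ord n)) / (2 * Real.pi) ≤ g := by
      rw [hg]
      exact div_le_div_of_nonneg_right a3 (by positivity)
    have a7 : g * Real.log (ord (n + r)) ≤ g * (L + 2) := mul_le_mul_of_nonneg_left a4 hg0
    linarith
  rcases lt_abs.1 h with h3 | h3
  · nlinarith
  · nlinarith

/-- one block -/
lemma blk23 (hRH : RHs) (j : ℕ) (B : ℝ) (hB : 1 ≤ B) : ∃ C x0 : ℝ, 1 ≤ C ∧ 100 ≤ x0 ∧ ∀ x : ℝ, x0 ≤ x →
    ∀ (r : ℕ) (H : ℝ), 1 ≤ r → 4 ≤ H → (r + H) * Real.log (r + H) ≤ B * Real.log (3 / 5 * x) →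
    (((Finset.Ioc (NZ (2 / 3 * x)) (NZ x)).filter (fun n => H < |SS r n - r|)).card : ℝ) ≤
      C * (1 + Real.log (r + H)) ^ (2 ^ j) / H ^ (2 * 2 ^ j) * (x * Real.log x) := by
  obtain ⟨C1, T1, hC1, hT1, htail⟩ := tailq hRH j B hB
  obtain ⟨L0, hL0, hsm⟩ := lin_small (show (0 : ℝ) < 1 / 16 by norm_num) (by linarith : 0 < B)
  obtain ⟨m, hm⟩ : ∃ m : ℕ, m = 2 ^ j := ⟨_, rfl⟩
  rw [← hm] at htail ⊢
  obtain ⟨T2, hT2⟩ := (Real.tendsto_log_atTop.eventually_ge_atTop L0).exists_forall_of_atTop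
  have h4m : (1 : ℝ) ≤ 4 ^ (2 * m) := one_le_pow₀ (by norm_num)
  refine ⟨C1 * 4 ^ (2 * m), 2 * max (max T1 T2) 100, by nlinarith, by
    have : (100 : ℝ) ≤ max (max T1 T2) 100 := le_max_right _ _
    linarith, fun x hx r H hr hH hrH => ?_⟩
  have hM : max (max T1 T2) 100 ≤ 3 / 5 * x := by
    have : (100 : ℝ) ≤ max (max T1 T2) 100 := le_max_right _ _
    linarith
  obtain ⟨T, hT⟩ : ∃ T : ℝ, T = 3 / 5 * x := ⟨_, rfl⟩
  rw [← hT] at hM hrH
  have hTT1 : T1 ≤ T := ((le_max_left _ _).trans (le_max_left _ _)).trans hM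
  have hTT2 : T2 ≤ T := ((le_max_right _ _).trans (le_max_left _ _)).trans hM
  have hT100 : 100 ≤ T := (le_max_right _ _).trans hM
  have hr1 : (1 : ℝ) ≤ r := by exact_mod_cast hr
  have hlogT := hT2 T hTT2
  have hrHs : (r : ℝ) + H ≤ Real.log T / 16 := by
    have := hsm (Real.log T) hlogT (r + H) (by linarith) hrH
    linarith
  have hL0' : 0 < Real.log T := by linarith
  have hpi := Real.pi_pos
  have hpi4 := Real.pi_lt_d2
  have hpos : H / 4 / 2 * (2 * Real.pi / Real.log T) ≤ 1 := by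
    have e : H / 4 / 2 * (2 * Real.pi / Real.log T) = H * Real.pi / (4 * Real.log T) := by
      field_simp
    rw [e, div_le_one (by positivity)]
    nlinarith
  have hmem : ∀ n ∈ (Finset.Ioc (NZ (2 / 3 * x)) (NZ x)).filter (fun n => H < |SS r n - r|),
      1 ≤ n ∧ T + H / 4 / 2 * (2 * Real.pi / Real.log T) ≤ ord n ∧
        ord n + H / 4 / 2 * (2 * Real.pi / Real.log T) ≤ 2 * T ∧ H / 4 < |ff T r n| := by
    intro n hn
    rw [Finset.mem_filter, Finset.mem_Ioc] at hn
    obtain ⟨⟨a1, a2⟩, a3⟩ := hn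
    have hn1 : 1 ≤ n := by omega
    have b1 : 2 / 3 * x < ord n := by
      by_contra hcon
      push Not at hcon
      have := (SG.ord_le_iff hn1 _).mp hcon
      omega
    have b2 : ord n ≤ x := (SG.ord_le_iff hn1 _).mpr a2
    refine ⟨hn1, by linarith, by linarith, ?_⟩
    exact SS_ff hT100 hn1 (by linarith) (by linarith) hH hrHs a3
  have hlog0 : 0 ≤ Real.log (r + H) := Real.log_nonneg (by linarith)
  have hcond : (r + H / 4) * Real.log (r + H / 4) ≤ B * Real.log T := by
    refine le_trans ?_ hrH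
    apply mul_le_mul (by linarith) (Real.log_le_log (by linarith) (by linarith))
      (Real.log_nonneg (by linarith)) (by linarith)
  have h1 := htail T hTT1 r (H / 4) hr (by linarith) hcond _ hmem
  refine h1.trans ?_
  have h2 : Real.log (r + H / 4) ≤ Real.log (r + H) := Real.log_le_log (by linarith) (by linarith)
  have h3 : 0 ≤ Real.log (r + H / 4) := Real.log_nonneg (by linarith)
  have h4 : T * Real.log T ≤ x * Real.log x := by
    apply mul_le_mul (by linarith) (Real.log_le_log (by linarith) (by linarith)) hL0'.le (by linarith)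
  have hH4 : (H / 4) ^ (2 * m) = H ^ (2 * m) / 4 ^ (2 * m) := by rw [div_pow]
  have hHp : 0 < H ^ (2 * m) := by positivity
  calc C1 * (1 + Real.log (r + H / 4)) ^ m / (H / 4) ^ (2 * m) * (T * Real.log T) ≤
      C1 * (1 + Real.log (r + H)) ^ m / (H / 4) ^ (2 * m) * (x * Real.log x) := by gcongr
    _ = _ := by
        rw [hH4]
        field_simp

/-- splitting into blocks -/
lemma split23 (P : ℕ → Prop) [DecidablePred P] (x : ℝ) (K : ℕ) :
    (((Finset.Icc 1 (NZ x)).filter P).card : ℝ) ≤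
      (((Finset.Icc 1 (NZ ((2 / 3) ^ K * x))).filter P).card : ℝ) +
      ∑ k ∈ Finset.range K,
        (((Finset.Ioc (NZ (2 / 3 * ((2 / 3) ^ k * x))) (NZ ((2 / 3) ^ k * x))).filter P).card : ℝ) := by
  induction K with
  | zero =>
    rw [pow_zero, one_mul, Finset.sum_range_zero, add_zero]
  | succ K ih =>
    rw [Finset.sum_range_succ]
    have e : (2 / 3 : ℝ) ^ (K + 1) * x = 2 / 3 * ((2 / 3) ^ K * x) := by rw [pow_succ]; ring
    rw [e]
    have hsub : (Finset.Icc 1 (NZ ((2 / 3) ^ K * x))).filter P ⊆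
        (Finset.Icc 1 (NZ (2 / 3 * ((2 / 3) ^ K * x)))).filter P ∪
        (Finset.Ioc (NZ (2 / 3 * ((2 / 3) ^ K * x))) (NZ ((2 / 3) ^ K * x))).filter P := by
      intro n hn
      rw [Finset.mem_union, Finset.mem_filter, Finset.mem_filter, Finset.mem_Icc, Finset.mem_Ioc]
      rw [Finset.mem_filter, Finset.mem_Icc] at hn
      rcases le_or_gt n (NZ (2 / 3 * ((2 / 3) ^ K * x))) with h | h
      · exact Or.inl ⟨⟨hn.1.1, h⟩, hn.2⟩
      · exact Or.inr ⟨⟨h, hn.1.2⟩, hn.2⟩
    have h1 := (Finset.card_le_card hsub).trans (Finset.card_union_le _ _)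
    have h2 : (((Finset.Icc 1 (NZ ((2 / 3) ^ K * x))).filter P).card : ℝ) ≤
        (((Finset.Icc 1 (NZ (2 / 3 * ((2 / 3) ^ K * x)))).filter P).card : ℝ) +
        (((Finset.Ioc (NZ (2 / 3 * ((2 / 3) ^ K * x))) (NZ ((2 / 3) ^ K * x))).filter P).card : ℝ) := by
      exact_mod_cast h1
    linarith

/-- heights and indices -/
lemma N_x : ∃ C : ℝ, 1 ≤ C ∧ ∃ N₀ : ℕ, 1 ≤ N₀ ∧ ∀ N : ℕ, N₀ ≤ N →
    ord N * Real.log (ord N) ≤ C * N ∧ (N : ℝ) ≤ C * (ord N * Real.log (ord N)) := by
  obtain ⟨c, T1, hc, hT1, hlow⟩ := LG.GapAux.NZ_low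
  obtain ⟨C, T2, hC, hT2, hup⟩ := LG.GapAux.NZ_up
  obtain ⟨n0, hn0⟩ := (SG.ord_tendsto.eventually_ge_atTop (max (4 * T1) (max (2 * T2) 16))).exists_forall_of_atTop
  refine ⟨max 1 (max (8 / c) C), le_max_left _ _, max n0 1, le_max_right _ _, fun N hN => ?_⟩
  have hx := hn0 N ((le_max_left _ _).trans hN)
  have hN1 : 1 ≤ N := (le_max_right _ _).trans hN
  obtain ⟨x, hxd⟩ : ∃ x : ℝ, x = ord N := ⟨_, rfl⟩
  rw [← hxd] at hx ⊢
  have hx1 : 4 * T1 ≤ x := (le_max_left _ _).trans hx
  have hx2 : 2 * T2 ≤ x := ((le_max_left _ _).trans (le_max_right _ _)).trans hx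
  have hx3 : 16 ≤ x := ((le_max_right _ _).trans (le_max_right _ _)).trans hx
  have hlx : 0 < Real.log x := Real.log_pos (by linarith)
  have hxx : 0 < x * Real.log x := by positivity
  constructor
  · have h1 := hlow (x / 4) (by linarith)
    have h2 : NZ (2 * (x / 4)) < N := by
      by_contra hcon
      push Not at hcon
      have := (SG.ord_le_iff hN1 _).mpr hcon
      linarith
    have h3 : (NZ (2 * (x / 4)) : ℝ) ≤ N := by exact_mod_cast h2.le
    have h4 : Real.log x / 2 ≤ Real.log (x / 4) := by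
      rw [Real.log_div (by linarith) (by norm_num)]
      have h5 : Real.log 16 ≤ Real.log x := Real.log_le_log (by norm_num) hx3
      have h6 : Real.log 16 = 2 * Real.log 4 := by
        rw [show (16 : ℝ) = 4 ^ 2 by norm_num, Real.log_pow]
        push_cast
        ring
      linarith
    have h5 : c * (x / 4 * (Real.log x / 2)) ≤ N := by
      refine le_trans ?_ (h1.trans h3)
      gcongr
    have h6 : x * Real.log x ≤ 8 / c * N := by
      rw [div_mul_eq_mul_div, le_div_iff₀ hc]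
      linarith
    refine h6.trans ?_
    apply mul_le_mul_of_nonneg_right _ (Nat.cast_nonneg _)
    exact (le_max_left _ _).trans (le_max_right _ _)
  · have h1 := hup (x / 2) (by linarith)
    have h2 : N ≤ NZ (2 * (x / 2)) := by
      have : 2 * (x / 2) = ord N := by rw [← hxd]; ring
      rw [this]
      exact SG.le_NZ_ord hN1
    have h3 : (N : ℝ) ≤ NZ (2 * (x / 2)) := by exact_mod_cast h2
    refine (h3.trans h1).trans ?_
    have h4 : x / 2 * Real.log (x / 2) ≤ x * Real.log x := by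
      apply mul_le_mul (by linarith) (Real.log_le_log (by linarith) (by linarith))
        (Real.log_nonneg (by linarith)) (by linarith)
    calc C * (x / 2 * Real.log (x / 2)) ≤ C * (x * Real.log x) := mul_le_mul_of_nonneg_left h4 hC.le
      _ ≤ _ := by
        apply mul_le_mul_of_nonneg_right _ hxx.le
        exact (le_max_right _ _).trans (le_max_right _ _)

/-- **tails of sums of unfolded gaps** -/
theorem tailN (hRH : RHs) (j : ℕ) (B : ℝ) (hB : 1 ≤ B) : ∃ C : ℝ, 1 ≤ C ∧ ∃ N₀ : ℕ, 1 ≤ N₀ ∧ ∀ N : ℕ, N₀ ≤ N →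
    ∀ (r : ℕ) (H : ℝ), 1 ≤ r → 1 ≤ H → (r + H) * Real.log (r + H) ≤ B * Real.log N →
    (((Finset.Icc 1 N).filter (fun n => H < |SS r n - r|)).card : ℝ) ≤
      C * (1 + Real.log (r + H)) ^ (2 ^ j) / H ^ (2 * 2 ^ j) * N := by
  obtain ⟨C1, x0, hC1, hx0, hblk⟩ := blk23 hRH j (6 * B) (by linarith)
  obtain ⟨C2, hC2, N1, hN1, hNx⟩ := N_x
  obtain ⟨C3, T3, hC3, hT3, hup⟩ := LG.GapAux.NZ_up
  obtain ⟨L0, hL0, hsm⟩ := lin_small (show (0 : ℝ) < 1 / 2 by norm_num) (by linarith : 0 < B)
  obtain ⟨m, hm⟩ : ∃ m : ℕ, m = 2 ^ j := ⟨_, rfl⟩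
  have hm1 : 1 ≤ m := by rw [hm]; exact two_pow_pos' _
  rw [← hm] at hblk ⊢
  have hlog := Real.tendsto_log_atTop
  -- large heights
  have ev1 : ∀ᶠ x : ℝ in atTop, Real.log (Real.log x) + Real.log C2 ≤ 1 / 2 * Real.log x := by
    have h1 : (fun y : ℝ => Real.log y) =o[atTop] fun y : ℝ => y := Real.isLittleO_log_id_atTop
    have h2 := h1.bound (c := 1 / 4) (by norm_num)
    have h3 : ∀ᶠ y : ℝ in atTop, Real.log y + Real.log C2 ≤ 1 / 2 * y := by
      filter_upwards [h2, eventually_ge_atTop 1, eventually_ge_atTop (4 * Real.log C2)] with y hy hy1 hy2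
      rw [Real.norm_of_nonneg (Real.log_nonneg hy1), Real.norm_of_nonneg (by linarith)] at hy
      linarith
    exact hlog.eventually h3
  have ev2 : ∀ᶠ x : ℝ in atTop, (2 * C3 * C2) * (Real.sqrt x * Real.log x) * Real.log x ^ (2 * m) ≤ x := by
    have h1 : (fun x : ℝ => Real.log x ^ (2 * (2 * m + 1))) =o[atTop] id := Real.isLittleO_pow_log_id_atTop
    have h2 := h1.bound (c := 1 / (2 * C3 * C2) ^ 2) (by positivity)
    filter_upwards [h2, eventually_ge_atTop 1] with x hx hx1
    have hl0 : 0 ≤ Real.log x := Real.log_nonneg hx1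
    rw [id, Real.norm_of_nonneg (by positivity), Real.norm_of_nonneg (by linarith)] at hx
    have hs : Real.sqrt x * Real.sqrt x = x := Real.mul_self_sqrt (by linarith)
    have h3 : (2 * C3 * C2) * Real.log x ^ (2 * m + 1) ≤ Real.sqrt x := by
      apply Real.le_sqrt_of_sq_le
      have e : ((2 * C3 * C2) * Real.log x ^ (2 * m + 1)) ^ 2 =
          (2 * C3 * C2) ^ 2 * Real.log x ^ (2 * (2 * m + 1)) := by
        rw [mul_pow, ← pow_mul, mul_comm (2 * m + 1) 2]
      rw [e]
      calc (2 * C3 * C2) ^ 2 * Real.log x ^ (2 * (2 * m + 1)) ≤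
          (2 * C3 * C2) ^ 2 * (1 / (2 * C3 * C2) ^ 2 * x) :=
            mul_le_mul_of_nonneg_left hx (by positivity)
        _ = x := by field_simp
    calc (2 * C3 * C2) * (Real.sqrt x * Real.log x) * Real.log x ^ (2 * m) =
        Real.sqrt x * ((2 * C3 * C2) * Real.log x ^ (2 * m + 1)) := by rw [pow_succ]; ring
      _ ≤ Real.sqrt x * Real.sqrt x := mul_le_mul_of_nonneg_left h3 (Real.sqrt_nonneg _)
      _ = x := hs
  have ev3 : ∀ᶠ x : ℝ in atTop, x0 ≤ Real.sqrt x := Real.tendsto_sqrt_atTop.eventually_ge_atTop _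
  have ev4 : ∀ᶠ x : ℝ in atTop, 2 * T3 + 10 ≤ Real.sqrt x := Real.tendsto_sqrt_atTop.eventually_ge_atTop _
  have ev5 : ∀ᶠ x : ℝ in atTop, 16 ≤ Real.log x := hlog.eventually_ge_atTop _
  have ev := SG.ord_tendsto.eventually ((ev1.and ev2).and ((ev3.and ev4).and ev5))
  have ev6 : ∀ᶠ N : ℕ in atTop, L0 ≤ Real.log N :=
    (hlog.comp tendsto_natCast_atTop_atTop).eventually_ge_atTop _
  obtain ⟨N2, hN2⟩ := (ev.and ev6).exists_forall_of_atTop
  have h16 : (1 : ℝ) ≤ 4 ^ (2 * m) := one_le_pow₀ (by norm_num)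
  refine ⟨4 ^ (2 * m) + (1 + 3 * C1 * C2), by nlinarith, max N1 N2, hN1.trans (le_max_left _ _),
    fun N hN r H hr hH hrH => ?_⟩
  obtain ⟨hxN, hNx'⟩ := hNx N ((le_max_left _ _).trans hN)
  obtain ⟨⟨⟨g1, g2⟩, ⟨⟨g3, g4⟩, g5⟩⟩, g6⟩ := hN2 N ((le_max_right _ _).trans hN)
  have hN0 : 1 ≤ N := (hN1.trans (le_max_left _ _)).trans hN
  have hNr : (0 : ℝ) < N := by exact_mod_cast hN0
  obtain ⟨x, hx⟩ : ∃ x : ℝ, x = ord N := ⟨_, rfl⟩
  rw [← hx] at hxN hNx' g1 g2 g3 g4 g5
  have hr1 : (1 : ℝ) ≤ r := by exact_mod_cast hr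
  have hlrH : 0 ≤ Real.log (r + H) := Real.log_nonneg (by linarith)
  obtain ⟨F, hF⟩ : ∃ F : ℝ, F = (1 + Real.log (r + H)) ^ m / H ^ (2 * m) := ⟨_, rfl⟩
  have hH0 : 0 < H ^ (2 * m) := by positivity
  have hF1 : 1 / H ^ (2 * m) ≤ F := by
    rw [hF]
    apply div_le_div_of_nonneg_right _ hH0.le
    exact one_le_pow₀ (by linarith)
  have hF0 : 0 < F := lt_of_lt_of_le (by positivity) hF1
  have hgoal : ∀ C : ℝ, C * (1 + Real.log (r + H)) ^ m / H ^ (2 * m) * N = C * F * N := by
    intro C; rw [hF]; ring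
  rw [hgoal]
  have hcardN : (((Finset.Icc 1 N).filter (fun n => H < |SS r n - r|)).card : ℝ) ≤ N := by
    have := Finset.card_filter_le (Finset.Icc 1 N) (fun n => H < |SS r n - r|)
    rw [Nat.card_Icc, Nat.add_sub_cancel] at this
    exact_mod_cast this
  rcases lt_or_ge H 4 with hH4 | hH4
  · refine hcardN.trans ?_
    have h1 : 1 ≤ 4 ^ (2 * m) * F := by
      have h2 : H ^ (2 * m) ≤ 4 ^ (2 * m) := pow_le_pow_left₀ (by linarith) hH4.le _
      calc (1 : ℝ) = H ^ (2 * m) * (1 / H ^ (2 * m)) := by field_simp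
        _ ≤ 4 ^ (2 * m) * F := mul_le_mul h2 hF1 (by positivity) (by positivity)
    have h3 : 0 ≤ (1 + 3 * C1 * C2) * F := by positivity
    nlinarith
  · -- large `H`
    have hs0 : 0 < Real.sqrt x := by linarith
    have hs10 : 10 ≤ Real.sqrt x := by linarith [hT3]
    have hx0' : 0 < x := Real.sqrt_pos.1 hs0
    have hss : Real.sqrt x * Real.sqrt x = x := Real.mul_self_sqrt hx0'.le
    have hsx : Real.sqrt x ≤ x := by nlinarith
    have hlogs : Real.log (Real.sqrt x) = Real.log x / 2 := Real.log_sqrt hx0'.le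
    have hlogN : Real.log N ≤ 3 / 2 * Real.log x := by
      have a1 : Real.log N ≤ Real.log (C2 * (x * Real.log x)) := Real.log_le_log hNr hNx'
      rw [Real.log_mul (by linarith) (by positivity), Real.log_mul hx0'.ne' (by linarith)] at a1
      linarith
    have hrHN : (r : ℝ) + H ≤ 1 / 2 * Real.log N := hsm _ g6 _ (by linarith) hrH
    have hHx : H ≤ Real.log x := by linarith
    -- number of blocks
    obtain ⟨K, hK1, hK2⟩ := exists_nat_pow_near_of_lt_one (x := 1 / Real.sqrt x) (y := 2 / 3)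
      (by positivity) (by rw [div_le_one hs0]; linarith) (by norm_num) (by norm_num)
    have hxK : (2 / 3 : ℝ) ^ (K + 1) * x ≤ Real.sqrt x := by
      have := mul_le_mul_of_nonneg_right hK1.le hx0'.le
      refine this.trans (le_of_eq ?_)
      rw [div_mul_eq_mul_div, one_mul, div_eq_iff hs0.ne', hss]
    have hxk : ∀ k : ℕ, k ≤ K → Real.sqrt x ≤ (2 / 3 : ℝ) ^ k * x := by
      intro k hk
      have h1 : (2 / 3 : ℝ) ^ K ≤ (2 / 3) ^ k := pow_le_pow_of_le_one (by norm_num) (by norm_num) hk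
      have h2 := mul_le_mul_of_nonneg_right (hK2.trans h1) hx0'.le
      refine le_trans (le_of_eq ?_) h2
      rw [div_mul_eq_mul_div, one_mul, eq_div_iff hs0.ne', hss]
    have h0 : (((Finset.Icc 1 N).filter (fun n => H < |SS r n - r|)).card : ℝ) ≤
        (((Finset.Icc 1 (NZ x)).filter (fun n => H < |SS r n - r|)).card : ℝ) := by
      have : N ≤ NZ x := by rw [hx]; exact SG.le_NZ_ord hN0
      exact_mod_cast Finset.card_le_card (Finset.filter_subset_filter _
        (Finset.Icc_subset_Icc le_rfl this))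
    have h1 := split23 (fun n => H < |SS r n - r|) x (K + 1)
    -- the remainder
    have h2 : (((Finset.Icc 1 (NZ ((2 / 3) ^ (K + 1) * x))).filter
        (fun n => H < |SS r n - r|)).card : ℝ) ≤ F * N := by
      have a1 := Finset.card_filter_le (Finset.Icc 1 (NZ ((2 / 3) ^ (K + 1) * x)))
        (fun n => H < |SS r n - r|)
      rw [Nat.card_Icc, Nat.add_sub_cancel] at a1
      have a2 : (((Finset.Icc 1 (NZ ((2 / 3) ^ (K + 1) * x))).filter
        (fun n => H < |SS r n - r|)).card : ℝ) ≤ NZ (Real.sqrt x) := by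
        exact_mod_cast a1.trans (SG.NZ_mono hxK)
      have a3 := hup (Real.sqrt x / 2) (by linarith)
      rw [mul_div_cancel₀ _ (by norm_num : (2 : ℝ) ≠ 0)] at a3
      have a4 : Real.sqrt x / 2 * Real.log (Real.sqrt x / 2) ≤ Real.sqrt x * Real.log x := by
        have b1 : Real.log (Real.sqrt x / 2) ≤ Real.log x := by
          apply Real.log_le_log (by linarith)
          linarith
        apply mul_le_mul (by linarith) b1 (Real.log_nonneg (by linarith)) hs0.le
      have a5 : (NZ (Real.sqrt x) : ℝ) ≤ C3 * (Real.sqrt x * Real.log x) :=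
        a3.trans (mul_le_mul_of_nonneg_left a4 hC3.le)
      have a6 : C3 * (Real.sqrt x * Real.log x) * Real.log x ^ (2 * m) * (2 * C2) ≤ x := by
        linarith
      have hlx1 : 1 ≤ Real.log x := by linarith
      have a7 : H ^ (2 * m) ≤ Real.log x ^ (2 * m) := pow_le_pow_left₀ (by linarith) hHx _
      have a8 : C3 * (Real.sqrt x * Real.log x) * H ^ (2 * m) ≤ N := by
        have b1 : C3 * (Real.sqrt x * Real.log x) * H ^ (2 * m) ≤
            C3 * (Real.sqrt x * Real.log x) * Real.log x ^ (2 * m) :=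
          mul_le_mul_of_nonneg_left a7 (by positivity)
        have b2 : 0 ≤ C3 * (Real.sqrt x * Real.log x) * Real.log x ^ (2 * m) := by positivity
        have b3 : C2 * (C3 * (Real.sqrt x * Real.log x) * Real.log x ^ (2 * m)) ≤ C2 * N := by
          have b4 : x ≤ x * Real.log x := by nlinarith
          have b5 : x ≤ C2 * N := b4.trans hxN
          have b6 : 0 ≤ C2 * (C3 * (Real.sqrt x * Real.log x) * Real.log x ^ (2 * m)) := by positivity
          linarith
        exact b1.trans (le_of_mul_le_mul_left b3 (by linarith))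
      calc _ ≤ C3 * (Real.sqrt x * Real.log x) := a2.trans a5
        _ ≤ N / H ^ (2 * m) := by rw [le_div_iff₀ hH0]; exact a8
        _ = (1 / H ^ (2 * m)) * N := by ring
        _ ≤ F * N := mul_le_mul_of_nonneg_right hF1 hNr.le
    -- the blocks
    have h3 : ∀ k ∈ Finset.range (K + 1),
        (((Finset.Ioc (NZ (2 / 3 * ((2 / 3) ^ k * x))) (NZ ((2 / 3) ^ k * x))).filter
          (fun n => H < |SS r n - r|)).card : ℝ) ≤ (2 / 3) ^ k * (C1 * F * (x * Real.log x)) := by
      intro k hk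
      have hkK : k ≤ K := by have := Finset.mem_range.1 hk; omega
      have hy := hxk k hkK
      obtain ⟨y, hyd⟩ : ∃ y : ℝ, y = (2 / 3 : ℝ) ^ k * x := ⟨_, rfl⟩
      rw [← hyd] at hy ⊢
      have hyx : y ≤ x := by
        rw [hyd]
        have : (2 / 3 : ℝ) ^ k ≤ 1 := pow_le_one₀ (by norm_num) (by norm_num)
        nlinarith
      have hlogy : Real.log x / 4 ≤ Real.log (3 / 5 * y) := by
        have b1 : Real.log (3 / 5 * Real.sqrt x) ≤ Real.log (3 / 5 * y) :=
          Real.log_le_log (by positivity) (by linarith)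
        rw [Real.log_mul (by norm_num) hs0.ne', hlogs] at b1
        have b2 : -1 ≤ Real.log (3 / 5) := by
          have := Real.one_sub_inv_le_log_of_pos (show (0 : ℝ) < 3 / 5 by norm_num)
          norm_num at this
          linarith
        linarith
      have hcond : (r + H) * Real.log (r + H) ≤ 6 * B * Real.log (3 / 5 * y) := by
        refine hrH.trans ?_
        have : B * Real.log N ≤ B * (6 * Real.log (3 / 5 * y)) := by
          apply mul_le_mul_of_nonneg_left _ (by linarith)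
          linarith
        linarith
      have hb := hblk y (g3.trans hy) r H hr hH4 hcond
      refine hb.trans ?_
      have hy0 : 0 < y := by linarith
      have b1 : y * Real.log y ≤ y * Real.log x :=
        mul_le_mul_of_nonneg_left (Real.log_le_log hy0 hyx) hy0.le
      calc C1 * (1 + Real.log (r + H)) ^ m / H ^ (2 * m) * (y * Real.log y) = C1 * F * (y * Real.log y) := by
            rw [hF]; ring
        _ ≤ C1 * F * (y * Real.log x) := mul_le_mul_of_nonneg_left b1 (by positivity)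
        _ = _ := by rw [hyd]; ring
    have h4 := Finset.sum_le_sum h3
    have h5 : ∑ k ∈ Finset.range (K + 1), (2 / 3 : ℝ) ^ k * (C1 * F * (x * Real.log x)) ≤
        3 * (C1 * F * (x * Real.log x)) := by
      rw [← Finset.sum_mul]
      apply mul_le_mul_of_nonneg_right
      · rw [geom_sum_eq (by norm_num)]
        have : (0 : ℝ) ≤ (2 / 3) ^ (K + 1) := by positivity
        rw [div_le_iff_of_neg (by norm_num)]
        linarith
      · have : 0 ≤ Real.log x := by linarith
        positivity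
    have h6 : 3 * (C1 * F * (x * Real.log x)) ≤ 3 * (C1 * F * (C2 * N)) := by
      gcongr
    calc (((Finset.Icc 1 N).filter (fun n => H < |SS r n - r|)).card : ℝ) ≤
        F * N + 3 * (C1 * F * (C2 * N)) := by linarith
      _ = (1 + 3 * C1 * C2) * F * N := by ring
      _ ≤ (4 ^ (2 * m) + (1 + 3 * C1 * C2)) * F * N := by
          apply mul_le_mul_of_nonneg_right _ hNr.le
          apply mul_le_mul_of_nonneg_right _ hF0.le
          linarith

end Pool.Agent.R320.VQ
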