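import Pool.Agent.R320.VQ.Mom

/-! # Convergence of all moments of sums of unfolded gaps, on RH -/

set_option autoImplicit false

open Filter Topology MeasureTheory Set ProbabilityTheory

namespace Pool.Agent.R320.VQ

open SG (ord NZ)
open SP (RHs)
open Pool.Agent.Y743.CL hiding SS
open Pool.Agent.R320.CL (SS dl Ss normal_unif lm_top)

/-- difference of indicator functions of half lines -/
noncomputable def dI (x u v : ℝ) : ℝ := (if x ≤ v then (1 : ℝ) else 0) - (if x ≤ u then (1 : ℝ) else 0)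

lemma dI_nonneg {x u v : ℝ} (h : u ≤ v) : 0 ≤ dI x u v := by
  unfold dI
  split_ifs with h1 h2 h2
  · norm_num
  · norm_num
  · linarith
  · norm_num

lemma dI_eq {x u v : ℝ} (h : u ≤ v) (h0 : dI x u v ≠ 0) : u < x ∧ x ≤ v := by
  unfold dI at h0
  split_ifs at h0 with h1 h2 h2
  · norm_num at h0
  · push Not at h2
    exact ⟨h2, h1⟩
  · linarith
  · norm_num at h0

lemma dI_tel (x a h : ℝ) (M : ℕ) :
    ∑ i ∈ Finset.range M, dI x (a + i * h) (a + (i + 1 : ℕ) * h) = dI x a (a + M * h) := by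
  unfold dI
  have := Finset.sum_range_sub (fun i : ℕ => if x ≤ a + (i : ℝ) * h then (1 : ℝ) else 0) M
  simp only [Nat.cast_zero, zero_mul, add_zero] at this
  exact this

lemma dI_le_one (x u v : ℝ) : dI x u v ≤ 1 := by
  unfold dI
  split_ifs <;> norm_num

/-- approximation by step functions -/
lemma step_apx (f : ℝ → ℝ) (hf : Continuous f) (K η : ℝ) (hK : 0 < K) (hη : 0 < η) :
    ∃ M : ℕ, 0 < M ∧ ∀ x : ℝ, |f x * dI x (-K) K - ∑ i ∈ Finset.range M,
      f (-K + i * (2 * K / M)) * dI x (-K + i * (2 * K / M)) (-K + (i + 1 : ℕ) * (2 * K / M))| ≤ η := by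
  have huc := isCompact_Icc.uniformContinuousOn_of_continuous (hf.continuousOn (s := Icc (-K) K))
  rw [Metric.uniformContinuousOn_iff] at huc
  obtain ⟨δ, hδ, hu⟩ := huc η hη
  obtain ⟨M, hM⟩ := exists_nat_gt (2 * K / δ)
  have hM0 : (0 : ℝ) < M := lt_of_le_of_lt (by positivity) hM
  have hM0' : 0 < M := by exact_mod_cast hM0
  refine ⟨M, hM0', fun x => ?_⟩
  obtain ⟨h, hh⟩ : ∃ h : ℝ, h = 2 * K / M := ⟨_, rfl⟩
  rw [← hh]
  have hh0 : 0 < h := by rw [hh]; positivity
  have hhM : M * h = 2 * K := by rw [hh]; field_simp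
  have hhδ : h < δ := by
    rw [hh, div_lt_iff₀ hM0]
    rw [div_lt_iff₀ hδ] at hM
    linarith
  have htel := dI_tel x (-K) h M
  have e1 : -K + M * h = K := by rw [hhM]; ring
  rw [e1] at htel
  rw [← htel, Finset.mul_sum, ← Finset.sum_sub_distrib]
  refine (Finset.abs_sum_le_sum_abs _ _).trans ?_
  have hterm : ∀ i ∈ Finset.range M, |f x * dI x (-K + i * h) (-K + (i + 1 : ℕ) * h) -
      f (-K + i * h) * dI x (-K + i * h) (-K + (i + 1 : ℕ) * h)| ≤
      η * dI x (-K + i * h) (-K + (i + 1 : ℕ) * h) := by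
    intro i hi
    have hi' := Finset.mem_range.1 hi
    have hstep : -K + i * h ≤ -K + (i + 1 : ℕ) * h := by
      push_cast
      nlinarith
    have h0 := dI_nonneg (x := x) hstep
    rw [← sub_mul, abs_mul, abs_of_nonneg h0]
    by_cases hz : dI x (-K + i * h) (-K + (i + 1 : ℕ) * h) = 0
    · rw [hz, mul_zero, mul_zero]
    · apply mul_le_mul_of_nonneg_right _ h0
      obtain ⟨a1, a2⟩ := dI_eq hstep hz
      push_cast at a2
      have hi1 : ((i : ℝ) + 1) ≤ M := by exact_mod_cast hi'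
      have hi0 : (0 : ℝ) ≤ i := Nat.cast_nonneg _
      have b1 : (i : ℝ) * h ≥ 0 := by positivity
      have b2 : ((i : ℝ) + 1) * h ≤ 2 * K := by
        rw [← hhM]
        exact mul_le_mul_of_nonneg_right hi1 hh0.le
      have hx : x ∈ Icc (-K) K := ⟨by linarith, by linarith⟩
      have hy : -K + i * h ∈ Icc (-K) K := ⟨by linarith, by nlinarith⟩
      have hd : dist x (-K + i * h) < δ := by
        rw [Real.dist_eq, abs_of_pos (by linarith)]
        linarith
      have := hu x hx _ hy hd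
      rw [Real.dist_eq] at this
      exact this.le
  refine (Finset.sum_le_sum hterm).trans ?_
  rw [← Finset.mul_sum, htel]
  have := dI_le_one x (-K) K
  nlinarith

lemma int_dI (u v : ℝ) : ∫ x, dI x u v ∂gs = Ph v - Ph u := by
  have h1 : ∀ a : ℝ, (fun x : ℝ => if x ≤ a then (1 : ℝ) else 0) = (Iic a).indicator 1 := by
    intro a
    funext x
    simp [indicator, mem_Iic]
  have h2 : ∀ a : ℝ, Integrable ((Iic a).indicator (1 : ℝ → ℝ)) gs := fun a =>
    (integrable_const (1 : ℝ)).indicator measurableSet_Iic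
  have e : (fun x : ℝ => dI x u v) = (Iic v).indicator (1 : ℝ → ℝ) - (Iic u).indicator (1 : ℝ → ℝ) := by
    funext x
    unfold dI
    rw [Pi.sub_apply, ← h1, ← h1]
  rw [show (∫ x, dI x u v ∂gs) = ∫ x, ((Iic v).indicator (1 : ℝ → ℝ) - (Iic u).indicator (1 : ℝ → ℝ)) x ∂gs by
    rw [← e]]
  rw [integral_sub' (h2 v) (h2 u), integral_indicator_one measurableSet_Iic,
    integral_indicator_one measurableSet_Iic]
  rfl

lemma dI_meas (u v : ℝ) : Measurable fun x => dI x u v := by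
  unfold dI
  exact (Measurable.ite measurableSet_Iic measurable_const measurable_const).sub
    (Measurable.ite measurableSet_Iic measurable_const measurable_const)

lemma dI_abs (x u v : ℝ) : |dI x u v| ≤ 1 := by
  unfold dI
  split_ifs <;> norm_num

lemma int_pow_gs (q : ℕ) : Integrable (fun x : ℝ => (1 + |x|) ^ q) gs := by
  have h1 : MemLp (fun x : ℝ => |x|) q gs := by
    have := (memLp_id_gaussianReal (μ := 0) (v := 1) (q : NNReal)).norm
    simpa using this
  have h2 : MemLp (fun _ : ℝ => (1 : ℝ)) q gs := memLp_const 1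
  have h3 := (h2.add h1).integrable_norm_pow'
  refine h3.congr (Eventually.of_forall fun x => ?_)
  show ‖(1 : ℝ) + |x|‖ ^ q = _
  rw [Real.norm_of_nonneg (by positivity)]

/-- the scaled deviation -/
noncomputable def XX (r n : ℕ) : ℝ := (SS r n - r) / lm r

lemma Ss_iff {r : ℕ} (hr : 0 < lm r) (x : ℝ) (n : ℕ) : Ss x r n ↔ XX r n ≤ x := by
  unfold Pool.Agent.R320.CL.Ss XX
  rw [div_le_iff₀ hr]
  constructor <;> intro h <;> linarith

/-- the tail of the empirical law -/
lemma tail_emp (hRH : RHs) (p : ℕ) (hp : 1 ≤ p) (ε : ℝ) (hε : 0 < ε) : ∃ K0 : ℝ, 1 ≤ K0 ∧ ∀ K : ℝ, K0 ≤ K →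
    ∀ᶠ r : ℕ in atTop, ∀ N : ℕ, 1 ≤ N → (r : ℝ) * Real.log r ≤ Real.log N →
    ∑ n ∈ (Finset.Icc 1 N).filter (fun n => K < |XX r n|), (1 + |XX r n|) ^ p ≤ ε * N := by
  obtain ⟨C, hC, N₀, hN₀, m, hm, hui⟩ := ui hRH p hp
  have hpi := Real.pi_pos
  obtain ⟨A, hA⟩ : ∃ A : ℝ, A = 2 ^ p * C * 2 ^ m * Real.pi ^ (2 * m) := ⟨_, rfl⟩
  have hA0 : 0 < A := by rw [hA]; positivity
  refine ⟨max 1 (A / ε), le_max_left _ _, fun K hK => ?_⟩
  have hK1 : 1 ≤ K := (le_max_left _ _).trans hK
  have hKA : A / ε ≤ K := (le_max_right _ _).trans hK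
  have hN₀r : (1 : ℝ) ≤ N₀ := by exact_mod_cast hN₀
  have ev1 : ∀ᶠ r : ℕ in atTop, K * lm r ≤ 1 + Real.log r := by
    have h1 : ∀ᶠ y : ℝ in atTop, K * (Real.sqrt y / Real.pi) ≤ 1 + y := by
      filter_upwards [eventually_ge_atTop ((K / Real.pi) ^ 2), eventually_ge_atTop 0] with y hy hy0
      have h2 : K / Real.pi ≤ Real.sqrt y := Real.le_sqrt_of_sq_le hy
      have h3 : Real.sqrt y * Real.sqrt y = y := Real.mul_self_sqrt hy0
      have h4 : K * (Real.sqrt y / Real.pi) = K / Real.pi * Real.sqrt y := by ring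
      rw [h4]
      nlinarith [Real.sqrt_nonneg y]
    exact log_nat.eventually h1
  filter_upwards [ev1, lm_top.eventually_ge_atTop 1, log_nat.eventually_ge_atTop 1,
    tendsto_natCast_atTop_atTop.eventually_ge_atTop (Real.log N₀ + 1)] with r h1 h2 h3 h4 N hN hrN
  have hlog0 : 0 ≤ Real.log N₀ := Real.log_nonneg hN₀r
  have hr1 : (1 : ℝ) ≤ r := by linarith
  have hr : 1 ≤ r := by exact_mod_cast hr1
  have hNN : N₀ ≤ N := by
    have a1 : Real.log N₀ < Real.log N := by
      have : (r : ℝ) * 1 ≤ r * Real.log r := mul_le_mul_of_nonneg_left h3 (Nat.cast_nonneg _)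
      linarith
    have a2 : (N₀ : ℝ) < N := (Real.log_lt_log_iff (by linarith) (by exact_mod_cast hN)).1 a1
    have a3 : N₀ < N := by exact_mod_cast a2
    exact a3.le
  have hlm : 0 < lm r := by linarith
  have hH1 : 1 ≤ K * lm r := by nlinarith
  have hu := hui N hNN r (K * lm r) hr hrN hH1 h1
  have hNr : (0 : ℝ) ≤ N := Nat.cast_nonneg _
  have hset : (Finset.Icc 1 N).filter (fun n => K < |XX r n|) =
      (Finset.Icc 1 N).filter (fun n => K * lm r < |SS r n - r|) := by
    ext n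
    rw [Finset.mem_filter, Finset.mem_filter]
    apply and_congr_right
    intro _
    unfold XX
    rw [abs_div, abs_of_pos hlm, lt_div_iff₀ hlm]
  have hle : ∑ n ∈ (Finset.Icc 1 N).filter (fun n => K < |XX r n|), (1 + |XX r n|) ^ p ≤
      2 ^ p / lm r ^ p * ∑ n ∈ (Finset.Icc 1 N).filter (fun n => K * lm r < |SS r n - r|),
        |SS r n - r| ^ p := by
    rw [← hset, Finset.mul_sum]
    refine Finset.sum_le_sum fun n hn => ?_
    have hn' := (Finset.mem_filter.1 hn).2
    have b1 : (1 + |XX r n|) ^ p ≤ (2 * |XX r n|) ^ p :=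
      pow_le_pow_left₀ (by positivity) (by linarith) p
    refine b1.trans (le_of_eq ?_)
    unfold XX
    rw [abs_div, abs_of_pos hlm, mul_pow, div_pow]
    ring
  refine hle.trans ?_
  have hlmK : (K * lm r) ^ p / (K * lm r) ^ (2 * m) = lm r ^ p * (K ^ p / K ^ (2 * m)) / lm r ^ (2 * m) := by
    rw [mul_pow, mul_pow]
    field_simp
  have hK2 : K ^ p / K ^ (2 * m) ≤ 1 / K := by
    rw [div_le_div_iff₀ (by positivity) (by linarith), ← pow_succ, one_mul]
    exact pow_le_pow_right₀ hK1 (by omega)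
  have hlm2 : lm r ^ (2 * m) = Real.log r ^ m / Real.pi ^ (2 * m) := by
    unfold lm
    rw [div_pow, pow_mul, Real.sq_sqrt (by linarith)]
  have hlogm : (1 + Real.log r) ^ m ≤ 2 ^ m * Real.log r ^ m := by
    rw [← mul_pow]
    exact pow_le_pow_left₀ (by linarith) (by linarith) m
  have hlogp : 0 < Real.log r ^ m := by positivity
  calc 2 ^ p / lm r ^ p * ∑ n ∈ (Finset.Icc 1 N).filter (fun n => K * lm r < |SS r n - r|),
        |SS r n - r| ^ p ≤
      2 ^ p / lm r ^ p * (C * ((1 + Real.log r) ^ m * (K * lm r) ^ p / (K * lm r) ^ (2 * m)) * N) :=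
        mul_le_mul_of_nonneg_left hu (by positivity)
    _ = 2 ^ p * C * ((1 + Real.log r) ^ m / lm r ^ (2 * m)) * (K ^ p / K ^ (2 * m)) * N := by
        have e : (1 + Real.log r) ^ m * (K * lm r) ^ p / (K * lm r) ^ (2 * m) =
            (1 + Real.log r) ^ m * (lm r ^ p * (K ^ p / K ^ (2 * m)) / lm r ^ (2 * m)) := by
          rw [← hlmK]; ring
        rw [e]
        field_simp
    _ ≤ 2 ^ p * C * (2 ^ m * Real.pi ^ (2 * m)) * (1 / K) * N := by
        have e : (1 + Real.log r) ^ m / lm r ^ (2 * m) ≤ 2 ^ m * Real.pi ^ (2 * m) := by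
          rw [hlm2, div_div_eq_mul_div, div_le_iff₀ hlogp]
          have : 0 < Real.pi ^ (2 * m) := by positivity
          nlinarith
        gcongr
    _ = A / K * N := by rw [hA]; ring
    _ ≤ ε * N := by
        apply mul_le_mul_of_nonneg_right _ hNr
        rw [div_le_iff₀ (by linarith)]
        rw [div_le_iff₀ hε] at hKA
        linarith

lemma gs_tail (p : ℕ) (ε : ℝ) (hε : 0 < ε) : ∃ K0 : ℝ, 1 ≤ K0 ∧ ∀ K : ℝ, K0 ≤ K →
    ∫ x, (if K < |x| then (1 + |x|) ^ p else 0) ∂gs ≤ ε := by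
  obtain ⟨M, hM⟩ : ∃ M : ℝ, M = ∫ x, (1 + |x|) ^ (p + 1) ∂gs := ⟨_, rfl⟩
  have hM0 : 0 ≤ M := by rw [hM]; exact integral_nonneg fun x => by positivity
  refine ⟨max 1 (M / ε), le_max_left _ _, fun K hK => ?_⟩
  have hK1 : 1 ≤ K := (le_max_left _ _).trans hK
  have hKA : M / ε ≤ K := (le_max_right _ _).trans hK
  have hpt : ∀ x : ℝ, (if K < |x| then (1 + |x|) ^ p else 0) ≤ 1 / K * (1 + |x|) ^ (p + 1) := by
    intro x
    split_ifs with h
    · rw [one_div, ← div_eq_inv_mul, le_div_iff₀ (by linarith), pow_succ]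
      apply mul_le_mul_of_nonneg_left _ (by positivity)
      linarith
    · positivity
  have h1 : ∫ x, (if K < |x| then (1 + |x|) ^ p else 0) ∂gs ≤ ∫ x, 1 / K * (1 + |x|) ^ (p + 1) ∂gs :=
    integral_mono_of_nonneg (Eventually.of_forall fun x => by
      show 0 ≤ (if K < |x| then (1 + |x|) ^ p else 0)
      split_ifs <;> positivity) ((int_pow_gs (p + 1)).const_mul _) (Eventually.of_forall hpt)
  refine h1.trans ?_
  rw [integral_const_mul, ← hM, one_div, ← div_eq_inv_mul, div_le_iff₀ (by linarith)]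
  rw [div_le_iff₀ hε] at hKA
  linarith

/-- **convergence of the expectations of continuous functions of polynomial growth** -/
theorem conv (hRH : RHs) (f : ℝ → ℝ) (hf : Continuous f) (A : ℝ) (p : ℕ)
    (hfA : ∀ x, |f x| ≤ A * (1 + |x|) ^ p) (ε : ℝ) (hε : 0 < ε) :
    ∀ᶠ r : ℕ in atTop, ∀ N : ℕ, 1 ≤ N → (r : ℝ) * Real.log r ≤ Real.log N →
      |∑ n ∈ Finset.Icc 1 N, f (XX r n) - (∫ x, f x ∂gs) * N| ≤ ε * N := by
  have hA0 : 0 ≤ A := by
    have := (abs_nonneg _).trans (hfA 0)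
    simp at this
    exact this
  obtain ⟨A1, hA1⟩ : ∃ A1 : ℝ, A1 = A + 1 := ⟨_, rfl⟩
  have hA10 : 0 < A1 := by rw [hA1]; linarith
  have hfA' : ∀ x, |f x| ≤ A1 * (1 + |x|) ^ (p + 1) := by
    intro x
    refine (hfA x).trans ?_
    apply mul_le_mul (by linarith) _ (by positivity) hA10.le
    exact pow_le_pow_right₀ (by have := abs_nonneg x; linarith) (by omega)
  obtain ⟨Ka, hKa, ht1⟩ := tail_emp hRH (p + 1) (by omega) (ε / (5 * A1)) (by positivity)
  obtain ⟨Kb, hKb, ht2⟩ := gs_tail (p + 1) (ε / (5 * A1)) (by positivity)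
  obtain ⟨κ, hκ⟩ : ∃ κ : ℝ, κ = max Ka Kb := ⟨_, rfl⟩
  have hκa : Ka ≤ κ := by rw [hκ]; exact le_max_left _ _
  have hκb : Kb ≤ κ := by rw [hκ]; exact le_max_right _ _
  have hκ1 : 1 ≤ κ := hKa.trans hκa
  obtain ⟨K, hK⟩ : ∃ K : ℝ, K = 2 * κ := ⟨_, rfl⟩
  have hK0 : 0 < K := by linarith
  obtain ⟨M, hM0, hapx⟩ := step_apx f hf K (ε / 10) hK0 (by positivity)
  obtain ⟨h, hh⟩ : ∃ h : ℝ, h = 2 * K / M := ⟨_, rfl⟩
  rw [← hh] at hapx
  obtain ⟨F, hF⟩ : ∃ F : ℝ, F = ∑ i ∈ Finset.range M, |f (-K + i * h)| := ⟨_, rfl⟩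
  have hF0 : 0 ≤ F := by rw [hF]; exact Finset.sum_nonneg fun _ _ => abs_nonneg _
  obtain ⟨s, hs⟩ : ∃ s : ℝ → ℝ, s = fun x => ∑ i ∈ Finset.range M,
      f (-K + i * h) * dI x (-K + i * h) (-K + (i + 1 : ℕ) * h) := ⟨_, rfl⟩
  -- pointwise
  have hpt : ∀ x, |f x - s x| ≤ ε / 10 + A1 * (if κ < |x| then (1 + |x|) ^ (p + 1) else 0) := by
    intro x
    have h1 := hapx x
    have h2 : s x = ∑ i ∈ Finset.range M,
      f (-K + i * h) * dI x (-K + i * h) (-K + (i + 1 : ℕ) * h) := by rw [hs]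
    rw [← h2] at h1
    by_cases hx : κ < |x|
    · rw [if_pos hx]
      have h3 : |f x - f x * dI x (-K) K| ≤ A1 * (1 + |x|) ^ (p + 1) := by
        have e : f x - f x * dI x (-K) K = f x * (1 - dI x (-K) K) := by ring
        rw [e, abs_mul]
        have h4 : |1 - dI x (-K) K| ≤ 1 := by
          have b1 := dI_nonneg (x := x) (show -K ≤ K by linarith)
          have b2 := dI_le_one x (-K) K
          rw [abs_le]
          constructor <;> linarith
        calc |f x| * |1 - dI x (-K) K| ≤ |f x| * 1 := mul_le_mul_of_nonneg_left h4 (abs_nonneg _)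
          _ = |f x| := mul_one _
          _ ≤ _ := hfA' x
      have e : f x - s x = (f x - f x * dI x (-K) K) + (f x * dI x (-K) K - s x) := by ring
      rw [e]
      refine (abs_add_le _ _).trans ?_
      linarith
    · rw [if_neg hx, mul_zero, add_zero]
      push Not at hx
      have hx' := abs_le.1 hx
      have h3 : dI x (-K) K = 1 := by
        unfold dI
        rw [if_pos (by linarith), if_neg (by linarith)]
        norm_num
      rw [h3, mul_one] at h1
      exact h1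
  have hsi : Integrable s gs := by
    rw [hs]
    refine integrable_finsetSum _ fun i _ => ?_
    refine Integrable.const_mul ?_ _
    refine (integrable_const (1 : ℝ)).mono' (dI_meas _ _).aestronglyMeasurable
      (Eventually.of_forall fun x => ?_)
    exact dI_abs x _ _
  have hfi : Integrable f gs := by
    refine ((int_pow_gs (p + 1)).const_mul A1).mono' hf.aestronglyMeasurable
      (Eventually.of_forall fun x => ?_)
    exact hfA' x
  have hti : Integrable (fun x : ℝ => if κ < |x| then (1 + |x|) ^ (p + 1) else 0) gs := by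
    refine (int_pow_gs (p + 1)).mono' ?_ (Eventually.of_forall fun x => ?_)
    · refine (Measurable.ite ?_ (by fun_prop) measurable_const).aestronglyMeasurable
      exact measurableSet_lt measurable_const (by fun_prop)
    · show ‖(if κ < |x| then (1 + |x|) ^ (p + 1) else 0 : ℝ)‖ ≤ _
      split_ifs
      · rw [Real.norm_of_nonneg (by positivity)]
      · rw [norm_zero]; positivity
  -- the Gaussian side
  have hG : |∫ x, f x ∂gs - ∫ x, s x ∂gs| ≤ ε / 10 + ε / 5 := by
    rw [← integral_sub hfi hsi]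
    refine (abs_integral_le_integral_abs).trans ?_
    have h1 : ∫ x, |f x - s x| ∂gs ≤
        ∫ x, (ε / 10 + A1 * (if κ < |x| then (1 + |x|) ^ (p + 1) else 0)) ∂gs :=
      integral_mono (hfi.sub hsi).abs ((integrable_const _).add (hti.const_mul _)) hpt
    refine h1.trans ?_
    rw [integral_add (integrable_const _) (hti.const_mul _), integral_const, integral_const_mul]
    have h2 := ht2 κ hκb
    have h3 : A1 * ∫ x, (if κ < |x| then (1 + |x|) ^ (p + 1) else 0) ∂gs ≤ A1 * (ε / (5 * A1)) :=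
      mul_le_mul_of_nonneg_left h2 hA10.le
    have h4 : A1 * (ε / (5 * A1)) = ε / 5 := by field_simp
    have h5 : gs.real univ = 1 := by simp
    rw [h5, one_smul]
    linarith
  have hsint : ∫ x, s x ∂gs = ∑ i ∈ Finset.range M, f (-K + i * h) *
      (Ph (-K + (i + 1 : ℕ) * h) - Ph (-K + i * h)) := by
    rw [hs, integral_finsetSum]
    · refine Finset.sum_congr rfl fun i _ => ?_
      rw [integral_const_mul, int_dI]
    · intro i _
      refine Integrable.const_mul ?_ _
      refine (integrable_const (1 : ℝ)).mono' (dI_meas _ _).aestronglyMeasurable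
        (Eventually.of_forall fun x => ?_)
      exact dI_abs x _ _
  filter_upwards [ht1 κ hκa, normal_unif (ε / (10 * (F + 1))) (by positivity),
    lm_top.eventually_ge_atTop 1] with r h1 h2 h3 N hN hrN
  have hlm : 0 < lm r := by linarith
  have hNr : (0 : ℝ) ≤ N := Nat.cast_nonneg _
  have e1 := h1 N hN hrN
  have e2 := h2 N hN hrN
  -- counts
  have hcount : ∀ x : ℝ, |∑ n ∈ Finset.Icc 1 N, (if XX r n ≤ x then (1 : ℝ) else 0) - Ph x * N| ≤
      ε / (10 * (F + 1)) * N := by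
    intro x
    have := e2 x
    rw [Finset.sum_boole]
    have e : (Finset.Icc 1 N).filter (fun n => XX r n ≤ x) = (Finset.Icc 1 N).filter (fun n => Ss x r n) := by
      ext n
      rw [Finset.mem_filter, Finset.mem_filter, Ss_iff hlm]
    rw [e]
    exact this
  have hs1 : |∑ n ∈ Finset.Icc 1 N, s (XX r n) - (∫ x, s x ∂gs) * N| ≤ ε / 5 * N := by
    have e3 : ∑ n ∈ Finset.Icc 1 N, s (XX r n) = ∑ i ∈ Finset.range M, f (-K + i * h) *
        ∑ n ∈ Finset.Icc 1 N, dI (XX r n) (-K + i * h) (-K + (i + 1 : ℕ) * h) := by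
      rw [hs, Finset.sum_comm]
      refine Finset.sum_congr rfl fun i _ => ?_
      rw [Finset.mul_sum]
    rw [e3, hsint, Finset.sum_mul, ← Finset.sum_sub_distrib]
    refine (Finset.abs_sum_le_sum_abs _ _).trans ?_
    have hterm : ∀ i ∈ Finset.range M, |f (-K + i * h) *
        ∑ n ∈ Finset.Icc 1 N, dI (XX r n) (-K + i * h) (-K + (i + 1 : ℕ) * h) -
        f (-K + i * h) * (Ph (-K + (i + 1 : ℕ) * h) - Ph (-K + i * h)) * N| ≤
        |f (-K + i * h)| * (2 * (ε / (10 * (F + 1)) * N)) := by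
      intro i _
      have e4 : f (-K + i * h) *
        ∑ n ∈ Finset.Icc 1 N, dI (XX r n) (-K + i * h) (-K + (i + 1 : ℕ) * h) -
        f (-K + i * h) * (Ph (-K + (i + 1 : ℕ) * h) - Ph (-K + i * h)) * N =
        f (-K + i * h) * ((∑ n ∈ Finset.Icc 1 N, (if XX r n ≤ (-K + (i + 1 : ℕ) * h) then (1 : ℝ) else 0) -
          Ph (-K + (i + 1 : ℕ) * h) * N) -
          (∑ n ∈ Finset.Icc 1 N, (if XX r n ≤ (-K + i * h) then (1 : ℝ) else 0) -
          Ph (-K + i * h) * N)) := by
        unfold dI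
        rw [Finset.sum_sub_distrib]
        ring
      rw [e4, abs_mul]
      apply mul_le_mul_of_nonneg_left _ (abs_nonneg _)
      refine (abs_sub _ _).trans ?_
      have b1 := hcount (-K + (i + 1 : ℕ) * h)
      have b2 := hcount (-K + i * h)
      linarith
    refine (Finset.sum_le_sum hterm).trans ?_
    rw [← Finset.sum_mul, ← hF]
    have b3 : F * (2 * (ε / (10 * (F + 1)) * N)) = F / (F + 1) * (ε / 5 * N) := by
      field_simp
      ring
    rw [b3]
    have b4 : F / (F + 1) ≤ 1 := by rw [div_le_one (by linarith)]; linarith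
    have b5 : 0 ≤ ε / 5 * N := by positivity
    nlinarith
  have hs2 : |∑ n ∈ Finset.Icc 1 N, f (XX r n) - ∑ n ∈ Finset.Icc 1 N, s (XX r n)| ≤
      (ε / 10 + ε / 5) * N := by
    rw [← Finset.sum_sub_distrib]
    refine (Finset.abs_sum_le_sum_abs _ _).trans ?_
    refine (Finset.sum_le_sum fun n _ => hpt (XX r n)).trans ?_
    rw [Finset.sum_add_distrib, Finset.sum_const, Nat.card_Icc, Nat.add_sub_cancel, nsmul_eq_mul,
      ← Finset.mul_sum, ← Finset.sum_filter]
    have b1 : A1 * ∑ n ∈ (Finset.Icc 1 N).filter (fun n => κ < |XX r n|), (1 + |XX r n|) ^ (p + 1) ≤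
        A1 * (ε / (5 * A1) * N) := mul_le_mul_of_nonneg_left e1 hA10.le
    have b2 : A1 * (ε / (5 * A1) * N) = ε / 5 * N := by field_simp
    linarith
  have hG' : |(∫ x, s x ∂gs) * N - (∫ x, f x ∂gs) * N| ≤ (ε / 10 + ε / 5) * N := by
    rw [← sub_mul, abs_mul, abs_of_nonneg hNr, abs_sub_comm]
    exact mul_le_mul_of_nonneg_right hG hNr
  have e5 : ∑ n ∈ Finset.Icc 1 N, f (XX r n) - (∫ x, f x ∂gs) * N =
      (∑ n ∈ Finset.Icc 1 N, f (XX r n) - ∑ n ∈ Finset.Icc 1 N, s (XX r n)) +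
      ((∑ n ∈ Finset.Icc 1 N, s (XX r n) - (∫ x, s x ∂gs) * N) +
      ((∫ x, s x ∂gs) * N - (∫ x, f x ∂gs) * N)) := by ring
  rw [e5]
  refine (abs_add_le _ _).trans ?_
  have e6 := abs_add_le (∑ n ∈ Finset.Icc 1 N, s (XX r n) - (∫ x, s x ∂gs) * N)
    ((∫ x, s x ∂gs) * N - (∫ x, f x ∂gs) * N)
  have e7 : 0 ≤ ε * N := by positivity
  linarith

end Pool.Agent.R320.VQ
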