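import Pool.Agent.R320.VR.VFour

set_option autoImplicit false

/-! # High moments of the majorant of the local statistics, on RH -/

namespace Pool.Agent.R320.VQ

open Complex Filter Topology MeasureTheory Set
open Pool.Agent.TH850.UR (ew)
open Pool.Agent.TH850.UV
open H370 (Zf mult mem_Zf good_zeta)
open SP (RHs Mk ZZ mu Q1)
open Pool.Agent.R320.VR (F_le_Mk)

lemma two_pow_pos' (j : ℕ) : 1 ≤ 2 ^ j := Nat.one_le_two_pow

/-- Cauchy-Schwarz, iterated -/
lemma csj (j : ℕ) : ∀ (G : ℝ → ℝ), Measurable G → ∀ W : ℝ, (∀ v, |G v| ≤ W) →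
    (∫ v : ℝ, G v * (1 + v ^ 2)⁻¹) ^ (2 ^ (j + 1)) ≤
      Real.pi ^ (2 ^ (j + 1) - 1) * ∫ v : ℝ, G v ^ (2 ^ (j + 1)) * (1 + v ^ 2)⁻¹ := by
  induction j with
  | zero =>
    intro G hG W hW
    have := V2aux.cs G hG W hW
    norm_num
    exact this
  | succ j ih =>
    intro G hG W hW
    have h1 := V2aux.cs G hG W hW
    have h2 := ih (fun v => G v ^ 2) (hG.pow_const 2) (W ^ 2) (fun v => by
      rw [abs_pow]
      exact pow_le_pow_left₀ (abs_nonneg _) (hW v) 2)
    have e1 : 2 ^ (j + 1 + 1) = 2 * 2 ^ (j + 1) := by ring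
    have e2 : ∀ x : ℝ, x ^ (2 ^ (j + 1 + 1)) = (x ^ 2) ^ (2 ^ (j + 1)) := fun x => by
      rw [e1, pow_mul]
    simp_rw [← e2] at h2
    have hp := two_pow_pos' (j + 1)
    have hpi := Real.pi_pos
    calc (∫ v : ℝ, G v * (1 + v ^ 2)⁻¹) ^ (2 ^ (j + 1 + 1))
        = ((∫ v : ℝ, G v * (1 + v ^ 2)⁻¹) ^ 2) ^ (2 ^ (j + 1)) := e2 _
      _ ≤ (Real.pi * ∫ v : ℝ, G v ^ 2 * (1 + v ^ 2)⁻¹) ^ (2 ^ (j + 1)) :=
          pow_le_pow_left₀ (sq_nonneg _) h1 _
      _ = Real.pi ^ (2 ^ (j + 1)) * (∫ v : ℝ, G v ^ 2 * (1 + v ^ 2)⁻¹) ^ (2 ^ (j + 1)) := mul_pow _ _ _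
      _ ≤ Real.pi ^ (2 ^ (j + 1)) * (Real.pi ^ (2 ^ (j + 1) - 1) *
          ∫ v : ℝ, G v ^ (2 ^ (j + 1 + 1)) * (1 + v ^ 2)⁻¹) :=
          mul_le_mul_of_nonneg_left h2 (by positivity)
      _ = _ := by
          rw [← mul_assoc, ← pow_add]
          congr 2
          omega

/-- from the window moment to the weighted moment -/
theorem vq (j : ℕ) (S : Finset ℂ) (w : ℂ → ℝ) (hw : ∀ s, 0 ≤ w s) (L : ℝ) (hL : 0 < L) (A : ℝ) (hA : 0 ≤ A)
    (h : ∫⁻ t : ℝ, ENNReal.ofReal ((∑ s ∈ S.filter (fun s => |s.im - t| ≤ 1 / L), w s) ^ (2 ^ (j + 1))) ≤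
      ENNReal.ofReal A) :
    Integrable (fun t : ℝ => (∑ s ∈ S, w s / (1 + ((s.im - t) * L) ^ 2)) ^ (2 ^ (j + 1))) ∧
    ∫ t : ℝ, (∑ s ∈ S, w s / (1 + ((s.im - t) * L) ^ 2)) ^ (2 ^ (j + 1)) ≤ 5 ^ (2 ^ (j + 1)) * A := by
  obtain ⟨q, hq⟩ : ∃ q : ℕ, q = 2 ^ (j + 1) := ⟨_, rfl⟩
  have hq1 : 1 ≤ q := by rw [hq]; exact two_pow_pos' _
  have hqe : Even q := by rw [hq, pow_succ]; exact even_two.mul_left _
  have hF : Measurable (V2aux.F S w L) := V2aux.F_meas S w L
  have hpi := Real.pi_pos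
  have h' : ∫⁻ t : ℝ, ENNReal.ofReal (V2aux.F S w L t ^ q) ≤ ENNReal.ofReal A := by rw [hq]; exact h
  obtain ⟨W, hW⟩ : ∃ W, W = ∑ s ∈ S, w s := ⟨_, rfl⟩
  have hFW : ∀ t, |V2aux.F S w L t| ≤ W := fun t => by
    rw [abs_of_nonneg (V2aux.F_nonneg S hw L t), hW]
    exact V2aux.F_le S hw L t
  have hc0 : 0 < (3 / 2 : ℝ) ^ q * Real.pi ^ (q - 1) := by positivity
  have hcs := csj j
  simp only [← hq] at hcs
  rw [← hq]
  -- pointwise bound
  have h1 : ∀ t, (∑ s ∈ S, w s / (1 + ((s.im - t) * L) ^ 2)) ^ q ≤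
      (3 / 2) ^ q * Real.pi ^ (q - 1) * ∫ v : ℝ, V2aux.F S w L (t + v / L) ^ q * (1 + v ^ 2)⁻¹ := by
    intro t
    have g0 : 0 ≤ ∑ s ∈ S, w s / (1 + ((s.im - t) * L) ^ 2) :=
      Finset.sum_nonneg (fun s _ => div_nonneg (hw s) (by positivity))
    have g1 := V2aux.pt S hw hL t
    have g2 := hcs (fun v => V2aux.F S w L (t + v / L)) (hF.comp (by fun_prop)) W (fun v => hFW _)
    calc (∑ s ∈ S, w s / (1 + ((s.im - t) * L) ^ 2)) ^ q
        ≤ (3 / 2 * ∫ v : ℝ, V2aux.F S w L (t + v / L) * (1 + v ^ 2)⁻¹) ^ q := pow_le_pow_left₀ g0 g1 q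
      _ = (3 / 2) ^ q * (∫ v : ℝ, V2aux.F S w L (t + v / L) * (1 + v ^ 2)⁻¹) ^ q := mul_pow _ _ _
      _ ≤ (3 / 2) ^ q * (Real.pi ^ (q - 1) * ∫ v : ℝ, V2aux.F S w L (t + v / L) ^ q * (1 + v ^ 2)⁻¹) :=
          mul_le_mul_of_nonneg_left g2 (by positivity)
      _ = _ := by ring
  have h2 : ∀ t, ENNReal.ofReal ((∑ s ∈ S, w s / (1 + ((s.im - t) * L) ^ 2)) ^ q) ≤
      ENNReal.ofReal ((3 / 2) ^ q * Real.pi ^ (q - 1)) * ∫⁻ v : ℝ,
        ENNReal.ofReal (V2aux.F S w L (t + v / L) ^ q) * ENNReal.ofReal ((1 + v ^ 2)⁻¹) := by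
    intro t
    refine (ENNReal.ofReal_le_ofReal (h1 t)).trans ?_
    rw [ENNReal.ofReal_mul hc0.le]
    refine mul_le_mul_right ?_ _
    rw [ofReal_integral_eq_lintegral_ofReal]
    · refine lintegral_mono (fun v => ?_)
      rw [ENNReal.ofReal_mul (hqe.pow_nonneg _)]
    · refine integrable_inv_one_add_sq.bdd_mul (c := W ^ q)
        ((hF.comp (by fun_prop : Measurable fun v : ℝ => t + v / L)).pow_const q).aestronglyMeasurable
        (Filter.Eventually.of_forall (fun v => ?_))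
      rw [Real.norm_eq_abs, abs_pow]
      exact pow_le_pow_left₀ (abs_nonneg _) (hFW _) q
    · exact Filter.Eventually.of_forall (fun v => mul_nonneg (hqe.pow_nonneg _) (by positivity))
  have h3 : ∫⁻ t : ℝ, ENNReal.ofReal ((∑ s ∈ S, w s / (1 + ((s.im - t) * L) ^ 2)) ^ q) ≤
      ENNReal.ofReal ((3 / 2) ^ q * Real.pi ^ (q - 1)) * (ENNReal.ofReal Real.pi * ENNReal.ofReal A) := by
    refine (lintegral_mono h2).trans ?_
    rw [lintegral_const_mul' _ _ ENNReal.ofReal_ne_top]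
    refine mul_le_mul_right ?_ _
    have hm : Measurable (fun p : ℝ × ℝ => ENNReal.ofReal (V2aux.F S w L (p.1 + p.2 / L) ^ q) *
        ENNReal.ofReal ((1 + p.2 ^ 2)⁻¹)) := by
      have m1 : Measurable (fun p : ℝ × ℝ => ENNReal.ofReal (V2aux.F S w L (p.1 + p.2 / L) ^ q)) :=
        ENNReal.measurable_ofReal.comp
          ((hF.comp (by fun_prop : Measurable fun p : ℝ × ℝ => p.1 + p.2 / L)).pow_const q)
      have m2 : Measurable (fun p : ℝ × ℝ => ENNReal.ofReal ((1 + p.2 ^ 2)⁻¹)) :=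
        ENNReal.measurable_ofReal.comp (by fun_prop)
      exact m1.mul m2
    have hm' : AEMeasurable (Function.uncurry (fun (t v : ℝ) =>
        ENNReal.ofReal (V2aux.F S w L (t + v / L) ^ q) * ENNReal.ofReal ((1 + v ^ 2)⁻¹)))
        ((volume : Measure ℝ).prod (volume : Measure ℝ)) := hm.aemeasurable
    rw [lintegral_lintegral_swap hm']
    have e1 : ∀ v : ℝ, ∫⁻ t : ℝ, ENNReal.ofReal (V2aux.F S w L (t + v / L) ^ q) *
        ENNReal.ofReal ((1 + v ^ 2)⁻¹) =
        (∫⁻ t : ℝ, ENNReal.ofReal (V2aux.F S w L t ^ q)) * ENNReal.ofReal ((1 + v ^ 2)⁻¹) := by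
      intro v
      rw [lintegral_mul_const' _ _ ENNReal.ofReal_ne_top]
      congr 1
      exact lintegral_add_right_eq_self (fun t : ℝ => ENNReal.ofReal (V2aux.F S w L t ^ q)) (v / L)
    rw [lintegral_congr e1]
    have hne : (∫⁻ t : ℝ, ENNReal.ofReal (V2aux.F S w L t ^ q)) ≠ ⊤ :=
      (lt_of_le_of_lt h' ENNReal.ofReal_lt_top).ne
    rw [lintegral_const_mul' _ _ hne]
    have e2 : ∫⁻ v : ℝ, ENNReal.ofReal ((1 + v ^ 2)⁻¹) = ENNReal.ofReal Real.pi := by
      rw [← ofReal_integral_eq_lintegral_ofReal integrable_inv_one_add_sq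
        (Filter.Eventually.of_forall (fun v => by positivity)), integral_univ_inv_one_add_sq]
    rw [e2, mul_comm]
    exact mul_le_mul_right h' _
  have h4 : ENNReal.ofReal ((3 / 2) ^ q * Real.pi ^ (q - 1)) *
      (ENNReal.ofReal Real.pi * ENNReal.ofReal A) ≤ ENNReal.ofReal (5 ^ q * A) := by
    rw [← ENNReal.ofReal_mul hpi.le, ← ENNReal.ofReal_mul hc0.le]
    refine ENNReal.ofReal_le_ofReal ?_
    have e : (3 / 2) ^ q * Real.pi ^ (q - 1) * (Real.pi * A) = (3 / 2 * Real.pi) ^ q * A := by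
      rw [mul_pow]
      have : Real.pi ^ q = Real.pi ^ (q - 1) * Real.pi := by
        rw [← pow_succ]
        congr 1
        omega
      rw [this]
      ring
    rw [e]
    apply mul_le_mul_of_nonneg_right _ hA
    apply pow_le_pow_left₀ (by positivity)
    have := Real.pi_lt_d2
    linarith
  have h5 := h3.trans h4
  have hcont : Continuous (fun t : ℝ => (∑ s ∈ S, w s / (1 + ((s.im - t) * L) ^ 2)) ^ q) := by
    refine Continuous.pow (continuous_finsetSum _ (fun s _ => ?_)) q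
    refine Continuous.div (by fun_prop) (by fun_prop) (fun t => by positivity)
  have hnn : ∀ t : ℝ, 0 ≤ (∑ s ∈ S, w s / (1 + ((s.im - t) * L) ^ 2)) ^ q := fun t => hqe.pow_nonneg _
  have hint : Integrable (fun t : ℝ => (∑ s ∈ S, w s / (1 + ((s.im - t) * L) ^ 2)) ^ q) := by
    refine ⟨hcont.aestronglyMeasurable, ?_⟩
    rw [hasFiniteIntegral_iff_ofReal (Filter.Eventually.of_forall hnn)]
    exact lt_of_le_of_lt h5 ENNReal.ofReal_lt_top
  refine ⟨hint, ?_⟩
  rw [← ofReal_integral_eq_lintegral_ofReal hint (Filter.Eventually.of_forall hnn)] at h5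
  exact (ENNReal.ofReal_le_ofReal_iff (by positivity)).mp h5

lemma add_pow_q {q : ℕ} (hq : Even q) (x y : ℝ) : (x + y) ^ q ≤ 2 ^ q * (x ^ q + y ^ q) := by
  have h := hq.add_pow_le (a := x) (b := y)
  refine h.trans ?_
  apply mul_le_mul_of_nonneg_right _ (add_nonneg (hq.pow_nonneg _) (hq.pow_nonneg _))
  exact pow_le_pow_right₀ (by norm_num) (by omega)

/-- **high moments of the majorant** -/
theorem V_q (hRH : RHs) (j : ℕ) {lam : ℝ} (_hlam : 1 ≤ lam) :
    ∃ C T0 : ℝ, 0 < C ∧ 10 ≤ T0 ∧ ∀ T : ℝ, T0 ≤ T →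
    Integrable (fun t => VV lam T t ^ (2 ^ (j + 1))) ∧ ∫ t, VV lam T t ^ (2 ^ (j + 1)) ≤ C * T := by
  classical
  obtain ⟨CM, TM, hCM, hTM, hM⟩ := SP.Mk_bound hRH (1 / 4) (by norm_num) (by norm_num)
  obtain ⟨CQ, TQ, hCQ, hTQ, hQ⟩ := LG.CTAux.leb_mom (1 / 4) (by norm_num) (by norm_num)
  obtain ⟨C2, hC2, hw⟩ := wcount
  obtain ⟨m, hm⟩ : ∃ m : ℕ, m = 2 ^ j := ⟨_, rfl⟩
  have hm1 : 1 ≤ m := by rw [hm]; exact two_pow_pos' _
  have hmr : (1 : ℝ) ≤ m := by exact_mod_cast hm1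
  have hqm : 2 ^ (j + 1) = 2 * m := by rw [hm]; ring
  obtain ⟨q, hq⟩ : ∃ q : ℕ, q = 2 * m := ⟨_, rfl⟩
  have hvq := vq j
  rw [hqm, ← hq]
  rw [hqm, ← hq] at hvq
  have hqe : Even q := by rw [hq]; exact even_two_mul _
  have hev : ∀ᶠ T : ℝ in atTop, (2 * Real.log T + 2) * (C2 * Real.log T) ^ q ≤ T ∧
      2 * Real.log T + 2 ≤ T := by
    have h1 : (fun T : ℝ => Real.log T ^ (q + 1)) =o[atTop] id := Real.isLittleO_pow_log_id_atTop
    have h2 := h1.bound (c := 1 / (4 * (C2 ^ q + 1))) (by positivity)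
    filter_upwards [h2, eventually_ge_atTop 1, Real.tendsto_log_atTop.eventually_ge_atTop 1] with T hT hT1 hT2
    rw [id, Real.norm_of_nonneg (by positivity), Real.norm_of_nonneg (by linarith)] at hT
    have h3 : 4 * (C2 ^ q + 1) * Real.log T ^ (q + 1) ≤ T := by
      calc 4 * (C2 ^ q + 1) * Real.log T ^ (q + 1) ≤ 4 * (C2 ^ q + 1) * (1 / (4 * (C2 ^ q + 1)) * T) :=
            mul_le_mul_of_nonneg_left hT (by positivity)
        _ = T := by field_simp
    have h4 : 2 * Real.log T + 2 ≤ 4 * Real.log T := by linarith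
    have hCq : 0 < C2 ^ q := by positivity
    constructor
    · calc (2 * Real.log T + 2) * (C2 * Real.log T) ^ q ≤ (4 * Real.log T) * (C2 * Real.log T) ^ q := by
            gcongr
        _ = 4 * C2 ^ q * Real.log T ^ (q + 1) := by rw [mul_pow, pow_succ]; ring
        _ ≤ 4 * (C2 ^ q + 1) * Real.log T ^ (q + 1) := by
            apply mul_le_mul_of_nonneg_right _ (by positivity)
            linarith
        _ ≤ T := h3
    · have h5 : Real.log T ≤ Real.log T ^ (q + 1) := by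
        calc Real.log T = Real.log T ^ 1 := (pow_one _).symm
          _ ≤ Real.log T ^ (q + 1) := pow_le_pow_right₀ hT2 (by omega)
      have h6 : 4 * Real.log T ^ (q + 1) ≤ 4 * (C2 ^ q + 1) * Real.log T ^ (q + 1) := by
        apply mul_le_mul_of_nonneg_right _ (by positivity)
        linarith
      linarith
  obtain ⟨T3, hT3⟩ := hev.exists_forall_of_atTop
  refine ⟨5 ^ q * (1 + (4 * CM * m) ^ q * (2 ^ q * (1 + 6 * (CQ / m) ^ m))), max (max TM TQ) T3,
    by positivity, hTM.trans ((le_max_left _ _).trans (le_max_left _ _)), fun T hT => ?_⟩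
  have hTTM : TM ≤ T := ((le_max_left _ _).trans (le_max_left _ _)).trans hT
  have hTTQ : TQ ≤ T := ((le_max_right _ _).trans (le_max_left _ _)).trans hT
  obtain ⟨g1, g2⟩ := hT3 T ((le_max_right _ _).trans hT)
  have hT10 : 10 ≤ T := hTM.trans hTTM
  have hT0 : 0 < T := by linarith
  have hL2 : 2 ≤ Real.log T := by
    rw [Real.le_log_iff_exp_le hT0]
    have : Real.exp 2 = Real.exp 1 ^ 2 := by rw [← Real.exp_nat_mul]; norm_num
    rw [this]
    have h2 := Real.exp_one_lt_d9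
    have h3 := Real.exp_pos 1
    nlinarith
  obtain ⟨L, hL⟩ : ∃ L : ℝ, L = Real.log T := ⟨_, rfl⟩
  have hL0 : 0 < L := by rw [hL]; linarith
  obtain ⟨w, hwd⟩ : ∃ w : ℂ → ℝ, w = fun s => (mult riemannZeta s : ℝ) * ew (1 / (2 * lam)) L s := ⟨_, rfl⟩
  have hw0 : ∀ s, 0 ≤ w s := fun s => by
    rw [hwd]; exact mul_nonneg (Nat.cast_nonneg _) (ew_nonneg _ _ _)
  obtain ⟨FF, hFF⟩ : ∃ FF : ℝ → ℝ, FF = V2aux.F (Zf riemannZeta T (2 * T)) w L := ⟨_, rfl⟩
  have hFF0 : ∀ u, 0 ≤ FF u := fun u => by rw [hFF]; exact V2aux.F_nonneg _ hw0 _ _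
  have hFm : Measurable FF := by rw [hFF]; exact V2aux.F_meas _ _ _
  -- local bounds
  have hFw : ∀ u, FF u ≤ C2 * L := by
    intro u
    rw [hFF]
    unfold V2aux.F
    have h7 : ∀ s ∈ (Zf riemannZeta T (2 * T)).filter (fun s => |s.im - u| ≤ 1 / L), w s ≤
        (mult riemannZeta s : ℝ) := by
      intro s hs
      rw [Finset.mem_filter, mem_Zf good_zeta (by linarith)] at hs
      have hre : s.re = 1 / 2 := hRH s hs.1.1 hs.1.2.1 hs.1.2.2.2.2
      rw [hwd]
      show (mult riemannZeta s : ℝ) * ew (1 / (2 * lam)) L s ≤ _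
      have e2 : ew (1 / (2 * lam)) L s = 1 := by
        unfold Pool.Agent.TH850.UR.ew
        rw [hre]
        simp
      rw [e2, mul_one]
    refine (Finset.sum_le_sum h7).trans ?_
    rw [hL]
    apply hw T hT10 u (1 / Real.log T)
    exact one_div_le_one_div_of_le (by norm_num) hL2
  have hFout : ∀ u, (u < T - 1 ∨ 2 * T + 1 < u) → FF u = 0 := by
    intro u hu
    rw [hFF]
    unfold V2aux.F
    apply Finset.sum_eq_zero
    intro s hs
    exfalso
    rw [Finset.mem_filter, mem_Zf good_zeta (by linarith)] at hs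
    obtain ⟨⟨h3, h4, h5, h6, h7⟩, h8⟩ := hs
    have : 1 / L ≤ 1 := by rw [div_le_one hL0, hL]; linarith
    rw [abs_le] at h8
    rcases hu with hu | hu
    · linarith [h8.2]
    · linarith [h8.1]
  have hFin : ∀ u ∈ Icc (T + L) (2 * T - L), FF u ≤ 4 * CM * m * (1 + ‖Q1 (1 / 4) T m u‖) := by
    intro u hu
    have a1 := F_le_Mk hRH hT10 lam u (k := m) hm1
    rw [← hL, ← hwd, ← hFF] at a1
    have a2 := hM T hTTM u (by rw [← hL]; exact hu.1) (by rw [← hL]; exact hu.2) m hm1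
    calc FF u ≤ 4 * Mk T m u := a1
      _ ≤ 4 * (CM * m * (1 + ‖Q1 (1 / 4) T m u‖)) := by linarith
      _ = _ := by ring
  -- the integral
  have hQc : Continuous fun u => ‖Q1 (1 / 4) T m u‖ := (LG.CTAux.Q1_cont (1 / 4) T m).norm
  have hAB : T + L ≤ 2 * T - L := by rw [hL]; linarith
  have hmom := hQ T hTTQ m hm1 (T + L) (2 * T - L) (by linarith) hAB (by linarith)
  rw [← hq] at hmom
  have key : ∫⁻ t : ℝ, ENNReal.ofReal (FF t ^ q) ≤
      ENNReal.ofReal ((1 + (4 * CM * m) ^ q * (2 ^ q * (1 + 6 * (CQ / m) ^ m))) * T) := by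
    have hle : ∀ t : ℝ, ENNReal.ofReal (FF t ^ q) ≤
        (Icc (T - 1) (T + L)).indicator (fun _ => ENNReal.ofReal ((C2 * L) ^ q)) t +
        ((Icc (2 * T - L) (2 * T + 1)).indicator (fun _ => ENNReal.ofReal ((C2 * L) ^ q)) t +
        (Icc (T + L) (2 * T - L)).indicator (fun t => ENNReal.ofReal ((4 * CM * m) ^ q *
          (2 ^ q * (1 + ‖Q1 (1 / 4) T m t‖ ^ q)))) t) := by
      intro t
      have hb : FF t ^ q ≤ (C2 * L) ^ q := pow_le_pow_left₀ (hFF0 t) (hFw t) q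
      by_cases h1 : t ∈ Icc (T - 1) (T + L)
      · rw [indicator_of_mem h1]
        exact le_add_right (ENNReal.ofReal_le_ofReal hb)
      by_cases h2 : t ∈ Icc (2 * T - L) (2 * T + 1)
      · rw [indicator_of_mem h2]
        exact le_add_left (le_add_right (ENNReal.ofReal_le_ofReal hb))
      by_cases h3 : t ∈ Icc (T + L) (2 * T - L)
      · rw [indicator_of_mem h3]
        refine le_add_left (le_add_left (ENNReal.ofReal_le_ofReal ?_))
        have a1 := pow_le_pow_left₀ (hFF0 t) (hFin t h3) q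
        refine a1.trans ?_
        rw [mul_pow]
        apply mul_le_mul_of_nonneg_left _ (by positivity)
        have := add_pow_q hqe 1 ‖Q1 (1 / 4) T m t‖
        rw [one_pow] at this
        exact this
      · have h4 : t < T - 1 ∨ 2 * T + 1 < t := by
          by_contra hcon
          push Not at hcon
          simp only [mem_Icc, not_and, not_le] at h1 h2 h3
          have b1 := h1 hcon.1
          by_cases b2 : 2 * T - L ≤ t
          · exact absurd (h2 b2) (by linarith [hcon.2])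
          · have := h3 b1.le
            linarith
        rw [hFout t h4]
        have : (0 : ℝ) ^ q = 0 := zero_pow (by omega)
        rw [this]
        simp
    refine (lintegral_mono hle).trans ?_
    rw [lintegral_add_left (measurable_const.indicator measurableSet_Icc),
      lintegral_add_left (measurable_const.indicator measurableSet_Icc),
      lintegral_indicator measurableSet_Icc, lintegral_indicator measurableSet_Icc,
      lintegral_indicator measurableSet_Icc, setLIntegral_const, setLIntegral_const, Real.volume_Icc,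
      Real.volume_Icc]
    have e3 : ∫⁻ t in Icc (T + L) (2 * T - L), ENNReal.ofReal ((4 * CM * m) ^ q *
        (2 ^ q * (1 + ‖Q1 (1 / 4) T m t‖ ^ q))) =
        ENNReal.ofReal (∫ t in (T + L)..(2 * T - L), (4 * CM * m) ^ q *
        (2 ^ q * (1 + ‖Q1 (1 / 4) T m t‖ ^ q))) := by
      rw [intervalIntegral.integral_of_le hAB, ← integral_Icc_eq_integral_Ioc,
        ofReal_integral_eq_lintegral_ofReal]
      · exact (Continuous.integrableOn_Icc (by fun_prop))
      · exact Filter.Eventually.of_forall fun t => by positivity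
    rw [e3, ← ENNReal.ofReal_mul (by positivity), ← ENNReal.ofReal_mul (by positivity)]
    have e4 : ∫ t in (T + L)..(2 * T - L), (4 * CM * m) ^ q * (2 ^ q * (1 + ‖Q1 (1 / 4) T m t‖ ^ q)) ≤
        (4 * CM * m) ^ q * (2 ^ q * (1 + 6 * (CQ / m) ^ m)) * T := by
      rw [intervalIntegral.integral_const_mul, intervalIntegral.integral_const_mul,
        intervalIntegral.integral_add (Continuous.intervalIntegrable (by fun_prop) _ _)
        (Continuous.intervalIntegrable (by fun_prop) _ _), intervalIntegral.integral_const, smul_eq_mul,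
        mul_one]
      have a1 : (2 * T - L - (T + L)) + ∫ t in (T + L)..(2 * T - L), ‖Q1 (1 / 4) T m t‖ ^ q ≤
          (1 + 6 * (CQ / m) ^ m) * T := by
        have : 6 * T * (CQ / m) ^ m = 6 * (CQ / m) ^ m * T := by ring
        linarith
      calc (4 * CM * m) ^ q * (2 ^ q * ((2 * T - L - (T + L)) +
          ∫ t in (T + L)..(2 * T - L), ‖Q1 (1 / 4) T m t‖ ^ q)) ≤
          (4 * CM * m) ^ q * (2 ^ q * ((1 + 6 * (CQ / m) ^ m) * T)) := by gcongr
        _ = _ := by ring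
    calc ENNReal.ofReal ((C2 * L) ^ q * (T + L - (T - 1))) +
        (ENNReal.ofReal ((C2 * L) ^ q * (2 * T + 1 - (2 * T - L))) +
        ENNReal.ofReal (∫ t in (T + L)..(2 * T - L), (4 * CM * m) ^ q *
          (2 ^ q * (1 + ‖Q1 (1 / 4) T m t‖ ^ q)))) ≤
        ENNReal.ofReal ((C2 * L) ^ q * (T + L - (T - 1))) +
        (ENNReal.ofReal ((C2 * L) ^ q * (2 * T + 1 - (2 * T - L))) +
        ENNReal.ofReal ((4 * CM * m) ^ q * (2 ^ q * (1 + 6 * (CQ / m) ^ m)) * T)) := by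
          gcongr
      _ = ENNReal.ofReal ((C2 * L) ^ q * (T + L - (T - 1)) + ((C2 * L) ^ q * (2 * T + 1 - (2 * T - L)) +
          (4 * CM * m) ^ q * (2 ^ q * (1 + 6 * (CQ / m) ^ m)) * T)) := by
          have p1 : 0 ≤ T + L - (T - 1) := by linarith
          have p2 : 0 ≤ 2 * T + 1 - (2 * T - L) := by linarith
          rw [ENNReal.ofReal_add (by positivity) (by positivity),
            ENNReal.ofReal_add (by positivity) (by positivity)]
      _ ≤ _ := by
          apply ENNReal.ofReal_le_ofReal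
          have p3 : (C2 * L) ^ q * (T + L - (T - 1)) + (C2 * L) ^ q * (2 * T + 1 - (2 * T - L)) ≤ T := by
            rw [← hL] at g1
            linarith
          linarith
  rw [hFF] at key
  obtain ⟨h3, h4⟩ := hvq (Zf riemannZeta T (2 * T)) w hw0 L hL0 _ (by positivity) key
  have e5 : (fun t : ℝ => (∑ s ∈ Zf riemannZeta T (2 * T), w s / (1 + ((s.im - t) * L) ^ 2)) ^ q) =
      fun t => VV lam T t ^ q := by
    funext t
    rw [hwd, hL]
    rfl
  rw [e5] at h3 h4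
  refine ⟨h3, h4.trans (le_of_eq ?_)⟩
  ring

end Pool.Agent.R320.VQ
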