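import Pool.Agent.TH850.UV.Core2
import Pool.Agent.R320.VQ.V

/-! # The number of ordinates in a window and the prime sum: high moments -/

set_option autoImplicit false

namespace Pool.Agent.R320.VQ

open Complex Filter Topology MeasureTheory Set
open Pool.Agent.TH850.UR (ew)
open Pool.Agent.TH850.UV
open H370 (zz Zf mult mem_Zf good_zeta NN NN_eq zz_re zz_im)
open H370.A2 (lamC)
open SP (RHs)

lemma even_q (j : ℕ) : Even (2 ^ (j + 1)) := by rw [pow_succ]; exact even_two.mul_left _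

lemma abs_pow_q {q : ℕ} (hq : Even q) (x : ℝ) : x ^ q = |x| ^ q := (hq.pow_abs x).symm

/-- Cauchy-Schwarz on an interval, iterated -/
lemma cs_intj (j : ℕ) : ∀ {g : ℝ → ℝ}, Continuous g → ∀ (t h : ℝ), 0 ≤ h →
    (∫ τ in t..(t + h), g τ) ^ (2 ^ (j + 1)) ≤
      h ^ (2 ^ (j + 1) - 1) * ∫ τ in t..(t + h), g τ ^ (2 ^ (j + 1)) := by
  induction j with
  | zero =>
    intro g hg t h hh
    have := cs_int hg t h hh
    norm_num
    exact this
  | succ j ih =>
    intro g hg t h hh
    have h1 := cs_int hg t h hh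
    have h2 := ih (g := fun τ => g τ ^ 2) (by fun_prop) t h hh
    have e1 : 2 ^ (j + 1 + 1) = 2 * 2 ^ (j + 1) := by ring
    have e2 : ∀ x : ℝ, x ^ (2 ^ (j + 1 + 1)) = (x ^ 2) ^ (2 ^ (j + 1)) := fun x => by
      rw [e1, pow_mul]
    simp_rw [← e2] at h2
    have hp := two_pow_pos' (j + 1)
    calc (∫ τ in t..(t + h), g τ) ^ (2 ^ (j + 1 + 1))
        = ((∫ τ in t..(t + h), g τ) ^ 2) ^ (2 ^ (j + 1)) := e2 _
      _ ≤ (h * ∫ τ in t..(t + h), g τ ^ 2) ^ (2 ^ (j + 1)) :=
          pow_le_pow_left₀ (sq_nonneg _) h1 _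
      _ = h ^ (2 ^ (j + 1)) * (∫ τ in t..(t + h), g τ ^ 2) ^ (2 ^ (j + 1)) := mul_pow _ _ _
      _ ≤ h ^ (2 ^ (j + 1)) * (h ^ (2 ^ (j + 1) - 1) *
          ∫ τ in t..(t + h), g τ ^ (2 ^ (j + 1 + 1))) :=
          mul_le_mul_of_nonneg_left h2 (by positivity)
      _ = _ := by
          rw [← mul_assoc, ← pow_add]
          congr 2
          omega

/-- the bound of the remainder -/
lemma R_estq (j : ℕ) {h c1 c2 A B : ℝ} {R VVf : ℝ → ℝ} (hAB : A ≤ B) (hh : 0 ≤ h)
    (hR : Continuous R) (hV : Continuous VVf) (hVi : Integrable fun t => VVf t ^ (2 ^ (j + 1)))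
    (hb : ∀ t ∈ Icc A B, |R t| ≤ c1 + c2 * ∫ τ in t..(t + h), VVf τ) :
    ∫ t in A..B, R t ^ (2 ^ (j + 1)) ≤ 2 ^ (2 ^ (j + 1)) * (c1 ^ (2 ^ (j + 1)) * (B - A) +
      c2 ^ (2 ^ (j + 1)) * h ^ (2 ^ (j + 1) - 1) * (h * ∫ t, VVf t ^ (2 ^ (j + 1)))) := by
  obtain ⟨q, hq⟩ : ∃ q : ℕ, q = 2 ^ (j + 1) := ⟨_, rfl⟩
  have hqe : Even q := by rw [hq]; exact even_q j
  have hcs := fun t => cs_intj j hV t h hh
  rw [← hq] at hVi ⊢
  simp only [← hq] at hcs
  have hΦ : Continuous fun t => ∫ τ in t..(t + h), VVf τ ^ q := by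
    have e : ∀ t, ∫ τ in t..(t + h), VVf τ ^ q =
        (∫ τ in (0 : ℝ)..(t + h), VVf τ ^ q) - ∫ τ in (0 : ℝ)..t, VVf τ ^ q := fun t =>
      (intervalIntegral.integral_interval_sub_left
        (Continuous.intervalIntegrable (by fun_prop) _ _)
        (Continuous.intervalIntegrable (by fun_prop) _ _)).symm
    simp_rw [e]
    have h1 : Continuous fun x => ∫ τ in (0 : ℝ)..x, VVf τ ^ q :=
      intervalIntegral.continuous_primitive (fun a b => Continuous.intervalIntegrable
        (by fun_prop) _ _) 0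
    exact (h1.comp (by fun_prop)).sub h1
  have h1 : ∫ t in A..B, R t ^ q ≤ ∫ t in A..B, (2 ^ q * c1 ^ q + 2 ^ q * c2 ^ q * h ^ (q - 1) *
      ∫ τ in t..(t + h), VVf τ ^ q) := by
    refine intervalIntegral.integral_mono_on hAB (Continuous.intervalIntegrable (by fun_prop) _ _)
      (Continuous.intervalIntegrable (by fun_prop) _ _) fun t ht => ?_
    have h2 := hb t ht
    have h3 := hcs t
    set J := ∫ τ in t..(t + h), VVf τ with hJ
    have h4 : R t ^ q ≤ (c1 + c2 * J) ^ q := by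
      rw [abs_pow_q hqe]
      exact pow_le_pow_left₀ (abs_nonneg _) h2 q
    have h5 := add_pow_q hqe c1 (c2 * J)
    have h6 : 2 ^ q * c2 ^ q * J ^ q ≤ 2 ^ q * c2 ^ q * (h ^ (q - 1) * ∫ τ in t..(t + h), VVf τ ^ q) :=
      mul_le_mul_of_nonneg_left h3 (mul_nonneg (by positivity) (hqe.pow_nonneg _))
    rw [mul_pow] at h5
    calc R t ^ q ≤ 2 ^ q * (c1 ^ q + c2 ^ q * J ^ q) := h4.trans h5
      _ = 2 ^ q * c1 ^ q + 2 ^ q * c2 ^ q * J ^ q := by ring
      _ ≤ 2 ^ q * c1 ^ q + 2 ^ q * c2 ^ q * (h ^ (q - 1) * ∫ τ in t..(t + h), VVf τ ^ q) := by linarith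
      _ = _ := by ring
  refine h1.trans ?_
  rw [intervalIntegral.integral_add (Continuous.intervalIntegrable (by fun_prop) _ _)
    (Continuous.intervalIntegrable (by fun_prop) _ _), intervalIntegral.integral_const,
    intervalIntegral.integral_const_mul, smul_eq_mul]
  have h2 := int_win_le hVi (by fun_prop) (fun t => hqe.pow_nonneg _) hAB hh
  have h3 : 2 ^ q * c2 ^ q * h ^ (q - 1) * (∫ t in A..B, ∫ τ in t..(t + h), VVf τ ^ q) ≤
      2 ^ q * c2 ^ q * h ^ (q - 1) * (h * ∫ t, VVf t ^ q) :=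
    mul_le_mul_of_nonneg_left h2 (mul_nonneg (mul_nonneg (by positivity) (hqe.pow_nonneg _))
      (by positivity))
  calc _ ≤ (B - A) * (2 ^ q * c1 ^ q) + 2 ^ q * c2 ^ q * h ^ (q - 1) * (h * ∫ t, VVf t ^ q) := by linarith
    _ = _ := by ring

theorem apxq (hRH : RHs) (j : ℕ) (B : ℝ) (hB : 1 ≤ B) {lam : ℝ} (hlam : 16 ≤ lam) :
    ∃ C T0 : ℝ, 0 < C ∧ 10 ≤ T0 ∧ ∀ T : ℝ, T0 ≤ T →
    ∀ a : ℝ, lam ≤ a → a * Real.log a ≤ B * Real.log T →
    ∃ U1 U2 : ℝ, T ≤ U1 ∧ U1 ≤ T + 1 ∧ 2 * T - 1 ≤ U2 ∧ U2 ≤ 2 * T ∧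
    IntervalIntegrable (fun t => (NS (Zf riemannZeta U1 U2) (2 * Real.pi * a / Real.log T) t - a +
        Db (Real.log T / lam) (2 * Real.pi * a / Real.log T) (XT T) t) ^ (2 ^ (j + 1))) volume
      (T + Real.log T) (2 * T - Real.log T - 7) ∧
    ∫ t in (T + Real.log T)..(2 * T - Real.log T - 7),
      (NS (Zf riemannZeta U1 U2) (2 * Real.pi * a / Real.log T) t - a +
        Db (Real.log T / lam) (2 * Real.pi * a / Real.log T) (XT T) t) ^ (2 ^ (j + 1)) ≤ C * T := by
  obtain ⟨CV, T1, hCV, hT1, hV⟩ := V_q hRH j (by linarith : 1 ≤ lam)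
  have hRest := @R_estq j
  obtain ⟨q, hqd⟩ : ∃ q : ℕ, q = 2 ^ (j + 1) := ⟨_, rfl⟩
  have hqe : Even q := by rw [hqd]; exact even_q j
  have hq1 : 1 ≤ q := by rw [hqd]; exact two_pow_pos' _
  simp only [← hqd] at hV hRest ⊢
  obtain ⟨Cq, hCq, hq⟩ := qk_decay
  obtain ⟨CJ, hCJ, hJ⟩ := Jk_le
  obtain ⟨CP, hCP, P, hPc, hPd, hPb⟩ := prim_exists
  obtain ⟨CA, hCA, hA⟩ := An_Ac
  obtain ⟨CE, T2, hCE, hT2, hAc⟩ := Ac_est hlam
  have hpi := Real.pi_pos
  have hB0 : 0 < B := by linarith
  have hpi3 := Real.pi_gt_three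
  have hlam0 : 0 < lam := by linarith
  set Λ := (2 * Real.pi * lam) ^ 2 with hΛ
  have hΛ0 : 0 < Λ := by positivity
  set K := (Cq + CJ + CP) * Λ with hK
  have hK0 : 0 < K := by positivity
  set CR := 2 ^ q * (CE ^ q + (CA * Λ * (4 * Real.pi ^ 2 * lam)) ^ q * CV) with hCR
  have hCR0 : 0 < CR := by positivity
  have hev : ∀ᶠ T : ℝ in atTop, 2 * Real.log T + 7 ≤ 1 * T / 2 := by
    have h1 : (fun T : ℝ => 2 * Real.log T + 7) =o[atTop] fun T : ℝ => T :=
      (Real.isLittleO_log_id_atTop.const_mul_left 2).add (Asymptotics.isLittleO_const_id_atTop _)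
    have h2 := h1.bound (c := 1 / 2) (by norm_num)
    filter_upwards [h2, eventually_ge_atTop 1] with T hT hT1
    rw [Real.norm_of_nonneg (by linarith : (0 : ℝ) ≤ T)] at hT
    have := (le_abs_self _).trans hT
    linarith
  obtain ⟨T4, hT4⟩ := (hev.and (Real.tendsto_log_atTop.eventually_ge_atTop
    (Real.exp B))).exists_forall_of_atTop
  refine ⟨2 ^ q * (CR + 2 ^ q * (2 * (K ^ q * CV))),
    max (max T1 T2) T4, by positivity,
    hT1.trans ((le_max_left _ _).trans (le_max_left _ _)), fun T hT a ha haL => ?_⟩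
  have hTT1 : T1 ≤ T := ((le_max_left _ _).trans (le_max_left _ _)).trans hT
  have hTT2 : T2 ≤ T := ((le_max_right _ _).trans (le_max_left _ _)).trans hT
  obtain ⟨g4, g5⟩ := hT4 T ((le_max_right _ _).trans hT)
  have hT10 : 10 ≤ T := hT1.trans hTT1
  have hT0 : 0 < T := by linarith
  obtain ⟨hVi, hVb⟩ := hV T hTT1
  have hL0 : 0 < Real.log T := Real.log_pos (by linarith)
  have ha0 : 0 < a := by linarith
  have hla : 1 ≤ Real.log a := by
    rw [Real.le_log_iff_exp_le ha0]
    linarith [Real.exp_one_lt_d9]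
  obtain ⟨U1, U2, hU1, hU1', hU2', hU2, hAct⟩ := hAc T hTT2
  have hAt := hA lam T (by linarith) hT10 U1 U2 hU1 hU2
  refine ⟨U1, U2, hU1, hU1', hU2', hU2, ?_⟩
  have hL1 : 1 ≤ Real.log T := by
    have := Real.add_one_le_exp B
    linarith only [this, g5, hB]
  have hU : 1 ≤ U1 := by linarith
  set S := Zf riemannZeta U1 U2 with hS
  have hsub : S ⊆ Zf riemannZeta T (2 * T) := by
    intro s hs
    rw [hS, mem_Zf good_zeta hU] at hs
    rw [mem_Zf good_zeta (by linarith)]
    exact ⟨hs.1, hs.2.1, by linarith [hs.2.2.1], by linarith [hs.2.2.2.1], hs.2.2.2.2⟩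
  set L := Real.log T with hL
  set l := L / lam with hl
  have hl0 : 0 < l := by positivity
  set W := l / (2 * Real.pi) with hW
  have hW0 : 0 < W := by positivity
  set h := 2 * Real.pi * a / L with hh
  have hh0 : 0 < h := by positivity
  have haL' : a ≤ L := Pool.Agent.TH850.UV.range_le (by linarith only [ha, hlam]) (by linarith only [hB]) g5 haL
  have hh7 : h ≤ 7 := by
    rw [hh, div_le_iff₀ hL0]
    nlinarith only [Real.pi_lt_d2, haL', hL0, ha0]
  have hWh : W * lam * h = a := by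
    rw [hW, hl, hh]; field_simp
  have hWh2 : W * h = a / lam := by
    rw [eq_div_iff hlam0.ne', ← hWh]; ring
  have hAB : T + L ≤ 2 * T - L - 7 := by linarith only [g4, hT0]
  -- the majorant
  set Vf : ℝ → ℝ := fun t => K * VV lam T t with hVf
  have hVVc := VV_cont lam T
  have hVV0 : ∀ t, 0 ≤ VV lam T t := VV_nonneg lam T
  have hVfc : Continuous Vf := by simp only [hVf]; fun_prop
  have hVf0 : ∀ t, 0 ≤ Vf t := fun t => mul_nonneg hK0.le (hVV0 t)
  have hVf2 : (fun t => Vf t ^ q) = fun t => K ^ q * VV lam T t ^ q := by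
    funext t; simp only [hVf]; rw [mul_pow]
  have hVfi : Integrable fun t => Vf t ^ q := by
    rw [hVf2]; exact hVi.const_mul _
  have hVfI : ∫ t, Vf t ^ q ≤ K ^ q * CV * T := by
    rw [hVf2, MeasureTheory.integral_const_mul]
    have : K ^ q * ∫ t, VV lam T t ^ q ≤ K ^ q * (CV * T) := by gcongr
    linarith only [this]
  have hdom : ∀ (f : ℝ → ℝ → ℝ) (C : ℝ), 0 < C → C ≤ Cq + CJ + CP →
      (∀ y x, |f y x| ≤ C * Real.exp (Real.pi * |y|) / (1 + x ^ 2)) → ∀ t, |GS f S l t| ≤ Vf t := by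
    intro f C hC hCle hf t
    refine (GS_dom f C lam T hC.le (by linarith only [hlam]) hT10 hf S hsub t).trans ?_
    simp only [hVf, hK]
    apply mul_le_mul_of_nonneg_right _ (hVV0 t)
    exact mul_le_mul_of_nonneg_right hCle hΛ0.le
  have hJV := hdom Jk CJ hCJ (by linarith only [hCq, hCP]) hJ
  -- the pieces
  set E : ℝ → ℝ := fun t => GS Qk S l t - GS Qk S l (t + h) - a with hE
  set J : ℝ → ℝ := fun t => GS Jk S l t - GS Jk S l (t + h) with hJd
  set D : ℝ → ℝ := fun t => Db l h (XT T) t with hDd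
  have hQc := GSQ_cont S l
  have hqc := GSq_cont S l
  have hJm := GSJ_meas S l
  have hEc : Continuous E := by simp only [hE]; fun_prop
  have hDc : Continuous D := Db_cont l h (XT T)
  have hJmeas : Measurable J := hJm.sub (hJm.comp (measurable_id.add_const h))
  have hJb : ∀ t, |J t| ≤ Vf t + Vf (t + h) := fun t =>
    (abs_sub _ _).trans (add_le_add (hJV t) (hJV (t + h)))
  have hJ4 : ∀ t, J t ^ q ≤ 2 ^ q * (Vf t ^ q + Vf (t + h) ^ q) := fun t => by
    rw [abs_pow_q hqe]
    exact (pow_le_pow_left₀ (abs_nonneg _) (hJb t) q).trans (add_pow_q hqe _ _)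
  have hNS : ∀ t, NS S h t - a = E t - J t := fun t => by
    rw [NS_eq S hl0 hh0.le t]
    simp only [hE, hJd]
    ring
  -- the remainder
  set R : ℝ → ℝ := fun t => E t + D t with hR
  have hRc : Continuous R := by simp only [hR]; fun_prop
  set DP : ℝ → ℝ := fun τ => 2 * (1 / Real.sqrt (2 * Real.pi)) * (DDo lamC l (XT T) τ).re with hDP
  have hDPc : Continuous DP := by
    have := DDo_cont lamC l (XT T)
    simp only [hDP]
    exact continuous_const.mul (Complex.continuous_re.comp this)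
  have hRint : ∀ t, R t = ∫ τ in t..(t + h), W * (GS qk S l τ - lam + DP τ) := by
    intro t
    simp only [hR, hE, hDd]
    rw [BS_eq S l h t, Db_eq l h (XT T) t]
    have e1 : ∀ τ, W * (GS qk S l τ - lam + DP τ) = W * GS qk S l τ - W * lam + W * DP τ :=
      fun τ => by ring
    simp_rw [e1]
    rw [intervalIntegral.integral_add (Continuous.intervalIntegrable (by fun_prop) _ _)
      (Continuous.intervalIntegrable (by fun_prop) _ _),
      intervalIntegral.integral_sub (Continuous.intervalIntegrable (by fun_prop) _ _)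
      (Continuous.intervalIntegrable (by fun_prop) _ _), intervalIntegral.integral_const,
      smul_eq_mul]
    have e2 : (t + h - t) * (W * lam) = a := by rw [← hWh]; ring
    rw [e2]
  have hRb : ∀ t ∈ Icc (T + L) (2 * T - L - 7), |R t| ≤ CE * a / L +
      (CA * Λ / W) * ∫ τ in t..(t + h), VV lam T τ := by
    intro t ht
    rw [hRint t]
    refine (intervalIntegral.abs_integral_le_integral_abs (by linarith only [hh0])).trans ?_
    have h1 : ∫ τ in t..(t + h), |W * (GS qk S l τ - lam + DP τ)| ≤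
        ∫ τ in t..(t + h), (W * (CE / L) + CA * Λ / W * VV lam T τ) := by
      refine intervalIntegral.integral_mono_on (by linarith only [hh0])
        (Continuous.intervalIntegrable (by fun_prop) _ _)
        (Continuous.intervalIntegrable (by fun_prop) _ _) fun τ hτ => ?_
      rw [abs_mul, abs_of_pos hW0]
      have h2 := hAct τ (by linarith only [ht.1, hτ.1]) (by linarith only [ht.2, hτ.2, hh7])
      have h3 := hAt τ
      have h4 : |GS qk S l τ - lam + DP τ| ≤ CA / W ^ 2 * Λ * VV lam T τ + CE / L := by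
        have e3 : GS qk S l τ - lam + DP τ = (GS qk S l τ - 2 * (HTo l U1 U2 τ).re) +
            (2 * (HTo l U1 U2 τ).re - (lam - DP τ)) := by ring
        rw [e3]
        exact (abs_add_le _ _).trans (add_le_add h3 h2)
      calc W * |GS qk S l τ - lam + DP τ| ≤ W * (CA / W ^ 2 * Λ * VV lam T τ + CE / L) :=
            mul_le_mul_of_nonneg_left h4 hW0.le
        _ = _ := by field_simp; ring
    refine h1.trans ?_
    rw [intervalIntegral.integral_add (Continuous.intervalIntegrable (by fun_prop) _ _)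
      (Continuous.intervalIntegrable (by fun_prop) _ _), intervalIntegral.integral_const,
      intervalIntegral.integral_const_mul, smul_eq_mul]
    have e4 : (t + h - t) * (W * (CE / L)) = CE * a / L / lam := by
      have : (t + h - t) * (W * (CE / L)) = (W * h) * (CE / L) := by ring
      rw [this, hWh2]; field_simp
    rw [e4]
    have e5 : CE * a / L / lam ≤ CE * a / L := div_le_self (by positivity) (by linarith only [hlam])
    linarith only [e5]
  have hRes := hRest hAB hh0.le hRc hVVc hVi hRb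
  have haL1 : a / L ≤ 1 := by rw [div_le_one hL0]; exact haL'
  have haL20 : 0 < a / L := by positivity
  have hR2 : ∫ t in (T + L)..(2 * T - L - 7), R t ^ q ≤ CR * T := by
    refine hRes.trans ?_
    have haL4 : (a / L) ^ q ≤ 1 := pow_le_one₀ haL20.le haL1
    have e1 : (CE * a / L) ^ q * (2 * T - L - 7 - (T + L)) ≤ CE ^ q * T := by
      have h1 : (CE * a / L) ^ q * (2 * T - L - 7 - (T + L)) ≤ (CE * a / L) ^ q * T := by
        apply mul_le_mul_of_nonneg_left _ (by positivity)
        linarith only [hT0, hL0]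
      have h2 : (CE * a / L) ^ q ≤ CE ^ q := by
        have : CE * a / L = CE * (a / L) := by ring
        rw [this, mul_pow]
        have h0 : 0 ≤ CE ^ q := by positivity
        nlinarith only [haL4, h0]
      refine h1.trans ?_
      gcongr
    have e2 : h / W = 4 * Real.pi ^ 2 * lam * (a / L) / L := by
      rw [hW, hl, hh]; field_simp; ring
    have e3 : (CA * Λ / W) ^ q * h ^ (q - 1) * (h * ∫ t, VV lam T t ^ q) ≤
        (CA * Λ * (4 * Real.pi ^ 2 * lam)) ^ q * CV * T := by
      have hle : h / W ≤ 4 * Real.pi ^ 2 * lam := by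
        rw [e2]
        have : 4 * Real.pi ^ 2 * lam * (a / L) / L ≤ 4 * Real.pi ^ 2 * lam * (a / L) :=
          div_le_self (by positivity) hL1
        refine this.trans ?_
        have h0 : 0 < 4 * Real.pi ^ 2 * lam := by positivity
        nlinarith only [haL1, h0]
      have hp : 0 < h / W := by positivity
      have hpw : h ^ (q - 1) * h = h ^ q := by
        rw [← pow_succ]
        congr 1
        omega
      have hI0 : 0 ≤ ∫ t, VV lam T t ^ q := integral_nonneg fun t => hqe.pow_nonneg _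
      calc (CA * Λ / W) ^ q * h ^ (q - 1) * (h * ∫ t, VV lam T t ^ q) =
          (CA * Λ / W) ^ q * (h ^ (q - 1) * h) * ∫ t, VV lam T t ^ q := by ring
        _ = (CA * Λ * (h / W)) ^ q * ∫ t, VV lam T t ^ q := by
            rw [hpw, ← mul_pow]
            congr 2
            field_simp
        _ ≤ (CA * Λ * (4 * Real.pi ^ 2 * lam)) ^ q * (CV * T) := by gcongr
        _ = _ := by ring
    calc _ ≤ 2 ^ q * (CE ^ q * T + (CA * Λ * (4 * Real.pi ^ 2 * lam)) ^ q * CV * T) :=
          mul_le_mul_of_nonneg_left (add_le_add e1 e3) (by positivity)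
      _ = _ := by rw [hCR]; ring
  have hi4 : IntervalIntegrable (fun t => 2 ^ q * (Vf t ^ q + Vf (t + h) ^ q)) volume (T + L)
      (2 * T - L - 7) := Continuous.intervalIntegrable (by fun_prop) _ _
  have hJi4 : IntervalIntegrable (fun t => J t ^ q) volume (T + L) (2 * T - L - 7) := by
    refine hi4.mono_fun' (hJmeas.pow_const q).aestronglyMeasurable
      (Eventually.of_forall fun t => ?_)
    show ‖J t ^ q‖ ≤ _
    rw [Real.norm_of_nonneg (hqe.pow_nonneg _)]
    exact hJ4 t
  have hJ2 : ∫ t in (T + L)..(2 * T - L - 7), J t ^ q ≤ 2 ^ q * (2 * (K ^ q * CV)) * T := by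
    have h1 : ∫ t in (T + L)..(2 * T - L - 7), J t ^ q ≤
        ∫ t in (T + L)..(2 * T - L - 7), (2 ^ q * (Vf t ^ q + Vf (t + h) ^ q)) :=
      intervalIntegral.integral_mono_on hAB hJi4 hi4 fun x _ => hJ4 x
    refine h1.trans ?_
    rw [intervalIntegral.integral_const_mul, intervalIntegral.integral_add
      (Continuous.intervalIntegrable (by fun_prop) _ _)
      (Continuous.intervalIntegrable (by fun_prop) _ _)]
    have h5 := int_le_univ hVfi (fun t => hqe.pow_nonneg _) hAB
    have h6 := int_shift_le hVfi (fun t => hqe.pow_nonneg _) hAB h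
    calc _ ≤ 2 ^ q * (2 * (K ^ q * CV * T)) := by
          apply mul_le_mul_of_nonneg_left _ (by positivity)
          linarith only [h5, h6, hVfI]
      _ = _ := by ring
  have e9 : ∀ t, NS S h t - a + Db l h (XT T) t = R t - J t := fun t => by
    rw [hNS t]
    simp only [hR, hDd]
    ring
  simp_rw [e9]
  have hpt : ∀ t, (R t - J t) ^ q ≤ 2 ^ q * (R t ^ q + J t ^ q) := fun t => by
    have h1 := add_pow_q hqe (R t) (-J t)
    rw [hqe.neg_pow, ← sub_eq_add_neg] at h1
    exact h1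
  have hRJi : IntervalIntegrable (fun t => 2 ^ q * (R t ^ q + J t ^ q)) volume (T + L) (2 * T - L - 7) :=
    ((Continuous.intervalIntegrable (by fun_prop) _ _).add hJi4).const_mul _
  have i1 : IntervalIntegrable (fun t => (R t - J t) ^ q) volume (T + L) (2 * T - L - 7) := by
    refine hRJi.mono_fun' ((hRc.measurable.sub hJmeas).pow_const q).aestronglyMeasurable
      (Eventually.of_forall fun t => ?_)
    show ‖(R t - J t) ^ q‖ ≤ _
    rw [Real.norm_of_nonneg (hqe.pow_nonneg _)]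
    exact hpt t
  refine ⟨i1, ?_⟩
  have h1 : ∫ t in (T + L)..(2 * T - L - 7), (R t - J t) ^ q ≤
      ∫ t in (T + L)..(2 * T - L - 7), (2 ^ q * (R t ^ q + J t ^ q)) :=
    intervalIntegral.integral_mono_on hAB i1 hRJi fun x _ => hpt x
  refine h1.trans ?_
  rw [intervalIntegral.integral_const_mul, intervalIntegral.integral_add
    (Continuous.intervalIntegrable (by fun_prop) _ _) hJi4]
  calc _ ≤ 2 ^ q * (CR * T + 2 ^ q * (2 * (K ^ q * CV)) * T) :=
        mul_le_mul_of_nonneg_left (add_le_add hR2 hJ2) (by positivity)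
    _ = _ := by ring

end Pool.Agent.R320.VQ
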