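import Pool.Agent.R320.VR.Db4
import Pool.Agent.R320.VQ.Apx

/-! # High moments of the prime sum -/

set_option autoImplicit false

namespace Pool.Agent.R320.VQ

open Complex Filter Topology MeasureTheory Set
open Pool.Agent.TH850.UV
open Pool.Agent.Y743.CL
open Pool.Agent.Y41.SW (DP)
open Pool.Agent.R320.VR (pp3_sum VS2_bd split_pp kap_norm decSq)

attribute [local instance] Pool.Agent.R320.VR.decSq

/-- high moments of a prime polynomial -/
lemma Gq (m : ℕ) (c : ℕ → ℝ) (X : ℕ) (hX : 1 ≤ X) (T A B : ℝ) (hT : 1 ≤ T) (hAB : A ≤ B)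
    (hXT : ((X ^ (m + m) : ℕ) : ℝ) ≤ Real.sqrt T) :
    ∫ t in A..B, ‖G c X t‖ ^ (2 * m) ≤ ((B - A) + 16 * T) * (m.factorial * VS c X ^ m) := by
  have h1 := mom_bd c X hX T A B hT hAB m m hXT
  rw [if_pos rfl] at h1
  have e1 : ∀ t : ℝ, G c X t ^ m * (starRingEnd ℂ) (G c X t) ^ m = ((‖G c X t‖ ^ (2 * m) : ℝ) : ℂ) := by
    intro t
    rw [← mul_pow, Complex.mul_conj, Complex.normSq_eq_norm_sq, pow_mul]
    push_cast
    ring
  simp_rw [e1] at h1
  rw [intervalIntegral.integral_ofReal, ← Complex.ofReal_mul, ← Complex.ofReal_sub, Complex.norm_real,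
    Real.norm_eq_abs] at h1
  have h2 := (abs_le.1 h1).2
  have hV := VS_nonneg c X
  have h3 := SS_le c X m
  have hm0 : (0 : ℝ) ≤ m.factorial * VS c X ^ m := by positivity
  rw [Real.mul_self_sqrt hm0] at h2
  have h4 : Real.sqrt T * (1 + Real.log T) ≤ 2 * T := by
    have hs : Real.sqrt T * Real.sqrt T = T := Real.mul_self_sqrt (by linarith)
    have hs0 : 0 < Real.sqrt T := Real.sqrt_pos.2 (by linarith)
    have h5 : Real.log T = 2 * Real.log (Real.sqrt T) := by
      rw [Real.log_sqrt (by linarith)]; ring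
    have h6 : Real.log (Real.sqrt T) ≤ Real.sqrt T - 1 := Real.log_le_sub_one_of_pos hs0
    nlinarith
  have h5 : (B - A) * SS c X m ≤ (B - A) * (m.factorial * VS c X ^ m) :=
    mul_le_mul_of_nonneg_left h3 (by linarith)
  have h6 : 8 * (Real.sqrt T * (1 + Real.log T)) * (m.factorial * VS c X ^ m) ≤
      8 * (2 * T) * (m.factorial * VS c X ^ m) := by
    gcongr
  calc ∫ t in A..B, ‖G c X t‖ ^ (2 * m) ≤ (B - A) * (m.factorial * VS c X ^ m) +
        8 * (2 * T) * (m.factorial * VS c X ^ m) := by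
        linarith
    _ = _ := by ring

/-- the coefficients beyond the effective length -/
lemma kap_far {l : ℝ} (hl : 0 < l) (h : ℝ) (n : ℕ) (hn : 2 ≤ n) (hln : l ≤ Real.log n) :
    ‖kap l h n‖ ≤ l * Real.exp (-(Real.log n) ^ 2 / 8) := by
  have hpi := Real.pi_pos
  have hn0 : (0 : ℝ) < n := by exact_mod_cast (by omega : 0 < n)
  have hn1 : (1 : ℝ) ≤ n := by exact_mod_cast (by omega : 1 ≤ n)
  have hlog : 0 < Real.log n := Real.log_pos (by exact_mod_cast (by omega : 1 < n))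
  have h1 := kap_sq hl h n hn
  have h2 : ArithmeticFunction.vonMangoldt n ^ 2 / (n * Real.log n ^ 2) ≤ 1 := by
    rw [div_le_one (by positivity)]
    have h3 : ArithmeticFunction.vonMangoldt n ^ 2 ≤ Real.log n ^ 2 :=
      pow_le_pow_left₀ ArithmeticFunction.vonMangoldt_nonneg
        ArithmeticFunction.vonMangoldt_le_log 2
    have h4 : 0 < Real.log n ^ 2 := by positivity
    nlinarith
  have h3 : 1 - Real.cos (h * Real.log n) ≤ 2 := by
    linarith [Real.neg_one_le_cos (h * Real.log n)]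
  have h3' : 0 ≤ 1 - Real.cos (h * Real.log n) := by
    linarith [Real.cos_le_one (h * Real.log n)]
  have hg0 := ggo_nonneg l n
  have h5 : ‖kap l h n‖ ^ 2 ≤ (l * ggo l n) ^ 2 := by
    rw [h1]
    calc 1 / Real.pi ^ 3 * (ArithmeticFunction.vonMangoldt n ^ 2 / (n * Real.log n ^ 2) *
          (1 - Real.cos (h * Real.log n))) * (l * ggo l n) ^ 2 ≤
        1 / Real.pi ^ 3 * (1 * 2) * (l * ggo l n) ^ 2 := by
          apply mul_le_mul_of_nonneg_right _ (sq_nonneg _)
          apply mul_le_mul_of_nonneg_left _ (by positivity)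
          exact mul_le_mul h2 h3 h3' zero_le_one
      _ ≤ 1 * (l * ggo l n) ^ 2 := by
          apply mul_le_mul_of_nonneg_right _ (sq_nonneg _)
          rw [one_mul, div_mul_eq_mul_div, one_mul, div_le_one (by positivity)]
          have := Real.pi_gt_three
          nlinarith [sq_nonneg Real.pi]
      _ = _ := one_mul _
  have h6 : ‖kap l h n‖ ≤ l * ggo l n := by
    have h0 := norm_nonneg (kap l h n)
    have h00 : 0 ≤ l * ggo l n := mul_nonneg hl.le hg0
    exact (pow_le_pow_iff_left₀ h0 h00 (by norm_num)).1 h5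
  refine h6.trans (mul_le_mul_of_nonneg_left ?_ hl.le)
  unfold ggo
  have hom := om_cont0
  have h7 : ∫ α in (0 : ℝ)..(1 / 2), om α * Real.exp (-(α * l - Real.log n) ^ 2 / 2) ≤
      ∫ _α in (0 : ℝ)..(1 / 2), Real.exp (-(Real.log n) ^ 2 / 8) := by
    refine intervalIntegral.integral_mono_on (by norm_num)
      (Continuous.intervalIntegrable (by fun_prop) _ _) intervalIntegrable_const fun α hα => ?_
    have a1 := om_le_one α
    have a2 := om_nonneg0 α
    have a3 : Real.exp (-(α * l - Real.log n) ^ 2 / 2) ≤ Real.exp (-(Real.log n) ^ 2 / 8) := by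
      apply Real.exp_le_exp.2
      have b1 : α * l ≤ Real.log n / 2 := by
        have : α * l ≤ 1 / 2 * l := mul_le_mul_of_nonneg_right hα.2 hl.le
        linarith
      have b2 : (Real.log n / 2) ^ 2 ≤ (Real.log n - α * l) ^ 2 :=
        pow_le_pow_left₀ (by positivity) (by linarith) 2
      nlinarith
    have a4 := Real.exp_pos (-(α * l - Real.log n) ^ 2 / 2)
    calc om α * Real.exp (-(α * l - Real.log n) ^ 2 / 2) ≤ 1 * Real.exp (-(α * l - Real.log n) ^ 2 / 2) :=
          mul_le_mul_of_nonneg_right a1 a4.le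
      _ ≤ _ := by rw [one_mul]; exact a3
  refine h7.trans ?_
  rw [intervalIntegral.integral_const, smul_eq_mul]
  have := Real.exp_pos (-(Real.log n) ^ 2 / 8)
  linarith

/-- the part of the prime sum beyond the effective length -/
lemma far_sum (κ lam : ℝ) (hκ : 0 < κ) (hlam : 1 / κ ≤ lam) : ∃ T0 : ℝ, 10 ≤ T0 ∧ ∀ T : ℝ, T0 ≤ T →
    ∀ h t : ℝ, ‖∑ n ∈ Finset.Ioc (XK κ T) (XT T), kap (Real.log T / lam) h n *
      (n : ℂ) ^ (-(t : ℂ) * I)‖ ≤ 1 := by
  have hlam0 : 0 < lam := lt_of_lt_of_le (by positivity) hlam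
  have hev : ∀ᶠ L : ℝ in atTop, L / lam * (Real.exp (L / 8) * Real.exp (-(κ * L) ^ 2 / 8)) ≤ 1 := by
    have h1 : Tendsto (fun L : ℝ => L * (κ ^ 2 / 8 * L - 9 / 8)) atTop atTop := by
      apply Tendsto.atTop_mul_atTop₀ tendsto_id
      exact tendsto_atTop_add_const_right _ _ (tendsto_id.const_mul_atTop (by positivity))
    filter_upwards [h1.eventually_ge_atTop (Real.log (1 / lam)), eventually_ge_atTop 1] with L hL hL1
    have h2 : L ≤ Real.exp L := by linarith [Real.add_one_le_exp L]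
    have h3 : L / lam * (Real.exp (L / 8) * Real.exp (-(κ * L) ^ 2 / 8)) ≤
        (1 / lam) * Real.exp (-(L * (κ ^ 2 / 8 * L - 9 / 8))) := by
      rw [← Real.exp_add]
      calc L / lam * Real.exp (L / 8 + -(κ * L) ^ 2 / 8) ≤
            Real.exp L / lam * Real.exp (L / 8 + -(κ * L) ^ 2 / 8) := by gcongr
        _ = 1 / lam * (Real.exp L * Real.exp (L / 8 + -(κ * L) ^ 2 / 8)) := by ring
        _ = 1 / lam * Real.exp (-(L * (κ ^ 2 / 8 * L - 9 / 8))) := by
            rw [← Real.exp_add]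
            congr 2
            ring
    refine h3.trans ?_
    have h4 : 1 / lam = Real.exp (Real.log (1 / lam)) := (Real.exp_log (by positivity)).symm
    rw [h4, ← Real.exp_add]
    apply Real.exp_le_one_iff.2
    linarith
  obtain ⟨L0, hL0⟩ := hev.exists_forall_of_atTop
  obtain ⟨T1, hT1⟩ := (Real.tendsto_log_atTop.eventually_ge_atTop (max L0 1)).exists_forall_of_atTop
  refine ⟨max T1 10, le_max_right _ _, fun T hT h t => ?_⟩
  have hT10 : 10 ≤ T := (le_max_right _ _).trans hT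
  have hT0 : 0 < T := by linarith
  have h1 := hT1 T ((le_max_left _ _).trans hT)
  have h2 : L0 ≤ Real.log T := (le_max_left _ _).trans h1
  have h3 : 1 ≤ Real.log T := (le_max_right _ _).trans h1
  have hfin := hL0 _ h2
  set L := Real.log T with hL
  have hLpos : 0 < L := by linarith
  have hl0 : 0 < L / lam := by positivity
  have hXTle : (XT T : ℝ) ≤ Real.exp (L / 8) := by
    have : (XT T : ℝ) ≤ T ^ (1 / 8 : ℝ) := Nat.floor_le (by positivity)
    rw [Real.rpow_def_of_pos hT0, ← hL] at this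
    refine this.trans (le_of_eq ?_)
    congr 1
    ring
  have hterm : ∀ n ∈ Finset.Ioc (XK κ T) (XT T), ‖kap (L / lam) h n * (n : ℂ) ^ (-(t : ℂ) * I)‖ ≤
      L / lam * Real.exp (-(κ * L) ^ 2 / 8) := by
    intro n hn
    rw [Finset.mem_Ioc] at hn
    have hTk : T ^ κ < n := by
      have h4 := Nat.lt_floor_add_one (T ^ κ)
      have h5 : ((XK κ T : ℕ) : ℝ) + 1 ≤ n := by exact_mod_cast hn.1
      unfold XK at h5
      linarith
    have hT1k : 1 < T ^ κ := Real.one_lt_rpow (by linarith) hκ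
    have hn2 : 2 ≤ n := by
      have : (1 : ℝ) < n := by linarith
      exact_mod_cast this
    have hlogn : κ * L ≤ Real.log n := by
      rw [hL, ← Real.log_rpow hT0]
      exact Real.log_le_log (by linarith) hTk.le
    have hn0 : (0 : ℝ) < n := by exact_mod_cast (by omega : 0 < n)
    have hc : ‖(n : ℂ) ^ (-(t : ℂ) * I)‖ = 1 := by
      have : ((n : ℕ) : ℂ) = ((n : ℝ) : ℂ) := by push_cast; rfl
      rw [this, Complex.norm_cpow_eq_rpow_re_of_pos hn0]
      simp
    rw [norm_mul, hc, mul_one]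
    have hll : L / lam ≤ Real.log n := by
      refine le_trans ?_ hlogn
      rw [div_le_iff₀ hlam0]
      rw [div_le_iff₀ hκ] at hlam
      nlinarith
    refine (kap_far hl0 h n hn2 hll).trans ?_
    apply mul_le_mul_of_nonneg_left _ hl0.le
    apply Real.exp_le_exp.2
    have : (κ * L) ^ 2 ≤ Real.log n ^ 2 := pow_le_pow_left₀ (by positivity) hlogn 2
    linarith
  refine (norm_sum_le _ _).trans ((Finset.sum_le_sum hterm).trans ?_)
  rw [Finset.sum_const, nsmul_eq_mul, Nat.card_Ioc]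
  have hcard : ((XT T - XK κ T : ℕ) : ℝ) ≤ Real.exp (L / 8) := by
    refine le_trans ?_ hXTle
    exact_mod_cast Nat.sub_le _ _
  calc ((XT T - XK κ T : ℕ) : ℝ) * (L / lam * Real.exp (-(κ * L) ^ 2 / 8)) ≤
      Real.exp (L / 8) * (L / lam * Real.exp (-(κ * L) ^ 2 / 8)) :=
        mul_le_mul_of_nonneg_right hcard (by positivity)
    _ = L / lam * (Real.exp (L / 8) * Real.exp (-(κ * L) ^ 2 / 8)) := by ring
    _ ≤ 1 := hfin

/-- high moments of the prime sum -/
theorem Dbq (m : ℕ) (hm : 1 ≤ m) {lam : ℝ} (hlam : 16 ≤ lam) (hlm : 8 * (m : ℝ) ≤ lam) (B : ℝ) (hB : 1 ≤ B) :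
    ∃ C T0 : ℝ, 0 < C ∧ 10 ≤ T0 ∧
    ∀ T : ℝ, T0 ≤ T → ∀ a : ℝ, lam ≤ a → a * Real.log a ≤ B * Real.log T →
    ∀ A' B' : ℝ, A' ≤ B' → B' - A' ≤ T →
    ∫ t in A'..B', Db (Real.log T / lam) (2 * Real.pi * a / Real.log T) (XT T) t ^ (2 * m) ≤
      C * (1 + Real.log a) ^ m * T := by
  have hmr : (1 : ℝ) ≤ m := by exact_mod_cast hm
  obtain ⟨κ, hκd⟩ : ∃ κ : ℝ, κ = 1 / (8 * m) := ⟨_, rfl⟩
  have hκ : 0 < κ := by rw [hκd]; positivity
  have hκ8 : κ ≤ 1 / 8 := by
    rw [hκd]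
    apply one_div_le_one_div_of_le (by norm_num)
    linarith
  have hκlam : 1 / κ ≤ lam := by rw [hκd, one_div_one_div]; exact hlm
  obtain ⟨C2, T2, hC2, hT2, hK⟩ := kap_sum hlam B hB
  obtain ⟨C3, hC3, hpp⟩ := pp3_sum
  obtain ⟨C4, hC4, hV2⟩ := VS2_bd
  obtain ⟨T5, hT5, hfar⟩ := far_sum κ lam hκ hκlam
  have hpi := Real.pi_pos
  have hlam0 : 0 < lam := by linarith
  have hqe : Even (2 * m) := even_two_mul m
  refine ⟨2 ^ (2 * m) * (17 * (m.factorial * (1 + C2) ^ m)) + 4 ^ (2 * m) *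
    (18 * (m.factorial * C4 ^ m) + (C3 + 1) ^ (2 * m)), max T2 T5,
    by positivity, hT5.trans (le_max_right _ _), fun T hT a ha haL A' B' hAB hABT => ?_⟩
  have hTT2 : T2 ≤ T := (le_max_left _ _).trans hT
  have hTT5 : T5 ≤ T := (le_max_right _ _).trans hT
  have hT10 : 10 ≤ T := hT5.trans hTT5
  have hT0 : 0 < T := by linarith
  have hT1 : 1 ≤ T := by linarith
  have ha0 : 0 < a := by linarith
  have hla0 : 0 ≤ Real.log a := Real.log_nonneg (by linarith)
  have hkap := hK T hTT2 a ha haL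
  have hfarT := hfar T hTT5
  set L := Real.log T with hL
  have hL0 : 0 < L := Real.log_pos (by linarith)
  set l := L / lam with hl
  have hl0 : 0 < l := by positivity
  set h := 2 * Real.pi * a / L with hh
  set X := XK κ T with hX
  have hX1 : 1 ≤ X := by
    rw [hX]
    unfold XK
    apply Nat.le_floor
    rw [Nat.cast_one]
    exact Real.one_le_rpow hT1 hκ.le
  have hXle : X ≤ XT T := by
    rw [hX]
    unfold XK XT
    exact Nat.floor_le_floor (Real.rpow_le_rpow_of_exponent_le hT1 hκ8)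
  have hX4 : ((X ^ (m + m) : ℕ) : ℝ) ≤ Real.sqrt T := by
    have h1 : (X : ℝ) ≤ T ^ κ := Nat.floor_le (by positivity)
    push_cast
    calc (X : ℝ) ^ (m + m) ≤ (T ^ κ) ^ (m + m) := pow_le_pow_left₀ (Nat.cast_nonneg _) h1 _
      _ = T ^ (1 / 4 : ℝ) := by
          rw [← Real.rpow_natCast, ← Real.rpow_mul hT0.le]
          congr 1
          rw [hκd]
          push_cast
          field_simp
          norm_num
      _ ≤ T ^ (1 / 2 : ℝ) := Real.rpow_le_rpow_of_exponent_le hT1 (by norm_num)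
      _ = Real.sqrt T := by rw [Real.sqrt_eq_rpow]
  have hs1 : 1 ≤ Nat.sqrt X := Nat.sqrt_pos.2 (by omega)
  have hs4 : (((Nat.sqrt X) ^ (m + m) : ℕ) : ℝ) ≤ Real.sqrt T := by
    refine le_trans ?_ hX4
    exact_mod_cast Nat.pow_le_pow_left (Nat.sqrt_le_self X) _
  -- the variance
  have hVS : VS (rc l h) X ≤ (1 + C2) * (1 + Real.log a) := by
    have h1 := VS_eq κ T l h hκ8 hT1
    rw [← hX] at h1
    have h2 : 0 ≤ ∑ n ∈ (Finset.Icc 2 (XT T)).filter (fun n => ¬ (n.Prime ∧ n ≤ X)),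
      ‖kap l h n‖ ^ 2 := Finset.sum_nonneg fun _ _ => sq_nonneg _
    have h3 := (abs_le.1 hkap).2
    have h4 : 2 / Real.pi ^ 2 * Real.log a ≤ 1 * Real.log a := by
      apply mul_le_mul_of_nonneg_right _ hla0
      rw [div_le_one (by positivity)]
      nlinarith [Real.pi_gt_three]
    have h5 := mul_nonneg hC2.le hla0
    linarith
  have hVS0 := VS_nonneg (rc l h) X
  have hVS2 : VS (rc l h) X ^ m ≤ (1 + C2) ^ m * (1 + Real.log a) ^ m := by
    rw [← mul_pow]
    exact pow_le_pow_left₀ hVS0 hVS m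
  -- the pieces
  set P1 : ℝ → ℂ := fun t => G (rc l h) X (t + h / 2) with hP1
  set P2 : ℝ → ℂ := fun t => G (fun p => rc l h (p ^ 2)) (Nat.sqrt X) (2 * t + h) with hP2
  have hP1c : Continuous P1 := (G_cont _ _).comp (by fun_prop)
  have hP2c : Continuous P2 := (G_cont _ _).comp (by fun_prop)
  have hDc := Db_cont l h (XT T)
  have i1 : ∫ t in A'..B', ‖P1 t‖ ^ (2 * m) ≤
      17 * T * (m.factorial * ((1 + C2) ^ m * (1 + Real.log a) ^ m)) := by
    have e1 : ∫ t in A'..B', ‖P1 t‖ ^ (2 * m) =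
        ∫ t in (A' + h / 2)..(B' + h / 2), ‖G (rc l h) X t‖ ^ (2 * m) :=
      intervalIntegral.integral_comp_add_right (fun t => ‖G (rc l h) X t‖ ^ (2 * m)) (h / 2)
    rw [e1]
    refine (Gq m (rc l h) X hX1 T _ _ hT1 (by linarith) hX4).trans ?_
    have : (B' + h / 2 - (A' + h / 2)) + 16 * T ≤ 17 * T := by linarith
    gcongr
  have i2 : ∫ t in A'..B', ‖P2 t‖ ^ (2 * m) ≤ 18 * T * (m.factorial * C4 ^ m) := by
    have e1 : ∫ t in A'..B', ‖P2 t‖ ^ (2 * m) = (2 : ℝ)⁻¹ * ∫ t in (2 * A' + h)..(2 * B' + h),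
        ‖G (fun p => rc l h (p ^ 2)) (Nat.sqrt X) t‖ ^ (2 * m) := by
      have := intervalIntegral.integral_comp_mul_add (a := A') (b := B')
        (fun t => ‖G (fun p => rc l h (p ^ 2)) (Nat.sqrt X) t‖ ^ (2 * m)) (c := 2) (by norm_num) h
      rw [smul_eq_mul] at this
      exact this
    rw [e1]
    have h2 := Gq m (fun p => rc l h (p ^ 2)) (Nat.sqrt X) hs1 T (2 * A' + h) (2 * B' + h) hT1
      (by linarith) hs4
    have h3 : VS (fun p => rc l h (p ^ 2)) (Nat.sqrt X) ^ m ≤ C4 ^ m :=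
      pow_le_pow_left₀ (VS_nonneg _ _) (hV2 l h hl0 _) m
    have h4 : ((2 * B' + h - (2 * A' + h)) + 16 * T) *
        (m.factorial * VS (fun p => rc l h (p ^ 2)) (Nat.sqrt X) ^ m) ≤
        (36 * T) * (m.factorial * C4 ^ m) := by
      apply mul_le_mul _ (mul_le_mul_of_nonneg_left h3 (by positivity)) (by
        have := VS_nonneg (fun p => rc l h (p ^ 2)) (Nat.sqrt X)
        positivity) (by positivity)
      linarith
    linarith
  have hpt : ∀ t, Db l h (XT T) t ^ (2 * m) ≤ 2 ^ (2 * m) * ‖P1 t‖ ^ (2 * m) +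
      (4 ^ (2 * m) * ‖P2 t‖ ^ (2 * m) + 4 ^ (2 * m) * (C3 + 1) ^ (2 * m)) := by
    intro t
    have h1 := Db_G κ T l h hκ8 hT1 t
    rw [← hX] at h1
    set P4 := ∑ n ∈ Finset.Ioc X (XT T), kap l h n * (n : ℂ) ^ (-(t : ℂ) * I) with hP4
    have hsplit : ∑ n ∈ Finset.Icc 2 (XT T), (if n.Prime ∧ n ≤ X then 0 else kap l h n) *
        (n : ℂ) ^ (-(t : ℂ) * I) = (∑ n ∈ Finset.Icc 2 X, (if n.Prime ∧ n ≤ X then 0 else kap l h n) *
        (n : ℂ) ^ (-(t : ℂ) * I)) + P4 := by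
      rcases Nat.lt_or_ge X 2 with hX2 | hX2
      · have hXe : X = 1 := by omega
        have e1 : Finset.Icc 2 X = ∅ := Finset.Icc_eq_empty (by omega)
        rw [e1, Finset.sum_empty, zero_add, hP4]
        have e2 : Finset.Icc 2 (XT T) = Finset.Ioc X (XT T) := by
          ext n
          rw [Finset.mem_Icc, Finset.mem_Ioc]
          omega
        rw [e2]
        refine Finset.sum_congr rfl fun n hn => ?_
        rw [if_neg]
        intro hh
        have := (Finset.mem_Ioc.1 hn).1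
        omega
      · have e2 : Finset.Icc 2 (XT T) = Finset.Icc 2 X ∪ Finset.Ioc X (XT T) := by
          ext n
          rw [Finset.mem_union, Finset.mem_Icc, Finset.mem_Icc, Finset.mem_Ioc]
          omega
        rw [e2, Finset.sum_union]
        · congr 1
          rw [hP4]
          refine Finset.sum_congr rfl fun n hn => ?_
          rw [if_neg]
          intro hh
          have := (Finset.mem_Ioc.1 hn).1
          omega
        · rw [Finset.disjoint_left]
          intro n hn hn2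
          rw [Finset.mem_Icc] at hn
          rw [Finset.mem_Ioc] at hn2
          omega
    rw [hsplit, split_pp] at h1
    set P3 := ∑ n ∈ (Finset.Icc 2 X).filter (fun n => ¬ n.Prime ∧ ¬ ∃ p : ℕ, p.Prime ∧ n = p ^ 2),
        kap l h n * (n : ℂ) ^ (-(t : ℂ) * I) with hP3
    have h3 : ‖P3‖ ≤ C3 := by
      refine le_trans ?_ (hpp X)
      rw [hP3]
      refine (norm_sum_le _ _).trans ?_
      rw [Finset.sum_filter, Finset.sum_filter]
      refine Finset.sum_le_sum fun n hn => ?_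
      have hn2 := (Finset.mem_Icc.1 hn).1
      have hk := kap_norm hl0 h n hn2
      have hc : ‖(n : ℂ) ^ (-(t : ℂ) * I)‖ = 1 := by
        have hn0 : (0 : ℝ) < n := by exact_mod_cast (by omega : 0 < n)
        have : ((n : ℕ) : ℂ) = ((n : ℝ) : ℂ) := by push_cast; rfl
        rw [this, Complex.norm_cpow_eq_rpow_re_of_pos hn0]
        simp
      by_cases hc1 : ¬ n.Prime ∧ ¬ ∃ p : ℕ, p.Prime ∧ n = p ^ 2
      · rw [if_pos hc1, norm_mul, hc, mul_one]
        by_cases hc2 : IsPrimePow n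
        · rw [if_pos ⟨hc2, hc1⟩]
          rw [if_pos hc2] at hk
          exact hk
        · rw [if_neg (fun hh => hc2 hh.1)]
          rw [if_neg hc2] at hk
          exact hk
      · rw [if_neg hc1, if_neg (fun hh => hc1 hh.2)]
    have h3' : ‖P4‖ ≤ 1 := hfarT h t
    have h4 : |Db l h (XT T) t| ≤ ‖P1 t‖ + (‖P2 t‖ + (C3 + 1)) := by
      rw [h1]
      refine (abs_add_le _ _).trans ?_
      refine add_le_add (Complex.abs_re_le_norm _) ?_
      refine (Complex.abs_re_le_norm _).trans ?_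
      refine (norm_add_le _ _).trans ?_
      have := norm_add_le (P2 t) P3
      linarith
    have h5 : Db l h (XT T) t ^ (2 * m) ≤ (‖P1 t‖ + (‖P2 t‖ + (C3 + 1))) ^ (2 * m) := by
      rw [abs_pow_q hqe]
      exact pow_le_pow_left₀ (abs_nonneg _) h4 _
    have h6 := add_pow_q hqe ‖P1 t‖ (‖P2 t‖ + (C3 + 1))
    have h7 := add_pow_q hqe ‖P2 t‖ (C3 + 1)
    have e4 : (4 : ℝ) ^ (2 * m) = 2 ^ (2 * m) * 2 ^ (2 * m) := by
      rw [← mul_pow]; norm_num
    rw [e4]
    have h8 : (2 : ℝ) ^ (2 * m) * (‖P2 t‖ + (C3 + 1)) ^ (2 * m) ≤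
        2 ^ (2 * m) * (2 ^ (2 * m) * (‖P2 t‖ ^ (2 * m) + (C3 + 1) ^ (2 * m))) :=
      mul_le_mul_of_nonneg_left h7 (by positivity)
    calc Db l h (XT T) t ^ (2 * m) ≤ 2 ^ (2 * m) * (‖P1 t‖ ^ (2 * m) + (‖P2 t‖ + (C3 + 1)) ^ (2 * m)) :=
          h5.trans h6
      _ = 2 ^ (2 * m) * ‖P1 t‖ ^ (2 * m) + 2 ^ (2 * m) * (‖P2 t‖ + (C3 + 1)) ^ (2 * m) := by ring
      _ ≤ 2 ^ (2 * m) * ‖P1 t‖ ^ (2 * m) +
          2 ^ (2 * m) * (2 ^ (2 * m) * (‖P2 t‖ ^ (2 * m) + (C3 + 1) ^ (2 * m))) := by linarith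
      _ = _ := by ring
  have i3 : ∫ t in A'..B', Db l h (XT T) t ^ (2 * m) ≤
      ∫ t in A'..B', (2 ^ (2 * m) * ‖P1 t‖ ^ (2 * m) +
      (4 ^ (2 * m) * ‖P2 t‖ ^ (2 * m) + 4 ^ (2 * m) * (C3 + 1) ^ (2 * m))) :=
    intervalIntegral.integral_mono_on hAB (Continuous.intervalIntegrable (by fun_prop) _ _)
      (Continuous.intervalIntegrable (by fun_prop) _ _) fun x _ => hpt x
  refine i3.trans ?_
  rw [intervalIntegral.integral_add (Continuous.intervalIntegrable (by fun_prop) _ _)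
    (Continuous.intervalIntegrable (by fun_prop) _ _),
    intervalIntegral.integral_add (Continuous.intervalIntegrable (by fun_prop) _ _)
    (Continuous.intervalIntegrable (by fun_prop) _ _), intervalIntegral.integral_const_mul,
    intervalIntegral.integral_const_mul, intervalIntegral.integral_const, smul_eq_mul]
  obtain ⟨M, hM⟩ : ∃ M : ℝ, M = (1 + Real.log a) ^ m := ⟨_, rfl⟩
  have h9 : (1 : ℝ) ≤ M := by rw [hM]; exact one_le_pow₀ (by linarith)
  rw [← hM] at i1 ⊢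
  have h8 : (B' - A') * (4 ^ (2 * m) * (C3 + 1) ^ (2 * m)) ≤ T * (4 ^ (2 * m) * (C3 + 1) ^ (2 * m)) := by
    gcongr
  have k1 : (2 : ℝ) ^ (2 * m) * ∫ t in A'..B', ‖P1 t‖ ^ (2 * m) ≤
      2 ^ (2 * m) * (17 * T * (m.factorial * ((1 + C2) ^ m * M))) :=
    mul_le_mul_of_nonneg_left i1 (by positivity)
  have k2 : (4 : ℝ) ^ (2 * m) * ∫ t in A'..B', ‖P2 t‖ ^ (2 * m) ≤
      4 ^ (2 * m) * (18 * T * (m.factorial * C4 ^ m)) :=
    mul_le_mul_of_nonneg_left i2 (by positivity)
  have k3 : 4 ^ (2 * m) * (18 * T * (m.factorial * C4 ^ m)) + T * (4 ^ (2 * m) * (C3 + 1) ^ (2 * m)) ≤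
      (4 ^ (2 * m) * (18 * (m.factorial * C4 ^ m) + (C3 + 1) ^ (2 * m))) * M * T := by
    have : 0 ≤ (4 ^ (2 * m) * (18 * (m.factorial * C4 ^ m) + (C3 + 1) ^ (2 * m))) * T := by positivity
    nlinarith
  calc _ ≤ 2 ^ (2 * m) * (17 * T * (m.factorial * ((1 + C2) ^ m * M))) +
        (4 ^ (2 * m) * (18 * T * (m.factorial * C4 ^ m)) + T * (4 ^ (2 * m) * (C3 + 1) ^ (2 * m))) := by
        linarith
    _ ≤ 2 ^ (2 * m) * (17 * T * (m.factorial * ((1 + C2) ^ m * M))) +
        (4 ^ (2 * m) * (18 * (m.factorial * C4 ^ m) + (C3 + 1) ^ (2 * m))) * M * T := by linarith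
    _ = _ := by ring

end Pool.Agent.R320.VQ
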