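import Pool.Agent.R320.VQ.TailN

/-! # Moments of the gaps and of their sums, on RH -/

set_option autoImplicit false

open Filter Topology MeasureTheory Set

namespace Pool.Agent.R320.VQ

open SG (ord NZ)
open LG (dlt)
open SP (RHs)
open Pool.Agent.R320.CL (SS dl SS_ge SS_le dl_le)

/-- moments of the normalised gaps -/
lemma gap_mom (hRH : RHs) (k : ℕ) : ∃ C : ℝ, 0 < C ∧ ∀ N : ℕ,
    ∑ n ∈ Finset.Icc 1 N, (max (dlt n) 0) ^ k ≤ C * N := by
  classical
  obtain ⟨c, y0, hc, hy0, h⟩ := LG.gap_uniform hRH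
  obtain ⟨M, hM⟩ : ∃ M : ℕ, M = ⌈y0⌉₊ := ⟨_, rfl⟩
  have hM0 : y0 ≤ M := by rw [hM]; exact Nat.le_ceil _
  set b : ℕ → ℝ := fun m => ((m : ℝ) + 1) ^ k * Real.exp (-c * m * Real.log m) with hb
  have hb0 : ∀ m, 0 ≤ b m := fun m => by
    rw [hb]
    positivity
  have hbs : Summable b := by
    have hr : ‖Real.exp (-c)‖ < 1 := by
      rw [Real.norm_of_nonneg (Real.exp_pos _).le, Real.exp_lt_one_iff]; linarith
    have h0 : Summable fun m : ℕ => (m : ℝ) ^ k * Real.exp (-c) ^ m :=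
      summable_pow_mul_geometric_of_norm_lt_one (R := ℝ) k hr
    have h1 : Summable fun m : ℕ => 2 ^ k * ((m : ℝ) ^ k * Real.exp (-c) ^ m) := h0.mul_left _
    refine Summable.of_norm_bounded_eventually_nat h1 ?_
    filter_upwards [eventually_ge_atTop 3] with m hm
    have hm3 : (3 : ℝ) ≤ m := by exact_mod_cast hm
    have hl : 1 ≤ Real.log m := by
      rw [Real.le_log_iff_exp_le (by linarith)]
      linarith [Real.exp_one_lt_d9]
    rw [Real.norm_of_nonneg (hb0 m)]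
    have e1 : ((m : ℝ) + 1) ^ k ≤ 2 ^ k * (m : ℝ) ^ k := by
      rw [← mul_pow]
      exact pow_le_pow_left₀ (by positivity) (by linarith) k
    have e2 : Real.exp (-c * m * Real.log m) ≤ Real.exp (-c) ^ m := by
      rw [← Real.exp_nat_mul]
      apply Real.exp_le_exp.mpr
      have h2 : (c * m) * 1 ≤ (c * m) * Real.log m := by gcongr
      linarith
    calc ((m : ℝ) + 1) ^ k * Real.exp (-c * m * Real.log m) ≤
        (2 ^ k * (m : ℝ) ^ k) * Real.exp (-c) ^ m := by gcongr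
      _ = _ := by ring
  have hts : 0 ≤ ∑' m, b m := tsum_nonneg hb0
  have hM3 : (0 : ℝ) ≤ (M : ℝ) ^ k := pow_nonneg (Nat.cast_nonneg _) k
  refine ⟨(M : ℝ) ^ k + ∑' m, b m + 1, by linarith only [hts, hM3], fun N => ?_⟩
  rcases Nat.eq_zero_or_pos N with hN | hN
  · subst hN; simp
  obtain ⟨K, hK⟩ : ∃ K : ℕ, ∀ n ∈ Finset.Icc 1 N, dlt n < K := by
    refine ⟨⌈∑ n ∈ Finset.Icc 1 N, |dlt n|⌉₊ + 1, fun n hn => ?_⟩
    have h1 : dlt n ≤ ∑ n ∈ Finset.Icc 1 N, |dlt n| :=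
      (le_abs_self _).trans (Finset.single_le_sum (f := fun n => |dlt n|)
        (fun _ _ => abs_nonneg _) hn)
    have h2 := Nat.le_ceil (∑ n ∈ Finset.Icc 1 N, |dlt n|)
    push_cast
    linarith
  have hpt : ∀ n ∈ Finset.Icc 1 N, (max (dlt n) 0) ^ k ≤ (M : ℝ) ^ k +
      ∑ m ∈ Finset.Ico M K, ((m : ℝ) + 1) ^ k * (if (m : ℝ) ≤ dlt n then 1 else 0) := by
    intro n hn
    have hs0 : 0 ≤ ∑ m ∈ Finset.Ico M K,
        ((m : ℝ) + 1) ^ k * (if (m : ℝ) ≤ dlt n then (1 : ℝ) else 0) :=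
      Finset.sum_nonneg fun m _ => mul_nonneg (by positivity) (by split_ifs <;> norm_num)
    rcases lt_or_ge (dlt n) M with h1 | h1
    · have h2 : (max (dlt n) 0) ^ k ≤ (M : ℝ) ^ k :=
        pow_le_pow_left₀ (le_max_right _ _) (max_le h1.le (Nat.cast_nonneg _)) k
      linarith
    · have hd0 : 0 ≤ dlt n := (Nat.cast_nonneg _).trans h1
      rw [max_eq_left hd0]
      set m : ℕ := ⌊dlt n⌋₊ with hm
      have hm1 : (m : ℝ) ≤ dlt n := Nat.floor_le hd0
      have hm2 : dlt n < m + 1 := Nat.lt_floor_add_one _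
      have hm3 : m ∈ Finset.Ico M K := by
        rw [Finset.mem_Ico]
        refine ⟨Nat.le_floor h1, ?_⟩
        have : (m : ℝ) < K := hm1.trans_lt (hK n hn)
        exact_mod_cast this
      have h2 : ((m : ℝ) + 1) ^ k * (if (m : ℝ) ≤ dlt n then (1 : ℝ) else 0) ≤
          ∑ m ∈ Finset.Ico M K, ((m : ℝ) + 1) ^ k * (if (m : ℝ) ≤ dlt n then (1 : ℝ) else 0) :=
        Finset.single_le_sum
          (f := fun m : ℕ => ((m : ℝ) + 1) ^ k * (if (m : ℝ) ≤ dlt n then (1 : ℝ) else 0))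
          (fun m _ => mul_nonneg (by positivity) (by split_ifs <;> norm_num)) hm3
      rw [if_pos hm1, mul_one] at h2
      have h3 : dlt n ^ k ≤ ((m : ℝ) + 1) ^ k := pow_le_pow_left₀ hd0 hm2.le k
      linarith
  refine (Finset.sum_le_sum hpt).trans ?_
  rw [Finset.sum_add_distrib, Finset.sum_const, Nat.card_Icc, Nat.add_sub_cancel, nsmul_eq_mul,
    Finset.sum_comm]
  have hm : ∀ m ∈ Finset.Ico M K, ∑ n ∈ Finset.Icc 1 N,
      ((m : ℝ) + 1) ^ k * (if (m : ℝ) ≤ dlt n then (1 : ℝ) else 0) ≤ b m * N := by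
    intro m hm
    rw [Finset.mem_Ico] at hm
    rw [← Finset.mul_sum, Finset.sum_boole]
    have hy : y0 ≤ (m : ℝ) := hM0.trans (by exact_mod_cast hm.1)
    have h1 := h N hN m hy
    have h2 : {n : ℕ | 1 ≤ n ∧ n ≤ N ∧ (m : ℝ) ≤ dlt n} =
        ((Finset.Icc 1 N).filter fun n => (m : ℝ) ≤ dlt n : Finset ℕ) := by
      ext n
      simp only [mem_ofPred_eq, Finset.coe_filter, Finset.mem_Icc]
      tauto
    rw [h2, Set.ncard_coe_finset] at h1
    calc ((m : ℝ) + 1) ^ k * (((Finset.Icc 1 N).filter fun n => (m : ℝ) ≤ dlt n).card : ℝ) ≤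
        ((m : ℝ) + 1) ^ k * (N * Real.exp (-c * m * Real.log m)) := by gcongr
      _ = b m * N := by rw [hb]; ring
  have h1 : ∑ m ∈ Finset.Ico M K, ∑ n ∈ Finset.Icc 1 N,
      ((m : ℝ) + 1) ^ k * (if (m : ℝ) ≤ dlt n then (1 : ℝ) else 0) ≤ (∑' m, b m) * N := by
    refine (Finset.sum_le_sum hm).trans ?_
    rw [← Finset.sum_mul]
    exact mul_le_mul_of_nonneg_right (hbs.sum_le_tsum _ fun _ _ => hb0 _) (Nat.cast_nonneg _)
  have hN0 : (0 : ℝ) ≤ N := Nat.cast_nonneg _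
  have e : ((M : ℝ) ^ k + ∑' m, b m + 1) * N = N * (M : ℝ) ^ k + (∑' m, b m) * N + N := by ring
  rw [e]
  exact (add_le_add_right h1 _).trans (le_add_of_nonneg_right hN0)

/-- the unfolded gaps are controlled by the normalised gaps -/
lemma dl_abs : ∃ C : ℝ, 0 ≤ C ∧ ∀ n : ℕ, 1 ≤ n → |dl n| ≤ max (dlt n) 0 + C := by
  obtain ⟨n0, hn0⟩ := (SG.ord_tendsto.eventually_ge_atTop (2 * Real.pi)).exists_forall_of_atTop
  have hpi := Real.pi_pos
  refine ⟨∑ n ∈ Finset.range n0, |dl n|, Finset.sum_nonneg fun _ _ => abs_nonneg _, fun n hn => ?_⟩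
  rcases Nat.lt_or_ge n n0 with h | h
  · have h1 : |dl n| ≤ ∑ n ∈ Finset.range n0, |dl n| :=
      Finset.single_le_sum (f := fun n => |dl n|) (fun _ _ => abs_nonneg _) (Finset.mem_range.2 h)
    have := le_max_right (dlt n) 0
    linarith
  · have h1 := hn0 n h
    have h2 : 0 ≤ dl n := by
      unfold Pool.Agent.R320.CL.dl
      apply mul_nonneg
      · apply div_nonneg _ (by positivity)
        have := SG.ord_mono hn (Nat.le_succ n)
        linarith
      · apply Real.log_nonneg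
        rw [le_div_iff₀ (by positivity), one_mul]
        exact h1
    rw [abs_of_nonneg h2]
    have h3 := dl_le hn
    have h4 : dl n ≤ dlt n := by
      refine h3.trans (le_of_eq ?_)
      unfold LG.dlt
      ring
    have h5 := le_max_left (dlt n) 0
    have h6 : 0 ≤ ∑ n ∈ Finset.range n0, |dl n| := Finset.sum_nonneg fun _ _ => abs_nonneg _
    linarith

lemma powk_sum (r k : ℕ) (hk : 1 ≤ k) (g : ℕ → ℝ) (hg : ∀ j, 0 ≤ g j) :
    (∑ j ∈ Finset.range r, g j) ^ k ≤ (r : ℝ) ^ (k - 1) * ∑ j ∈ Finset.range r, g j ^ k := by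
  rcases Nat.eq_zero_or_pos r with h | h
  · subst h
    simp [zero_pow (by omega : k ≠ 0)]
  have hr : (0 : ℝ) < r := by exact_mod_cast h
  have h2 := pow_sum_div_card_le_sum_pow (s := Finset.range r) (f := g) (fun j _ => hg j) (k - 1)
  rw [Finset.card_range, div_le_iff₀ (by positivity), Nat.sub_add_cancel hk] at h2
  rw [mul_comm]
  exact h2

/-- moments of the deviation of the sums -/
lemma SS_mom (hRH : RHs) (k : ℕ) (hk : 1 ≤ k) : ∃ C : ℝ, 0 < C ∧ ∀ N r : ℕ, r ≤ N →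
    ∑ n ∈ Finset.Icc 1 N, |SS r n - r| ^ k ≤ C * (r : ℝ) ^ k * N := by
  obtain ⟨C1, hC1, h1⟩ := gap_mom hRH k
  obtain ⟨C0, hC0, h0⟩ := dl_abs
  refine ⟨2 * (2 ^ k * (C1 + (C0 + 1) ^ k)), by positivity, fun N r hrN => ?_⟩
  have hNr : (0 : ℝ) ≤ N := Nat.cast_nonneg _
  have hr0 : (0 : ℝ) ≤ r := Nat.cast_nonneg _
  have hd : ∀ n, 1 ≤ n → (|dl n| + 1) ^ k ≤ 2 ^ k * ((max (dlt n) 0) ^ k + (C0 + 1) ^ k) := by
    intro n hn
    have a1 := h0 n hn
    have a2 : 0 ≤ max (dlt n) 0 := le_max_right _ _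
    have a3 : (|dl n| + 1) ^ k ≤ (max (dlt n) 0 + (C0 + 1)) ^ k :=
      pow_le_pow_left₀ (by positivity) (by linarith) k
    have a4 := add_pow_le a2 (by positivity : (0 : ℝ) ≤ C0 + 1) k
    refine a3.trans (a4.trans ?_)
    apply mul_le_mul_of_nonneg_right _ (by positivity)
    exact pow_le_pow_right₀ (by norm_num) (by omega)
  have hsum : ∀ j, j < r → ∑ n ∈ Finset.Icc 1 N, (|dl (n + j)| + 1) ^ k ≤
      2 * (2 ^ k * (C1 + (C0 + 1) ^ k)) * N := by
    intro j hj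
    have b1 : ∑ n ∈ Finset.Icc 1 N, (|dl (n + j)| + 1) ^ k ≤
        ∑ n ∈ Finset.Icc 1 (2 * N), (|dl n| + 1) ^ k := by
      have e : ∑ n ∈ Finset.Icc 1 N, (|dl (n + j)| + 1) ^ k =
          ∑ n ∈ (Finset.Icc 1 N).image (· + j), (|dl n| + 1) ^ k := by
        rw [Finset.sum_image]
        intro a _ b _ h
        exact Nat.add_right_cancel h
      rw [e]
      refine Finset.sum_le_sum_of_subset_of_nonneg ?_ fun _ _ _ => by positivity
      intro n hn
      rw [Finset.mem_image] at hn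
      obtain ⟨a, ha, rfl⟩ := hn
      rw [Finset.mem_Icc] at ha ⊢
      omega
    refine b1.trans ?_
    have b2 : ∑ n ∈ Finset.Icc 1 (2 * N), (|dl n| + 1) ^ k ≤
        ∑ n ∈ Finset.Icc 1 (2 * N), 2 ^ k * ((max (dlt n) 0) ^ k + (C0 + 1) ^ k) :=
      Finset.sum_le_sum fun n hn => hd n (Finset.mem_Icc.1 hn).1
    refine b2.trans ?_
    rw [← Finset.mul_sum, Finset.sum_add_distrib, Finset.sum_const, Nat.card_Icc, Nat.add_sub_cancel,
      nsmul_eq_mul]
    have b3 := h1 (2 * N)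
    push_cast at b3 ⊢
    have b4 : ∑ n ∈ Finset.Icc 1 (2 * N), (max (dlt n) 0) ^ k + 2 * N * (C0 + 1) ^ k ≤
        2 * (C1 + (C0 + 1) ^ k) * N := by linarith
    calc _ ≤ 2 ^ k * (2 * (C1 + (C0 + 1) ^ k) * N) := mul_le_mul_of_nonneg_left b4 (by positivity)
      _ = _ := by ring
  have hpt : ∀ n ∈ Finset.Icc 1 N, |SS r n - r| ^ k ≤
      (r : ℝ) ^ (k - 1) * ∑ j ∈ Finset.range r, (|dl (n + j)| + 1) ^ k := by
    intro n _
    have a1 : |SS r n - r| ≤ ∑ j ∈ Finset.range r, (|dl (n + j)| + 1) := by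
      have e : SS r n - r = ∑ j ∈ Finset.range r, (dl (n + j) - 1) := by
        unfold Pool.Agent.R320.CL.SS
        rw [Finset.sum_sub_distrib, Finset.sum_const, Finset.card_range, nsmul_eq_mul, mul_one]
      rw [e]
      refine (Finset.abs_sum_le_sum_abs _ _).trans (Finset.sum_le_sum fun j _ => ?_)
      refine (abs_sub _ _).trans ?_
      rw [abs_one]
    exact (pow_le_pow_left₀ (abs_nonneg _) a1 k).trans
      (powk_sum r k hk _ fun j => by positivity)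
  refine (Finset.sum_le_sum hpt).trans ?_
  rw [← Finset.mul_sum, Finset.sum_comm]
  have h2 : ∑ j ∈ Finset.range r, ∑ n ∈ Finset.Icc 1 N, (|dl (n + j)| + 1) ^ k ≤
      ∑ _j ∈ Finset.range r, 2 * (2 ^ k * (C1 + (C0 + 1) ^ k)) * N :=
    Finset.sum_le_sum fun j hj => hsum j (Finset.mem_range.1 hj)
  rw [Finset.sum_const, Finset.card_range, nsmul_eq_mul] at h2
  calc (r : ℝ) ^ (k - 1) * ∑ j ∈ Finset.range r, ∑ n ∈ Finset.Icc 1 N, (|dl (n + j)| + 1) ^ k ≤
      (r : ℝ) ^ (k - 1) * (r * (2 * (2 ^ k * (C1 + (C0 + 1) ^ k)) * N)) :=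
        mul_le_mul_of_nonneg_left h2 (by positivity)
    _ = 2 * (2 ^ k * (C1 + (C0 + 1) ^ k)) * ((r : ℝ) ^ (k - 1) * r) * N := by ring
    _ = _ := by
        rw [← pow_succ, Nat.sub_add_cancel hk]

end Pool.Agent.R320.VQ
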