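import Pool.Agent.R320.VQ.Gm

/-! # Uniform integrability of the powers of sums of unfolded gaps, on RH -/

set_option autoImplicit false

open Filter Topology MeasureTheory Set

namespace Pool.Agent.R320.VQ

open SG (ord NZ)
open SP (RHs)
open Pool.Agent.R320.CL (SS dl)

/-- dyadic decomposition of a truncated power -/
lemma dyad {H D : ℝ} (hH : 0 < H) (hD : 0 ≤ D) (p K : ℕ) :
    (if H < D then D ^ p else 0) ≤
      ∑ k ∈ Finset.range K, (2 ^ (k + 1) * H) ^ p * (if 2 ^ k * H < D then (1 : ℝ) else 0) +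
      (if 2 ^ K * H < D then D ^ p else 0) := by
  induction K with
  | zero => simp
  | succ K ih =>
    rw [Finset.sum_range_succ]
    refine ih.trans ?_
    have hDp : 0 ≤ D ^ p := by positivity
    have h2 : (2 : ℝ) ^ (K + 1) * H = 2 * (2 ^ K * H) := by rw [pow_succ]; ring
    have h3 : 0 < (2 : ℝ) ^ K * H := by positivity
    by_cases h : 2 ^ K * H < D
    · rw [if_pos h, if_pos h, mul_one]
      by_cases h' : 2 ^ (K + 1) * H < D
      · rw [if_pos h']
        have : 0 ≤ ((2 : ℝ) ^ (K + 1) * H) ^ p := by positivity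
        linarith
      · rw [if_neg h']
        push Not at h'
        have := pow_le_pow_left₀ hD h' p
        linarith
    · rw [if_neg h, if_neg h, if_neg (by rw [h2]; intro h4; apply h; linarith)]
      simp

lemma r_le {N r : ℕ} (hN : 3 ≤ Real.log N) (hrN : (r : ℝ) * Real.log r ≤ Real.log N) :
    (r : ℝ) ≤ Real.log N := by
  rcases le_or_gt (r : ℝ) 3 with h | h
  · linarith
  · have h1 : 1 ≤ Real.log r := by
      rw [Real.le_log_iff_exp_le (by linarith)]
      linarith [Real.exp_one_lt_d9]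
    nlinarith

/-- **uniform integrability** -/
theorem ui (hRH : RHs) (p : ℕ) (hp : 1 ≤ p) : ∃ C : ℝ, 1 ≤ C ∧ ∃ N₀ : ℕ, 1 ≤ N₀ ∧ ∃ m : ℕ, 2 * p < m ∧
    ∀ N : ℕ, N₀ ≤ N → ∀ (r : ℕ) (H : ℝ), 1 ≤ r → (r : ℝ) * Real.log r ≤ Real.log N →
    1 ≤ H → H ≤ 1 + Real.log r →
    ∑ n ∈ (Finset.Icc 1 N).filter (fun n => H < |SS r n - r|), |SS r n - r| ^ p ≤
      C * ((1 + Real.log r) ^ m * H ^ p / H ^ (2 * m)) * N := by
  classical
  obtain ⟨C1, hC1, N1, hN1, htail⟩ := tailN hRH (2 * p) 5 (by norm_num)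
  obtain ⟨C2, hC2, hmom⟩ := SS_mom hRH (2 * p) (by omega)
  obtain ⟨m, hm⟩ : ∃ m : ℕ, m = 2 ^ (2 * p) := ⟨_, rfl⟩
  have hmp : 2 * p < m := by rw [hm]; exact Nat.lt_two_pow_self
  rw [← hm] at htail
  -- the series
  have hsum : Summable fun k : ℕ => ((k : ℝ) + 2) ^ m * (1 / 2) ^ k := by
    have h0 : Summable fun k : ℕ => (k : ℝ) ^ m * (1 / 2 : ℝ) ^ k :=
      summable_pow_mul_geometric_of_norm_lt_one (R := ℝ) m (by norm_num)
    have h1 := ((summable_nat_add_iff 2).2 h0).mul_left 4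
    refine h1.congr fun k => ?_
    push_cast
    rw [pow_add]
    ring
  obtain ⟨S, hS⟩ : ∃ S : ℝ, S = ∑' k : ℕ, ((k : ℝ) + 2) ^ m * (1 / 2) ^ k := ⟨_, rfl⟩
  have hS0 : 0 ≤ S := by rw [hS]; exact tsum_nonneg fun k => by positivity
  -- large `N`
  have hlog := Real.tendsto_log_atTop
  have ev1 : ∀ᶠ L : ℝ in atTop, (C1 * C2) * 4 ^ p * (1 + Real.log (3 * L)) ^ (3 * m) ≤ L := by
    have h1 : (fun y : ℝ => y ^ (3 * m)) =o[atTop] Real.exp := Real.isLittleO_pow_exp_atTop
    have h2 : Tendsto (fun L : ℝ => 1 + Real.log (3 * L)) atTop atTop :=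
      tendsto_atTop_add_const_left _ _ (hlog.comp (tendsto_id.const_mul_atTop (by norm_num)))
    have h3 := (h1.comp_tendsto h2).bound (c := 1 / (9 * (C1 * C2 * 4 ^ p))) (by positivity)
    filter_upwards [h3, eventually_ge_atTop 1] with L hL hL1
    have hl : 0 ≤ Real.log (3 * L) := Real.log_nonneg (by linarith)
    simp only [Function.comp_apply] at hL
    rw [Real.norm_of_nonneg (by positivity), Real.norm_of_nonneg (Real.exp_pos _).le, Real.exp_add,
      Real.exp_log (by linarith)] at hL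
    have h4 : (C1 * C2) * 4 ^ p * (1 + Real.log (3 * L)) ^ (3 * m) ≤
        (C1 * C2) * 4 ^ p * (1 / (9 * (C1 * C2 * 4 ^ p)) * (Real.exp 1 * (3 * L))) :=
      mul_le_mul_of_nonneg_left hL (by positivity)
    refine h4.trans ?_
    have h5 : (C1 * C2) * 4 ^ p * (1 / (9 * (C1 * C2 * 4 ^ p)) * (Real.exp 1 * (3 * L))) =
        Real.exp 1 * L / 3 := by
      field_simp
      ring
    rw [h5]
    have := Real.exp_one_lt_d9
    nlinarith
  have ev2 : ∀ᶠ N : ℕ in atTop, (C1 * C2) * 4 ^ p * (1 + Real.log (3 * Real.log N)) ^ (3 * m) ≤ Real.log N :=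
    (hlog.comp tendsto_natCast_atTop_atTop).eventually ev1
  have ev3 : ∀ᶠ N : ℕ in atTop, 6 ≤ Real.log N :=
    (hlog.comp tendsto_natCast_atTop_atTop).eventually_ge_atTop _
  obtain ⟨N2, hN2⟩ := (ev2.and ev3).exists_forall_of_atTop
  refine ⟨C1 * 2 ^ p * S + 1, by nlinarith [mul_nonneg (mul_nonneg (by linarith : (0:ℝ) ≤ C1)
    (by positivity : (0:ℝ) ≤ 2 ^ p)) hS0], max N1 N2, hN1.trans (le_max_left _ _), m, hmp,
    fun N hN r H hr hrN hH hHr => ?_⟩
  obtain ⟨g1, g2⟩ := hN2 N ((le_max_right _ _).trans hN)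
  have htN := htail N ((le_max_left _ _).trans hN)
  have hN0 : 1 ≤ N := (hN1.trans (le_max_left _ _)).trans hN
  have hNr : (0 : ℝ) < N := by exact_mod_cast hN0
  have hr1 : (1 : ℝ) ≤ r := by exact_mod_cast hr
  have hlr0 : 0 ≤ Real.log r := Real.log_nonneg hr1
  obtain ⟨L, hL⟩ : ∃ L : ℝ, L = Real.log N := ⟨_, rfl⟩
  have hrL : (r : ℝ) ≤ L := by rw [hL]; exact r_le (by linarith) hrN
  rw [← hL] at g1 g2 hrN
  have hLN : L ≤ N := by
    rw [hL]
    have := Real.log_le_sub_one_of_pos hNr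
    linarith
  have hrNn : r ≤ N := by
    have : (r : ℝ) ≤ N := hrL.trans hLN
    exact_mod_cast this
  have hHr' : H ≤ r := by
    have := Real.log_le_sub_one_of_pos (show (0 : ℝ) < r by linarith)
    linarith
  have hH0 : 0 < H := by linarith
  obtain ⟨Y, hY⟩ : ∃ Y : ℝ, Y = Real.sqrt L := ⟨_, rfl⟩
  have hYY : Y * Y = L := by rw [hY]; exact Real.mul_self_sqrt (by linarith)
  have hY2 : 2 ≤ Y := by
    rw [hY]
    apply Real.le_sqrt_of_sq_le
    linarith
  have hYL : Y ≤ L := by nlinarith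
  -- the condition
  have hcond : ∀ x : ℝ, 1 ≤ x → x ≤ Y → (r + x) * Real.log (r + x) ≤ 5 * L := by
    intro x hx1 hxY
    have hmono : (r + x) * Real.log (r + x) ≤ (r + Y) * Real.log (r + Y) := by
      apply mul_le_mul (by linarith) (Real.log_le_log (by linarith) (by linarith))
        (Real.log_nonneg (by linarith)) (by linarith)
    refine hmono.trans ?_
    rcases le_total Y r with h | h
    · have h1 : (r + Y) * Real.log (r + Y) ≤ (2 * r) * Real.log (2 * r) := by
        apply mul_le_mul (by linarith) (Real.log_le_log (by linarith) (by linarith))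
          (Real.log_nonneg (by linarith)) (by linarith)
      rw [Real.log_mul (by norm_num) (by linarith)] at h1
      have h2 : Real.log 2 ≤ 1 := by linarith [Real.log_two_lt_d9]
      nlinarith
    · have h1 : (r + Y) * Real.log (r + Y) ≤ (2 * Y) * Real.log (2 * Y) := by
        apply mul_le_mul (by linarith) (Real.log_le_log (by linarith) (by linarith))
          (Real.log_nonneg (by linarith)) (by linarith)
      rw [Real.log_mul (by norm_num) (by linarith)] at h1
      have h2 : Real.log 2 ≤ 1 := by linarith [Real.log_two_lt_d9]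
      have h3 := Real.log_le_sub_one_of_pos (show 0 < Y by linarith)
      nlinarith
  -- the number of levels
  have hex : ∃ K : ℕ, Y ≤ 2 ^ K * H := by
    obtain ⟨K, hK⟩ := pow_unbounded_of_one_lt Y (show (1 : ℝ) < 2 by norm_num)
    refine ⟨K, hK.le.trans ?_⟩
    have : (0 : ℝ) < 2 ^ K := by positivity
    nlinarith
  obtain ⟨K, hK1, hK2⟩ : ∃ K : ℕ, Y ≤ 2 ^ K * H ∧ ∀ k < K, 2 ^ k * H < Y := by
    refine ⟨Nat.find hex, Nat.find_spec hex, fun k hk => ?_⟩
    have := Nat.find_min hex hk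
    push Not at this
    exact this
  obtain ⟨G, hG⟩ : ∃ G : ℝ, G = (1 + Real.log r) ^ m * H ^ p / H ^ (2 * m) := ⟨_, rfl⟩
  have hG0 : 0 < G := by rw [hG]; positivity
  rw [← hG]
  -- the levels
  have hlev : ∀ k ∈ Finset.range K, (2 ^ (k + 1) * H) ^ p *
      (((Finset.Icc 1 N).filter (fun n => 2 ^ k * H < |SS r n - r|)).card : ℝ) ≤
      C1 * 2 ^ p * G * N * (((k : ℝ) + 2) ^ m * (1 / 2) ^ k) := by
    intro k hk
    have hkK := Finset.mem_range.1 hk
    have h2k : (1 : ℝ) ≤ 2 ^ k := one_le_pow₀ (by norm_num)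
    have hx1 : 1 ≤ 2 ^ k * H := by nlinarith
    have h1 := htN r (2 ^ k * H) hr hx1 (by rw [← hL]; exact hcond _ hx1 (hK2 k hkK).le)
    have h2 : 1 + Real.log (r + 2 ^ k * H) ≤ (1 + Real.log r) * ((k : ℝ) + 2) := by
      have a1 : (r : ℝ) + 2 ^ k * H ≤ 2 ^ (k + 1) * r := by
        rw [pow_succ]
        nlinarith
      have a2 := Real.log_le_log (by positivity) a1
      rw [Real.log_mul (by positivity) (by linarith), Real.log_pow] at a2
      have a3 : Real.log 2 ≤ 1 := by linarith [Real.log_two_lt_d9]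
      have a4 : (0 : ℝ) ≤ k := Nat.cast_nonneg _
      push_cast at a2
      have a5 : ((k : ℝ) + 1) * Real.log 2 ≤ (k + 1) * 1 :=
        mul_le_mul_of_nonneg_left a3 (by linarith)
      nlinarith
    have h0 : 0 ≤ 1 + Real.log (r + 2 ^ k * H) := by
      have : 0 ≤ Real.log (r + 2 ^ k * H) := Real.log_nonneg (by linarith)
      linarith
    have h3 : (1 + Real.log (r + 2 ^ k * H)) ^ m ≤ (1 + Real.log r) ^ m * ((k : ℝ) + 2) ^ m := by
      rw [← mul_pow]
      exact pow_le_pow_left₀ h0 h2 m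
    have h4 : (2 ^ (k + 1) * H) ^ p / (2 ^ k * H) ^ (2 * m) ≤ 2 ^ p * (1 / 2) ^ k * (H ^ p / H ^ (2 * m)) := by
      have e1 : (2 ^ (k + 1) * H) ^ p / (2 ^ k * H) ^ (2 * m) =
          ((2 ^ (k + 1)) ^ p / (2 ^ k) ^ (2 * m)) * (H ^ p / H ^ (2 * m)) := by
        rw [mul_pow, mul_pow]
        field_simp
      rw [e1]
      apply mul_le_mul_of_nonneg_right _ (by positivity)
      rw [div_le_iff₀ (by positivity)]
      have e2 : (2 : ℝ) ^ p * (1 / 2) ^ k * (2 ^ k) ^ (2 * m) = 2 ^ p * (2 ^ k) ^ (2 * m - 1) := by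
        have e3 : ((2 : ℝ) ^ k) ^ (2 * m) = (2 ^ k) ^ (2 * m - 1) * 2 ^ k := by
          rw [← pow_succ]
          congr 1
          omega
        rw [e3, one_div, inv_pow]
        field_simp
      rw [e2, pow_succ, mul_pow, mul_comm]
      apply mul_le_mul_of_nonneg_left _ (by positivity)
      exact pow_le_pow_right₀ h2k (by omega)
    calc (2 ^ (k + 1) * H) ^ p *
        (((Finset.Icc 1 N).filter (fun n => 2 ^ k * H < |SS r n - r|)).card : ℝ) ≤
        (2 ^ (k + 1) * H) ^ p *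
          (C1 * (1 + Real.log (r + 2 ^ k * H)) ^ m / (2 ^ k * H) ^ (2 * m) * N) :=
          mul_le_mul_of_nonneg_left h1 (by positivity)
      _ = C1 * (1 + Real.log (r + 2 ^ k * H)) ^ m *
          ((2 ^ (k + 1) * H) ^ p / (2 ^ k * H) ^ (2 * m)) * N := by ring
      _ ≤ C1 * ((1 + Real.log r) ^ m * ((k : ℝ) + 2) ^ m) *
          (2 ^ p * (1 / 2) ^ k * (H ^ p / H ^ (2 * m))) * N := by gcongr
      _ = _ := by rw [hG]; ring
  -- the top
  have htop : ∑ n ∈ (Finset.Icc 1 N).filter (fun n => 2 ^ K * H < |SS r n - r|), |SS r n - r| ^ p ≤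
      G * N := by
    obtain ⟨F, hF⟩ : ∃ F : Finset ℕ, F = (Finset.Icc 1 N).filter (fun n => Y < |SS r n - r|) := ⟨_, rfl⟩
    have h1 : ∑ n ∈ (Finset.Icc 1 N).filter (fun n => 2 ^ K * H < |SS r n - r|), |SS r n - r| ^ p ≤
        ∑ n ∈ F, |SS r n - r| ^ p := by
      refine Finset.sum_le_sum_of_subset_of_nonneg ?_ fun _ _ _ => by positivity
      intro n hn
      rw [Finset.mem_filter] at hn
      rw [hF, Finset.mem_filter]
      exact ⟨hn.1, lt_of_le_of_lt hK1 hn.2⟩
    refine h1.trans ?_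
    have h2 := htN r Y hr (by linarith) (by rw [← hL]; exact hcond Y (by linarith) le_rfl)
    rw [← hF] at h2
    have h3 : ∑ n ∈ F, |SS r n - r| ^ (2 * p) ≤ C2 * (r : ℝ) ^ (2 * p) * N := by
      refine le_trans ?_ (hmom N r hrNn)
      rw [hF]
      exact Finset.sum_le_sum_of_subset_of_nonneg (Finset.filter_subset _ _)
        fun _ _ _ => by positivity
    have h4 : (∑ n ∈ F, |SS r n - r| ^ p) ^ 2 ≤ F.card * ∑ n ∈ F, |SS r n - r| ^ (2 * p) := by
      have := sq_sum_le_card_mul_sum_sq (s := F) (f := fun n => |SS r n - r| ^ p)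
      refine this.trans (le_of_eq ?_)
      congr 1
      refine Finset.sum_congr rfl fun n _ => ?_
      rw [← pow_mul, mul_comm p 2]
    have hL1 : 1 ≤ L := by linarith
    have hY2m : Y ^ (2 * m) = L ^ m := by rw [pow_mul, sq, hYY]
    have hlog3 : 1 + Real.log (r + Y) ≤ 1 + Real.log (3 * L) := by
      have := Real.log_le_log (show 0 < (r : ℝ) + Y by linarith) (show (r : ℝ) + Y ≤ 3 * L by linarith)
      linarith
    obtain ⟨Z, hZ⟩ : ∃ Z : ℝ, Z = 1 + Real.log (3 * L) := ⟨_, rfl⟩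
    rw [← hZ] at hlog3 g1
    have hZ1 : 1 ≤ Z := by
      rw [hZ]
      have : 0 ≤ Real.log (3 * L) := Real.log_nonneg (by linarith)
      linarith
    have hrZ : 1 + Real.log r ≤ Z := by
      rw [hZ]
      have := Real.log_le_log (show 0 < (r : ℝ) by linarith) (show (r : ℝ) ≤ 3 * L by linarith)
      linarith
    have hlrY : 0 ≤ 1 + Real.log (r + Y) := by
      have : 0 ≤ Real.log (r + Y) := Real.log_nonneg (by linarith)
      linarith
    have h5 : (∑ n ∈ F, |SS r n - r| ^ p) ^ 2 ≤ (1 / Z ^ m * N) ^ 2 := by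
      have a1 : (F.card : ℝ) * ∑ n ∈ F, |SS r n - r| ^ (2 * p) ≤
          (C1 * Z ^ m / L ^ m * N) * (C2 * L ^ (2 * p) * N) := by
        apply mul_le_mul _ _ (Finset.sum_nonneg fun _ _ => by positivity) (by positivity)
        · refine h2.trans ?_
          rw [hY2m]
          gcongr
        · refine h3.trans ?_
          gcongr
      refine (h4.trans a1).trans ?_
      have a2 : (C1 * C2) * Z ^ (3 * m) ≤ L := by
        have b1 : (1 : ℝ) ≤ 4 ^ p := one_le_pow₀ (by norm_num)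
        have b2 : 0 ≤ C1 * C2 * Z ^ (3 * m) := by positivity
        nlinarith
      have a3 : L ^ (2 * p) * L ≤ L ^ m := by
        rw [← pow_succ]
        exact pow_le_pow_right₀ hL1 (by omega)
      have a4 : C1 * Z ^ m / L ^ m * (C2 * L ^ (2 * p)) ≤ 1 / (Z ^ m) ^ 2 := by
        rw [div_mul_eq_mul_div, div_le_div_iff₀ (by positivity) (by positivity), one_mul]
        calc C1 * Z ^ m * (C2 * L ^ (2 * p)) * (Z ^ m) ^ 2 = ((C1 * C2) * Z ^ (3 * m)) * L ^ (2 * p) := by
              ring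
          _ ≤ L * L ^ (2 * p) := mul_le_mul_of_nonneg_right a2 (by positivity)
          _ ≤ L ^ m := by linarith
      calc (C1 * Z ^ m / L ^ m * N) * (C2 * L ^ (2 * p) * N) =
          (C1 * Z ^ m / L ^ m * (C2 * L ^ (2 * p))) * (N * N : ℝ) := by ring
        _ ≤ (1 / (Z ^ m) ^ 2) * (N * N : ℝ) := mul_le_mul_of_nonneg_right a4 (by positivity)
        _ = _ := by ring
    have h6 : ∑ n ∈ F, |SS r n - r| ^ p ≤ 1 / Z ^ m * N :=
      (pow_le_pow_iff_left₀ (Finset.sum_nonneg fun _ _ => by positivity) (by positivity)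
        (by norm_num)).1 h5
    refine h6.trans ?_
    apply mul_le_mul_of_nonneg_right _ hNr.le
    -- `1 / Z ^ m ≤ G`
    rw [hG, div_le_div_iff₀ (by positivity) (by positivity), one_mul]
    have b1 : H ^ (2 * m) = H ^ m * H ^ m := by rw [two_mul, pow_add]
    have b2 : H ^ m ≤ (1 + Real.log r) ^ m := pow_le_pow_left₀ hH0.le hHr m
    have b3 : H ^ m ≤ Z ^ m := pow_le_pow_left₀ hH0.le (hHr.trans hrZ) m
    have b4 : (1 : ℝ) ≤ H ^ p := one_le_pow₀ hH
    rw [b1]
    calc H ^ m * H ^ m ≤ (1 + Real.log r) ^ m * Z ^ m :=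
          mul_le_mul b2 b3 (by positivity) (by positivity)
      _ = (1 + Real.log r) ^ m * 1 * Z ^ m := by ring
      _ ≤ (1 + Real.log r) ^ m * H ^ p * Z ^ m := by gcongr
  -- assembly
  rw [Finset.sum_filter]
  have h1 : ∑ n ∈ Finset.Icc 1 N, (if H < |SS r n - r| then |SS r n - r| ^ p else 0) ≤
      ∑ n ∈ Finset.Icc 1 N, (∑ k ∈ Finset.range K, (2 ^ (k + 1) * H) ^ p *
        (if 2 ^ k * H < |SS r n - r| then (1 : ℝ) else 0) +
      (if 2 ^ K * H < |SS r n - r| then |SS r n - r| ^ p else 0)) :=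
    Finset.sum_le_sum fun n _ => dyad hH0 (abs_nonneg _) p K
  refine h1.trans ?_
  rw [Finset.sum_add_distrib, Finset.sum_comm, ← Finset.sum_filter]
  have h2 : ∑ k ∈ Finset.range K, ∑ n ∈ Finset.Icc 1 N, (2 ^ (k + 1) * H) ^ p *
        (if 2 ^ k * H < |SS r n - r| then (1 : ℝ) else 0) ≤
      ∑ k ∈ Finset.range K, C1 * 2 ^ p * G * N * (((k : ℝ) + 2) ^ m * (1 / 2) ^ k) := by
    refine Finset.sum_le_sum fun k hk => ?_
    rw [← Finset.mul_sum, Finset.sum_boole]
    exact hlev k hk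
  have h3 : ∑ k ∈ Finset.range K, C1 * 2 ^ p * G * N * (((k : ℝ) + 2) ^ m * (1 / 2) ^ k) ≤
      C1 * 2 ^ p * G * N * S := by
    rw [← Finset.mul_sum]
    apply mul_le_mul_of_nonneg_left _ (by positivity)
    rw [hS]
    exact hsum.sum_le_tsum _ fun k _ => by positivity
  calc _ ≤ C1 * 2 ^ p * G * N * S + G * N := add_le_add (h2.trans h3) htop
    _ = _ := by ring

end Pool.Agent.R320.VQ
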