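import Pool.Agent.R320.VQ.Var

/-! # Tails of the spacings of the `r`-th neighbours from high moments, on RH -/

set_option autoImplicit false

open Filter Topology MeasureTheory Set

namespace Pool.Agent.R320.VQ

open SG (ord NZ)
open LG (dlt)
open SP (RHs)
open Pool.Agent.Y743.LR
open Pool.Agent.Y743.NC (count_le ff)

lemma ptq {m : ℕ} (hm : 1 ≤ m) {H w D : ℝ} (hH : 0 < H) (hD : (H / 2) ^ (2 * m) ≤ D) :
    w ≤ 4 ^ m / H ^ (2 * m - 1) * (D + (w - H / 2) ^ (2 * m)) := by
  have hqe : Even (2 * m) := even_two_mul m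
  obtain ⟨k, hk⟩ : ∃ k : ℕ, k = 2 * m - 1 := ⟨_, rfl⟩
  have hk1 : 2 * m = k + 1 := by omega
  have e4 : (4 : ℝ) ^ m = 2 ^ (2 * m) := by rw [pow_mul]; norm_num
  rw [div_mul_eq_mul_div, le_div_iff₀ (by positivity), ← hk, e4]
  rw [hk1] at hD ⊢
  have h3 : 0 < H ^ k := by positivity
  have e5 : (2 : ℝ) ^ (k + 1) * (H / 2) ^ (k + 1) = H * H ^ k := by
    rw [← mul_pow, mul_div_cancel₀ _ (by norm_num : (2 : ℝ) ≠ 0), pow_succ]
    ring
  have h5 : H * H ^ k ≤ 2 ^ (k + 1) * D := by
    rw [← e5]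
    exact mul_le_mul_of_nonneg_left hD (by positivity)
  rcases le_total w H with h | h
  · have h6 : 0 ≤ (w - H / 2) ^ (k + 1) := by rw [← hk1]; exact hqe.pow_nonneg _
    have h7 : w * H ^ k ≤ H * H ^ k := mul_le_mul_of_nonneg_right h h3.le
    have h8 : 0 ≤ (2 : ℝ) ^ (k + 1) * (w - H / 2) ^ (k + 1) := by positivity
    rw [mul_add]
    linarith
  · have hu : H / 2 ≤ w - H / 2 := by linarith
    have h1 : (H / 2) ^ k ≤ (w - H / 2) ^ k := pow_le_pow_left₀ (by positivity) hu k
    have h2 : (H / 2) ^ k * (w - H / 2) ≤ (w - H / 2) ^ (k + 1) := by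
      rw [pow_succ]
      exact mul_le_mul_of_nonneg_right h1 (by linarith)
    have e6 : (2 : ℝ) ^ (k + 1) * ((H / 2) ^ k * (w - H / 2)) = 2 * (w - H / 2) * H ^ k := by
      rw [div_pow]
      field_simp
      ring
    have h6 : 2 * (w - H / 2) * H ^ k ≤ 2 ^ (k + 1) * (w - H / 2) ^ (k + 1) := by
      rw [← e6]
      exact mul_le_mul_of_nonneg_left h2 (by positivity)
    rw [mul_add]
    nlinarith

lemma powq_neg {m : ℕ} {x H : ℝ} (hH : 0 < H) (h : x < -(H / 2)) : (H / 2) ^ (2 * m) ≤ x ^ (2 * m) := by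
  rw [abs_pow_q (even_two_mul m) x]
  apply pow_le_pow_left₀ (by positivity)
  rw [abs_of_neg (by linarith)]
  linarith

lemma powq_pos {m : ℕ} {x H : ℝ} (hH : 0 < H) (h : H / 2 < x) : (H / 2) ^ (2 * m) ≤ x ^ (2 * m) :=
  pow_le_pow_left₀ (by positivity) h.le _

/-- upper deviations -/
lemma upq {m : ℕ} (hm : 1 ≤ m) {T H : ℝ} (hT : 1 < T) (hH : 0 < H) (r : ℕ) (S : Finset ℕ)
    (h1 : ∀ n ∈ S, 1 ≤ n) (h2 : ∀ n ∈ S, T + H / 2 * (2 * Real.pi / Real.log T) ≤ ord n)
    (h3 : ∀ n ∈ S, ord n + H / 2 * (2 * Real.pi / Real.log T) ≤ 2 * T)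
    (h4 : ∀ n ∈ S, ord n + (r + H) * (2 * Real.pi / Real.log T) < ord (n + r)) :
    H / 2 * (2 * Real.pi / Real.log T) * S.card ≤
      4 ^ m / H ^ (2 * m - 1) * ((∫ t in Icc T (2 * T), dv m T (r + H / 2) t) + ∫ t in Icc T (2 * T), dv m T (H / 2) t) := by
  have hpi := Real.pi_pos
  have hL : 0 < Real.log T := Real.log_pos hT
  set h : ℝ := 2 * Real.pi / Real.log T with hh
  have hh0 : 0 < h := by positivity
  set ℓ : ℝ := H / 2 * h with hℓ
  have hℓ0 : 0 < ℓ := by positivity
  have eH : ∀ a : ℝ, 2 * Real.pi * a / Real.log T = a * h := fun a => by rw [hh]; ring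
  have i1 : IntegrableOn (dv m T (r + H / 2)) (Icc (T + ℓ) (2 * T)) := dv_int _ _ _ _ _
  have i2 : IntegrableOn (fun t => dv m T (H / 2) (t - ℓ)) (Icc (T + ℓ) (2 * T)) := by
    have : IntegrableOn (fun t => (fun n n' : ℕ => ((n : ℝ) - n' - H / 2) ^ (2 * m)) (NZ t)
        (NZ (t + (-ℓ)))) (Icc (T + ℓ) (2 * T)) :=
      step_int SG.NZ_mono (fun n n' => ((n : ℝ) - n' - H / 2) ^ (2 * m)) (-ℓ) _ _
    refine this.congr_fun (fun t _ => ?_) measurableSet_Icc
    unfold dv
    rw [eH]
    have e1 : t - ℓ + H / 2 * h = t := by rw [hℓ]; ring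
    rw [e1, sub_eq_add_neg t ℓ]
  have hmain := count_le (A := T + ℓ) (B := 2 * T) hℓ0.le S ord
    (g := fun t => 4 ^ m / H ^ (2 * m - 1) * (dv m T (r + H / 2) t + dv m T (H / 2) (t - ℓ)))
    ((i1.add i2).const_mul _) (fun n hn => ⟨h2 n hn, h3 n hn⟩) (by
      intro t ht
      rcases (S.filter fun n => ord n ≤ t ∧ t < ord n + ℓ).eq_empty_or_nonempty with he | he
      · rw [he, Finset.card_empty, Nat.cast_zero]
        have := dv_nonneg m T (r + H / 2) t
        have := dv_nonneg m T (H / 2) (t - ℓ)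
        positivity
      obtain ⟨n0, hn0⟩ := he
      rw [Finset.mem_filter] at hn0
      obtain ⟨hn0S, b1, b2⟩ := hn0
      -- the count
      have hsub : (S.filter fun n => ord n ≤ t ∧ t < ord n + ℓ) ⊆
          Finset.Ioc (NZ (t - ℓ)) (NZ t) := by
        intro n hn
        rw [Finset.mem_filter] at hn
        obtain ⟨c1, c2, c3⟩ := hn
        rw [Finset.mem_Ioc]
        refine ⟨?_, (SG.ord_le_iff (h1 n c1) _).mp c2⟩
        by_contra hcon
        push Not at hcon
        have := (SG.ord_le_iff (h1 n c1) _).mpr hcon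
        linarith
      have hcard := Finset.card_le_card hsub
      rw [Nat.card_Ioc] at hcard
      have hmono : NZ (t - ℓ) ≤ NZ t := SG.NZ_mono (by linarith)
      have hcard' : ((S.filter fun n => ord n ≤ t ∧ t < ord n + ℓ).card : ℝ) ≤
          (NZ t : ℝ) - NZ (t - ℓ) := by
        have : ((S.filter fun n => ord n ≤ t ∧ t < ord n + ℓ).card : ℝ) ≤
          ((NZ t - NZ (t - ℓ) : ℕ) : ℝ) := by exact_mod_cast hcard
        rwa [Nat.cast_sub hmono] at this
      refine hcard'.trans ?_
      have e1 : dv m T (H / 2) (t - ℓ) = ((NZ t : ℝ) - NZ (t - ℓ) - H / 2) ^ (2 * m) := by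
        unfold dv
        rw [eH]
        have e1 : t - ℓ + H / 2 * h = t := by rw [hℓ]; ring
        rw [e1]
      show _ ≤ 4 ^ m / H ^ (2 * m - 1) * (dv m T (r + H / 2) t + dv m T (H / 2) (t - ℓ))
      rw [e1]
      apply ptq hm hH
      unfold dv
      rw [eH]
      -- few zeros in the long window
      have d1 : NZ (t + (r + H / 2) * h) < n0 + r := by
        by_contra hcon
        push Not at hcon
        have h5 := (SG.ord_le_iff (by have := h1 n0 hn0S; omega) _).mpr hcon
        have h6 := h4 n0 hn0S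
        have h7 : t + (r + H / 2) * h < ord n0 + (r + H) * h := by
          have : (r + H / 2) * h + ℓ = (r + H) * h := by rw [hℓ]; ring
          linarith
        linarith
      have d2 : n0 ≤ NZ t := (SG.ord_le_iff (h1 n0 hn0S) _).mp b1
      have d3 : (NZ (t + (r + H / 2) * h) : ℝ) < n0 + r := by exact_mod_cast d1
      have d4 : (n0 : ℝ) ≤ NZ t := by exact_mod_cast d2
      have d5 : (NZ (t + (r + H / 2) * h) : ℝ) - NZ t - (r + H / 2) < -(H / 2) := by linarith
      exact powq_neg hH d5)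
  refine hmain.trans ?_
  rw [integral_const_mul, integral_add i1 i2]
  apply mul_le_mul_of_nonneg_left _ (by positivity)
  apply add_le_add
  · refine setIntegral_mono_set (dv_int _ _ _ _ _)
      (Filter.Eventually.of_forall fun t => dv_nonneg _ _ _ _) ?_
    exact (Icc_subset_Icc_left (by linarith)).eventuallyLE
  · have h5 := shift_int (fun t => dv m T (H / 2) t) (T + ℓ) (2 * T) (-ℓ)
    have h6 : ∫ t in Icc (T + ℓ) (2 * T), dv m T (H / 2) (t - ℓ) =
        ∫ t in Icc T (2 * T - ℓ), dv m T (H / 2) t := by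
      have e1 : ∀ t, t - ℓ = t + -ℓ := fun t => sub_eq_add_neg t ℓ
      simp_rw [e1]
      rw [h5]
      congr 2
      ring_nf
    rw [h6]
    refine setIntegral_mono_set (dv_int _ _ _ _ _)
      (Filter.Eventually.of_forall fun t => dv_nonneg _ _ _ _) ?_
    exact (Icc_subset_Icc_right (by linarith)).eventuallyLE

/-- lower deviations -/
lemma downq {m : ℕ} (hm : 1 ≤ m) {T H : ℝ} (hT : 1 < T) (hH : 0 < H) (r : ℕ) (S : Finset ℕ)
    (h1 : ∀ n ∈ S, 1 ≤ n) (h2 : ∀ n ∈ S, T + H / 2 * (2 * Real.pi / Real.log T) ≤ ord n)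
    (h3 : ∀ n ∈ S, ord n ≤ 2 * T)
    (h4 : ∀ n ∈ S, ord (n + r) < ord n + (r - H) * (2 * Real.pi / Real.log T)) :
    H / 2 * (2 * Real.pi / Real.log T) * S.card ≤
      4 ^ m / H ^ (2 * m - 1) * ((∫ t in Icc T (2 * T), dv m T (r - H / 2) t) + ∫ t in Icc T (2 * T), dv m T (H / 2) t) := by
  have hpi := Real.pi_pos
  have hL : 0 < Real.log T := Real.log_pos hT
  set h : ℝ := 2 * Real.pi / Real.log T with hh
  have hh0 : 0 < h := by positivity
  set ℓ : ℝ := H / 2 * h with hℓ
  have hℓ0 : 0 < ℓ := by positivity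
  have eH : ∀ a : ℝ, 2 * Real.pi * a / Real.log T = a * h := fun a => by rw [hh]; ring
  have i1 : IntegrableOn (dv m T (r - H / 2)) (Icc T (2 * T)) := dv_int _ _ _ _ _
  have i2 : IntegrableOn (dv m T (H / 2)) (Icc T (2 * T)) := dv_int _ _ _ _ _
  have hmain := count_le (A := T) (B := 2 * T) hℓ0.le S (fun n => ord n - ℓ)
    (g := fun t => 4 ^ m / H ^ (2 * m - 1) * (dv m T (r - H / 2) t + dv m T (H / 2) t))
    ((i1.add i2).const_mul _) (fun n hn => ⟨by linarith [h2 n hn], by linarith [h3 n hn]⟩) (by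
      intro t ht
      rcases (S.filter fun n => ord n - ℓ ≤ t ∧ t < ord n - ℓ + ℓ).eq_empty_or_nonempty
        with he | he
      · rw [he, Finset.card_empty, Nat.cast_zero]
        have := dv_nonneg m T (r - H / 2) t
        have := dv_nonneg m T (H / 2) t
        positivity
      obtain ⟨n0, hn0⟩ := he
      rw [Finset.mem_filter] at hn0
      obtain ⟨hn0S, b1, b2⟩ := hn0
      have hsub : (S.filter fun n => ord n - ℓ ≤ t ∧ t < ord n - ℓ + ℓ) ⊆
          Finset.Ioc (NZ t) (NZ (t + ℓ)) := by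
        intro n hn
        rw [Finset.mem_filter] at hn
        obtain ⟨c1, c2, c3⟩ := hn
        rw [Finset.mem_Ioc]
        refine ⟨?_, (SG.ord_le_iff (h1 n c1) _).mp (by linarith)⟩
        by_contra hcon
        push Not at hcon
        have := (SG.ord_le_iff (h1 n c1) _).mpr hcon
        linarith
      have hcard := Finset.card_le_card hsub
      rw [Nat.card_Ioc] at hcard
      have hmono : NZ t ≤ NZ (t + ℓ) := SG.NZ_mono (by linarith)
      have hcard' : ((S.filter fun n => ord n - ℓ ≤ t ∧ t < ord n - ℓ + ℓ).card : ℝ) ≤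
          (NZ (t + ℓ) : ℝ) - NZ t := by
        have : ((S.filter fun n => ord n - ℓ ≤ t ∧ t < ord n - ℓ + ℓ).card : ℝ) ≤
          ((NZ (t + ℓ) - NZ t : ℕ) : ℝ) := by exact_mod_cast hcard
        rwa [Nat.cast_sub hmono] at this
      refine hcard'.trans ?_
      have e1 : dv m T (H / 2) t = ((NZ (t + ℓ) : ℝ) - NZ t - H / 2) ^ (2 * m) := by
        unfold dv
        rw [eH]
      show _ ≤ 4 ^ m / H ^ (2 * m - 1) * (dv m T (r - H / 2) t + dv m T (H / 2) t)
      rw [e1]
      apply ptq hm hH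
      unfold dv
      rw [eH]
      -- many zeros in the short window
      have d1 : n0 + r ≤ NZ (t + (r - H / 2) * h) := by
        rw [← SG.ord_le_iff (by have := h1 n0 hn0S; omega)]
        have h6 := h4 n0 hn0S
        have h7 : ord n0 + (r - H) * h ≤ t + (r - H / 2) * h := by
          have : (r - H / 2) * h = (r - H) * h + ℓ := by rw [hℓ]; ring
          linarith
        linarith
      have d2 : NZ t < n0 := by
        by_contra hcon
        push Not at hcon
        have := (SG.ord_le_iff (h1 n0 hn0S) _).mpr hcon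
        linarith
      have d3 : (n0 : ℝ) + r ≤ NZ (t + (r - H / 2) * h) := by exact_mod_cast d1
      have d4 : (NZ t : ℝ) < n0 := by exact_mod_cast d2
      have d5 : H / 2 < (NZ (t + (r - H / 2) * h) : ℝ) - NZ t - (r - H / 2) := by linarith
      exact powq_pos hH d5)
  refine hmain.trans ?_
  rw [integral_const_mul, integral_add i1 i2]

/-- **tail of the spacings of the `r`-th neighbours** -/
theorem tailq (hRH : RHs) (j : ℕ) (B : ℝ) (hB : 1 ≤ B) : ∃ C1 T0 : ℝ, 1 ≤ C1 ∧ 10 ≤ T0 ∧ ∀ T : ℝ, T0 ≤ T →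
    ∀ (r : ℕ) (H : ℝ), 1 ≤ r → 1 ≤ H → (r + H) * Real.log (r + H) ≤ B * Real.log T → ∀ S : Finset ℕ,
      (∀ n ∈ S, 1 ≤ n ∧ T + H / 2 * (2 * Real.pi / Real.log T) ≤ ord n ∧
        ord n + H / 2 * (2 * Real.pi / Real.log T) ≤ 2 * T ∧ H < |ff T r n|) →
      (S.card : ℝ) ≤ C1 * (1 + Real.log (r + H)) ^ (2 ^ j) / H ^ (2 * 2 ^ j) * (T * Real.log T) := by
  obtain ⟨C, T1, hC, hT1, hv⟩ := varq hRH j B hB
  obtain ⟨m, hm⟩ : ∃ m : ℕ, m = 2 ^ j := ⟨_, rfl⟩
  have hm1 : 1 ≤ m := by rw [hm]; exact two_pow_pos' _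
  rw [← hm] at hv ⊢
  have hpi := Real.pi_gt_three
  have h4m : (1 : ℝ) ≤ 4 ^ m := one_le_pow₀ (by norm_num)
  have h2m : (1 : ℝ) ≤ 2 ^ m := one_le_pow₀ (by norm_num)
  have h2C : 0 < 2 ^ m * C := by positivity
  refine ⟨2 * 4 ^ m * (2 ^ m * C + 1), T1, by nlinarith, hT1, fun T hT r H hr hH hL2 S hS => ?_⟩
  have hr1 : (1 : ℝ) ≤ r := by exact_mod_cast hr
  have hH0 : 0 < H := by linarith
  have hrH : 2 ≤ r + H := by linarith
  have hlog0 : 0 ≤ Real.log (r + H) := Real.log_nonneg (by linarith)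
  have hTT1 : T1 ≤ T := hT
  have hT10 : 10 ≤ T := hT1.trans hTT1
  have hL1 : 0 < Real.log T := Real.log_pos (by linarith)
  set h : ℝ := 2 * Real.pi / Real.log T with hh
  have hh0 : 0 < h := by positivity
  -- the variance for the windows used
  have hvar : ∀ a : ℝ, 0 < a → a ≤ r + H →
      ∫ t in Icc T (2 * T), dv m T a t ≤ T * ((2 ^ m * C + 1) * (1 + Real.log (r + H)) ^ m) := by
    intro a ha har
    have h1 : a * Real.log a ≤ B * Real.log T := by
      rcases le_total a 1 with h | h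
      · have h3 : Real.log a ≤ 0 := Real.log_nonpos ha.le h
        have h4 : 0 ≤ B * Real.log T := by positivity
        nlinarith
      · refine le_trans ?_ hL2
        exact mul_le_mul har (Real.log_le_log ha har) (Real.log_nonneg h) (by linarith)
    refine (hv T hTT1 a ha h1).trans ?_
    have h2 : 1 + Real.log (1 + a) ≤ 2 * (1 + Real.log (r + H)) := by
      have h3 : Real.log (1 + a) ≤ Real.log (2 * (r + H)) :=
        Real.log_le_log (by linarith) (by linarith)
      rw [Real.log_mul (by norm_num) (by linarith)] at h3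
      have : Real.log 2 ≤ 1 := by linarith [Real.log_two_lt_d9]
      linarith
    have h0 : 0 ≤ 1 + Real.log (1 + a) := by
      have : 0 ≤ Real.log (1 + a) := Real.log_nonneg (by linarith)
      linarith
    have h3 : (1 + Real.log (1 + a)) ^ m ≤ (2 * (1 + Real.log (r + H))) ^ m :=
      pow_le_pow_left₀ h0 h2 m
    have h4 : C * (1 + Real.log (1 + a)) ^ m * T ≤ C * (2 * (1 + Real.log (r + H))) ^ m * T := by
      gcongr
    have h5 : 0 ≤ T * (1 + Real.log (r + H)) ^ m := by positivity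
    rw [mul_pow] at h4
    nlinarith
  have conv : ∀ c : ℕ, H / 2 * h * c ≤ 4 ^ m / H ^ (2 * m - 1) * (T * ((2 ^ m * C + 1) * (1 + Real.log (r + H)) ^ m) +
      T * ((2 ^ m * C + 1) * (1 + Real.log (r + H)) ^ m)) →
      (c : ℝ) ≤ 4 ^ m * (2 ^ m * C + 1) * (1 + Real.log (r + H)) ^ m / H ^ (2 * m) * (T * Real.log T) := by
    intro c hc
    have e1 : 4 ^ m / H ^ (2 * m - 1) * (T * ((2 ^ m * C + 1) * (1 + Real.log (r + H)) ^ m) +
      T * ((2 ^ m * C + 1) * (1 + Real.log (r + H)) ^ m)) =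
        H / 2 * h * (2 * 4 ^ m / Real.pi * (2 ^ m * C + 1) * (1 + Real.log (r + H)) ^ m / H ^ (2 * m) *
          (T * Real.log T)) := by
      obtain ⟨k, hk⟩ : ∃ k : ℕ, k = 2 * m - 1 := ⟨_, rfl⟩
      have hk1 : 2 * m = k + 1 := by omega
      rw [← hk, hk1, hh, pow_succ]
      field_simp
      ring
    rw [e1] at hc
    have h1 := le_of_mul_le_mul_left hc (by positivity)
    refine h1.trans ?_
    have h2 : 2 * 4 ^ m / Real.pi ≤ 4 ^ m := by
      rw [div_le_iff₀ (by linarith)]
      nlinarith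
    gcongr
  set S1 := S.filter fun n => 0 ≤ ff T r n with hS1
  set S2 := S.filter fun n => ¬ 0 ≤ ff T r n with hS2
  have hcard : S.card = S1.card + S2.card := (Finset.card_filter_add_card_filter_not _).symm
  have hpos : 0 < Real.log T / (2 * Real.pi) := by positivity
  have hinv : Real.log T / (2 * Real.pi) * h = 1 := by rw [hh]; field_simp
  have c1 := conv S1.card ((upq hm1 (by linarith) hH0 r S1 (fun n hn => (hS n (Finset.mem_filter.mp hn).1).1)
    (fun n hn => (hS n (Finset.mem_filter.mp hn).1).2.1)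
    (fun n hn => (hS n (Finset.mem_filter.mp hn).1).2.2.1) (fun n hn => by
      obtain ⟨a1, a2⟩ := Finset.mem_filter.mp hn
      have a3 := (hS n a1).2.2.2
      rw [abs_of_nonneg a2] at a3
      unfold ff yv at a3
      have a4 : (r + H) * (Real.log T / (2 * Real.pi) * h) <
          (ord (n + r) - ord n) * (Real.log T / (2 * Real.pi)) := by
        rw [hinv]
        linarith
      have a5 : ((r + H) * h) * (Real.log T / (2 * Real.pi)) <
          (ord (n + r) - ord n) * (Real.log T / (2 * Real.pi)) := by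
        calc _ = (r + H) * (Real.log T / (2 * Real.pi) * h) := by ring
          _ < _ := a4
      have a6 := lt_of_mul_lt_mul_right a5 hpos.le
      linarith)).trans (by
        apply mul_le_mul_of_nonneg_left _ (by positivity)
        exact add_le_add (hvar _ (by linarith) (by linarith)) (hvar _ (by linarith) (by linarith))))
  have c2 : (S2.card : ℝ) ≤ 4 ^ m * (2 ^ m * C + 1) * (1 + Real.log (r + H)) ^ m / H ^ (2 * m) * (T * Real.log T) := by
    rcases S2.eq_empty_or_nonempty with he | he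
    · rw [he, Finset.card_empty, Nat.cast_zero]
      positivity
    have hall : ∀ n ∈ S2, ord (n + r) < ord n + (r - H) * h := by
      intro n hn
      obtain ⟨a1, a2⟩ := Finset.mem_filter.mp hn
      have a3 := (hS n a1).2.2.2
      push Not at a2
      rw [abs_of_neg a2] at a3
      unfold ff yv at a3
      have a5 : (ord (n + r) - ord n) * (Real.log T / (2 * Real.pi)) <
          ((r - H) * h) * (Real.log T / (2 * Real.pi)) := by
        calc _ < (r - H) * 1 := by linarith
          _ = (r - H) * (Real.log T / (2 * Real.pi) * h) := by rw [hinv]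
          _ = _ := by ring
      have a6 := lt_of_mul_lt_mul_right a5 hpos.le
      linarith
    obtain ⟨n, hn⟩ := he
    have hHr : H < r := by
      have b1 := hall n hn
      have b2 := SG.ord_mono (hS n (Finset.mem_filter.mp hn).1).1 (Nat.le_add_right n r)
      have b3 : 0 < (r - H) * h := by linarith
      by_contra hcon
      push Not at hcon
      nlinarith
    refine conv S2.card ((downq hm1 (by linarith) hH0 r S2
      (fun n hn => (hS n (Finset.mem_filter.mp hn).1).1)
      (fun n hn => (hS n (Finset.mem_filter.mp hn).1).2.1)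
      (fun n hn => by
        have := (hS n (Finset.mem_filter.mp hn).1).2.2.1
        have h0 : 0 < H / 2 * h := by positivity
        linarith) hall).trans (by
        apply mul_le_mul_of_nonneg_left _ (by positivity)
        exact add_le_add (hvar _ (by linarith) (by linarith)) (hvar _ (by linarith) (by linarith))))
  have e1 : (S.card : ℝ) = S1.card + S2.card := by exact_mod_cast hcard
  rw [e1]
  calc (S1.card : ℝ) + S2.card ≤
      4 ^ m * (2 ^ m * C + 1) * (1 + Real.log (r + H)) ^ m / H ^ (2 * m) * (T * Real.log T) +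
      4 ^ m * (2 ^ m * C + 1) * (1 + Real.log (r + H)) ^ m / H ^ (2 * m) * (T * Real.log T) := add_le_add c1 c2
    _ = _ := by ring

end Pool.Agent.R320.VQ
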