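import Pool.Agent.R320.VQ.Db
import Pool.Agent.Y743.NC.Block
import Pool.Agent.Y743.LR.NT3

/-! # High moments of the number of ordinates in a window, on RH -/

set_option autoImplicit false

namespace Pool.Agent.R320.VQ

open Complex Filter Topology MeasureTheory Set
open Pool.Agent.TH850.UV
open H370 (Zf)
open SG (NZ ord)
open SP (RHs)
open Pool.Agent.Y743.NC
open Pool.Agent.Y743.LR (step_int cnt_NZ)

/-- even power of the deviation -/
noncomputable def dv (m : ℕ) (T a t : ℝ) : ℝ :=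
  ((NZ (t + 2 * Real.pi * a / Real.log T) : ℝ) - NZ t - a) ^ (2 * m)

lemma dv_nonneg (m : ℕ) (T a t : ℝ) : 0 ≤ dv m T a t := (even_two_mul m).pow_nonneg _

lemma dv_int (m : ℕ) (T a A B : ℝ) : IntegrableOn (dv m T a) (Icc A B) :=
  step_int SG.NZ_mono (fun n n' => ((n' : ℝ) - n - a) ^ (2 * m)) _ A B

lemma dv_ii (m : ℕ) (T a : ℝ) {A B : ℝ} (h : A ≤ B) : IntervalIntegrable (dv m T a) volume A B := by
  rw [intervalIntegrable_iff_integrableOn_Ioc_of_le h]
  exact (dv_int m T a A B).mono_set Ioc_subset_Icc_self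

/-- the threshold -/
noncomputable def lam0 (m : ℕ) : ℝ := 16 + 8 * m

lemma lam0_16 (m : ℕ) : 16 ≤ lam0 m := by unfold lam0; have : (0 : ℝ) ≤ m := Nat.cast_nonneg _; linarith

lemma lam0_m (m : ℕ) : 8 * (m : ℝ) ≤ lam0 m := by unfold lam0; linarith

/-- windows of moderate length, inner part -/
lemma varq_in (hRH : RHs) (j : ℕ) (B : ℝ) (hB : 1 ≤ B) : ∃ C T0 : ℝ, 0 < C ∧ 10 ≤ T0 ∧ ∀ T : ℝ, T0 ≤ T → ∀ a : ℝ,
    lam0 (2 ^ j) ≤ a → a * Real.log a ≤ B * Real.log T →
    ∫ t in (T + Real.log T)..(2 * T - Real.log T - 7), dv (2 ^ j) T a t ≤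
      C * (1 + Real.log a) ^ (2 ^ j) * T := by
  obtain ⟨m, hm⟩ : ∃ m : ℕ, m = 2 ^ j := ⟨_, rfl⟩
  have hm1 : 1 ≤ m := by rw [hm]; exact two_pow_pos' _
  have hqm : 2 ^ (j + 1) = 2 * m := by rw [hm]; ring
  have hqe : Even (2 * m) := even_two_mul m
  obtain ⟨lam, hlamd⟩ : ∃ lam : ℝ, lam = lam0 m := ⟨_, rfl⟩
  have hlam16 : 16 ≤ lam := by rw [hlamd]; exact lam0_16 m
  have hlamm : 8 * (m : ℝ) ≤ lam := by rw [hlamd]; exact lam0_m m
  obtain ⟨C1, T1, hC1, hT1, hA⟩ := apxq hRH j B hB hlam16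
  obtain ⟨C2, T2, hC2, hT2, hD⟩ := Dbq m hm1 hlam16 hlamm B hB
  rw [hqm] at hA
  rw [← hm, ← hlamd]
  have hev : ∀ᶠ T : ℝ in atTop, 2 * Real.log T + 7 ≤ 1 * T / 2 := by
    have h1 : (fun T : ℝ => 2 * Real.log T + 7) =o[atTop] fun T : ℝ => T :=
      (Real.isLittleO_log_id_atTop.const_mul_left 2).add (Asymptotics.isLittleO_const_id_atTop _)
    have h2 := h1.bound (c := 1 / 2) (by norm_num)
    filter_upwards [h2, eventually_ge_atTop 1] with T hT hT1
    rw [Real.norm_of_nonneg (by linarith : (0 : ℝ) ≤ T)] at hT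
    have := (le_abs_self _).trans hT
    linarith
  obtain ⟨T3, hT3⟩ := (hev.and (Real.tendsto_log_atTop.eventually_ge_atTop
    (Real.exp B))).exists_forall_of_atTop
  refine ⟨2 ^ (2 * m) * (C1 + C2), max (max T1 T2) T3, by positivity,
    hT1.trans ((le_max_left _ _).trans (le_max_left _ _)), fun T hT a ha haL => ?_⟩
  have hTT1 : T1 ≤ T := ((le_max_left _ _).trans (le_max_left _ _)).trans hT
  have hTT2 : T2 ≤ T := ((le_max_right _ _).trans (le_max_left _ _)).trans hT
  obtain ⟨g4, g5⟩ := hT3 T ((le_max_right _ _).trans hT)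
  have hT10 : 10 ≤ T := hT1.trans hTT1
  have hT0 : 0 < T := by linarith
  have haL1 := haL
  obtain ⟨U1, U2, hU1, hU1', hU2', hU2, hQi, hint⟩ := hA T hTT1 a ha haL1
  have hpi := Real.pi_pos
  have ha0 : 0 < a := by linarith
  have hla : 0 ≤ Real.log a := Real.log_nonneg (by linarith)
  set L := Real.log T with hL
  have hL0 : 0 < L := Real.log_pos (by linarith)
  have haL' : a ≤ L := range_le (by linarith) (by linarith) g5 haL1
  set h := 2 * Real.pi * a / L with hh
  have hh0 : 0 < h := by positivity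
  have hh7 : h ≤ 7 := by
    rw [hh, div_le_iff₀ hL0]
    nlinarith only [Real.pi_lt_d2, haL', hL0, ha0]
  have hAB : T + L ≤ 2 * T - L - 7 := by linarith only [g4, hT0]
  have hDD := hD T hTT2 a ha haL1 (T + L) (2 * T - L - 7) hAB (by linarith)
  have hDc := Db_cont (L / lam) h (XT T)
  set Q : ℝ → ℝ := fun t => NS (Zf riemannZeta U1 U2) h t - a + Db (L / lam) h (XT T) t with hQ
  have hpt : ∀ t ∈ Icc (T + L) (2 * T - L - 7), dv m T a t ≤
      2 ^ (2 * m) * (Q t ^ (2 * m) + Db (L / lam) h (XT T) t ^ (2 * m)) := by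
    intro t ht
    have b1 : ((NZ (t + h) : ℝ) - NZ t) = NS (Zf riemannZeta U1 U2) h t := by
      rw [← cnt_NZ (by linarith [ht.1]) hh0.le]
      exact cnt_eq (by linarith) (by linarith [ht.1]) (by linarith [ht.2])
    have b2 : dv m T a t = (Q t + -Db (L / lam) h (XT T) t) ^ (2 * m) := by
      unfold dv
      rw [← hL, ← hh, b1]
      congr 1
      simp only [hQ]
      ring
    rw [b2]
    have := add_pow_q hqe (Q t) (-Db (L / lam) h (XT T) t)
    rw [hqe.neg_pow] at this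
    exact this
  have i2 : IntervalIntegrable (fun t => Db (L / lam) h (XT T) t ^ (2 * m)) volume (T + L) (2 * T - L - 7) :=
    Continuous.intervalIntegrable (by fun_prop) _ _
  have h1 : ∫ t in (T + L)..(2 * T - L - 7), dv m T a t ≤
      ∫ t in (T + L)..(2 * T - L - 7), (2 ^ (2 * m) * (Q t ^ (2 * m) + Db (L / lam) h (XT T) t ^ (2 * m))) :=
    intervalIntegral.integral_mono_on hAB (dv_ii m T a hAB) ((hQi.add i2).const_mul _) hpt
  refine h1.trans ?_
  rw [intervalIntegral.integral_const_mul, intervalIntegral.integral_add hQi i2]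
  have h2 : (∫ t in (T + L)..(2 * T - L - 7), Q t ^ (2 * m)) ≤ C1 * T := hint
  obtain ⟨M, hM⟩ : ∃ M : ℝ, M = (1 + Real.log a) ^ m := ⟨_, rfl⟩
  have h9 : (1 : ℝ) ≤ M := by rw [hM]; exact one_le_pow₀ (by linarith)
  rw [← hM] at hDD ⊢
  have h4 : C1 * T ≤ C1 * M * T := by
    have : 0 ≤ C1 * T := by positivity
    nlinarith
  calc _ ≤ 2 ^ (2 * m) * (C1 * M * T + C2 * M * T) :=
        mul_le_mul_of_nonneg_left (by linarith) (by positivity)
    _ = _ := by ring

lemma log_shift {T x : ℝ} (hT : 10 ≤ T) (hx : x ≤ 2 * T + 7) (hx0 : 3 ≤ x) : Real.log x ≤ 2 * Real.log T := by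
  have h1 : Real.log x ≤ Real.log (T ^ 2) := Real.log_le_log (by linarith) (by nlinarith)
  rw [Real.log_pow] at h1
  push_cast at h1
  exact h1

lemma NZ7 : ∃ C : ℝ, 0 < C ∧ ∀ T : ℝ, 10 ≤ T → ∀ t : ℝ, T ≤ t → t ≤ 2 * T →
    (NZ (t + 7) : ℝ) ≤ NZ t + C * Real.log T := by
  obtain ⟨C, hC, hu⟩ := unit_count
  refine ⟨14 * C, by positivity, fun T hT t h1 h2 => ?_⟩
  have key : ∀ k : ℕ, k ≤ 7 → (NZ (t + k) : ℝ) ≤ NZ t + k * (2 * C * Real.log T) := by
    intro k hk
    induction k with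
    | zero => simp
    | succ k ih =>
      have h3 := ih (by omega)
      have hk7 : (k : ℝ) ≤ 6 := by exact_mod_cast (by omega : k ≤ 6)
      have hk0 : (0 : ℝ) ≤ k := Nat.cast_nonneg _
      have h4 := hu (t + k) (by linarith)
      have h5 := log_shift hT (x := t + k) (by linarith) (by linarith)
      have h6 : C * Real.log (t + k) ≤ C * (2 * Real.log T) := mul_le_mul_of_nonneg_left h5 hC.le
      push_cast
      rw [← add_assoc]
      linarith
  have := key 7 le_rfl
  push_cast at this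
  linarith

lemma ends (m : ℕ) : ∃ T0 : ℝ, 10 ≤ T0 ∧ ∀ T : ℝ, T0 ≤ T → ∀ a : ℝ, 0 < a → a ≤ Real.log T →
    ∫ t in T..(T + Real.log T), dv m T a t ≤ T ∧
    ∫ t in (2 * T - Real.log T - 7)..(2 * T), dv m T a t ≤ T ∧ 2 * Real.log T + 7 ≤ T := by
  obtain ⟨C, hC, hN⟩ := NZ7
  have hev : ∀ᶠ T : ℝ in atTop, (Real.log T + 7) * ((C + 1) * Real.log T) ^ (2 * m) ≤ T ∧
      2 * Real.log T + 7 ≤ T := by
    have h1 : (fun T : ℝ => Real.log T ^ (2 * m + 1)) =o[atTop] id := Real.isLittleO_pow_log_id_atTop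
    have h2 := h1.bound (c := 1 / (9 * ((C + 1) ^ (2 * m) + 1))) (by positivity)
    filter_upwards [h2, eventually_ge_atTop 1, Real.tendsto_log_atTop.eventually_ge_atTop 1] with T hT hT1 hT2
    rw [id, Real.norm_of_nonneg (by positivity), Real.norm_of_nonneg (by linarith)] at hT
    have h3 : 9 * ((C + 1) ^ (2 * m) + 1) * Real.log T ^ (2 * m + 1) ≤ T := by
      calc 9 * ((C + 1) ^ (2 * m) + 1) * Real.log T ^ (2 * m + 1) ≤
            9 * ((C + 1) ^ (2 * m) + 1) * (1 / (9 * ((C + 1) ^ (2 * m) + 1)) * T) :=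
            mul_le_mul_of_nonneg_left hT (by positivity)
        _ = T := by field_simp
    have h5 : Real.log T ≤ Real.log T ^ (2 * m + 1) := by
      calc Real.log T = Real.log T ^ 1 := (pow_one _).symm
        _ ≤ Real.log T ^ (2 * m + 1) := pow_le_pow_right₀ hT2 (by omega)
    have hC4 : 0 < (C + 1) ^ (2 * m) := by positivity
    constructor
    · calc (Real.log T + 7) * ((C + 1) * Real.log T) ^ (2 * m) ≤
            (8 * Real.log T) * ((C + 1) * Real.log T) ^ (2 * m) := by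
            apply mul_le_mul_of_nonneg_right _ (by positivity)
            linarith
        _ = 8 * (C + 1) ^ (2 * m) * Real.log T ^ (2 * m + 1) := by rw [mul_pow, pow_succ]; ring
        _ ≤ 9 * ((C + 1) ^ (2 * m) + 1) * Real.log T ^ (2 * m + 1) := by
            apply mul_le_mul_of_nonneg_right _ (by positivity)
            linarith
        _ ≤ T := h3
    · have h6 : 9 * Real.log T ^ (2 * m + 1) ≤ 9 * ((C + 1) ^ (2 * m) + 1) * Real.log T ^ (2 * m + 1) := by
        apply mul_le_mul_of_nonneg_right _ (by positivity)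
        linarith
      linarith
  obtain ⟨T3, hT3⟩ := hev.exists_forall_of_atTop
  refine ⟨max T3 10, le_max_right _ _, fun T hT a ha haL => ?_⟩
  have hT10 : 10 ≤ T := (le_max_right _ _).trans hT
  obtain ⟨g1, g2⟩ := hT3 T ((le_max_left _ _).trans hT)
  have hpi := Real.pi_pos
  set L := Real.log T with hL
  have hL0 : 0 < L := Real.log_pos (by linarith)
  have hh0 : 0 < 2 * Real.pi * a / L := by positivity
  have hh7 : 2 * Real.pi * a / L ≤ 7 := by
    rw [div_le_iff₀ hL0]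
    nlinarith only [Real.pi_lt_d2, haL, hL0, ha]
  have hpt : ∀ t, T ≤ t → t ≤ 2 * T → dv m T a t ≤ ((C + 1) * L) ^ (2 * m) := by
    intro t h1 h2
    have h3 := hN T hT10 t h1 h2
    have h4 : (NZ (t + 2 * Real.pi * a / L) : ℝ) ≤ NZ (t + 7) := by
      exact_mod_cast SG.NZ_mono (by linarith)
    have h5 : (NZ t : ℝ) ≤ NZ (t + 2 * Real.pi * a / L) := by
      exact_mod_cast SG.NZ_mono (by linarith)
    have h6 : |(NZ (t + 2 * Real.pi * a / L) : ℝ) - NZ t - a| ≤ (C + 1) * L := by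
      have : 0 < C * L := by positivity
      rw [abs_le]
      constructor <;> linarith
    unfold dv
    rw [← hL]
    rw [abs_pow_q (even_two_mul m)]
    exact pow_le_pow_left₀ (abs_nonneg _) h6 (2 * m)
  have hgen : ∀ A B : ℝ, T ≤ A → A ≤ B → B ≤ 2 * T → B - A ≤ L + 7 →
      ∫ t in A..B, dv m T a t ≤ T := by
    intro A B h1 h2 h3 h4
    have h5 : ∫ t in A..B, dv m T a t ≤ ∫ t in A..B, ((C + 1) * L) ^ (2 * m) :=
      intervalIntegral.integral_mono_on h2 (dv_ii m T a h2) intervalIntegrable_const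
        fun x hx => hpt x (by linarith [hx.1]) (by linarith [hx.2])
    rw [intervalIntegral.integral_const, smul_eq_mul] at h5
    refine h5.trans ?_
    refine le_trans ?_ g1
    exact mul_le_mul_of_nonneg_right h4 (by positivity)
  refine ⟨hgen _ _ le_rfl (by linarith) (by linarith) (by linarith),
    hgen _ _ (by linarith) (by linarith) le_rfl (by linarith), g2⟩

/-- **high moments of the number of ordinates in a window** -/
theorem varq (hRH : RHs) (j : ℕ) (B : ℝ) (hB : 1 ≤ B) : ∃ C T0 : ℝ, 0 < C ∧ 10 ≤ T0 ∧ ∀ T : ℝ, T0 ≤ T →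
    ∀ a : ℝ, 0 < a → a * Real.log a ≤ B * Real.log T →
    ∫ t in Icc T (2 * T), dv (2 ^ j) T a t ≤ C * (1 + Real.log (1 + a)) ^ (2 ^ j) * T := by
  obtain ⟨C1, T1, hC1, hT1, hin⟩ := varq_in hRH j B hB
  obtain ⟨m, hm⟩ : ∃ m : ℕ, m = 2 ^ j := ⟨_, rfl⟩
  have hm1 : 1 ≤ m := by rw [hm]; exact two_pow_pos' _
  have hqe : Even (2 * m) := even_two_mul m
  rw [← hm] at hin ⊢
  obtain ⟨b, hbd⟩ : ∃ b : ℝ, b = lam0 m := ⟨_, rfl⟩
  have hb16 : 16 ≤ b := by rw [hbd]; exact lam0_16 m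
  rw [← hbd] at hin
  obtain ⟨T2, hT2, hend⟩ := ends m
  obtain ⟨T3, hT3⟩ := (Real.tendsto_log_atTop.eventually_ge_atTop
    (max (Real.exp B) (b * Real.log b))).exists_forall_of_atTop
  have hlb : 0 ≤ Real.log b := Real.log_nonneg (by linarith)
  set C16 : ℝ := (C1 * (1 + Real.log b) ^ m + 2) with hC16
  have h16 : 0 < C16 := by positivity
  refine ⟨C1 + 2 + (4 ^ (2 * m) * C16 + 2 * 4 ^ (2 * m) * b ^ (2 * m)), max (max T1 T2) T3, by positivity,
    hT1.trans ((le_max_left _ _).trans (le_max_left _ _)), fun T hT a ha haL => ?_⟩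
  have hTT1 : T1 ≤ T := ((le_max_left _ _).trans (le_max_left _ _)).trans hT
  have hTT2 : T2 ≤ T := ((le_max_right _ _).trans (le_max_left _ _)).trans hT
  have hTT3 := hT3 T ((le_max_right _ _).trans hT)
  have g5 : Real.exp B ≤ Real.log T := (le_max_left _ _).trans hTT3
  have g6 : b * Real.log b ≤ B * Real.log T := by
    have h1 : b * Real.log b ≤ Real.log T := (le_max_right _ _).trans hTT3
    have h2 : 0 ≤ Real.log T := (Real.exp_pos B).le.trans g5
    nlinarith
  have hT10 : 10 ≤ T := hT1.trans hTT1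
  have hT0 : 0 < T := by linarith
  have hlog0 : 0 ≤ Real.log (1 + a) := Real.log_nonneg (by linarith)
  obtain ⟨M, hM⟩ : ∃ M : ℝ, M = (1 + Real.log (1 + a)) ^ m := ⟨_, rfl⟩
  have hM1 : (1 : ℝ) ≤ M := by rw [hM]; exact one_le_pow₀ (by linarith)
  -- long windows
  have hlong : ∀ x : ℝ, b ≤ x → x * Real.log x ≤ B * Real.log T →
      ∫ t in Icc T (2 * T), dv m T x t ≤ (C1 * (1 + Real.log x) ^ m + 2) * T := by
    intro x hx hxL
    have hbL' : x ≤ Real.log T := range_le (by linarith) (by linarith) g5 hxL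
    obtain ⟨e1, e2, e3⟩ := hend T hTT2 x (by linarith) hbL'
    have e4 := hin T hTT1 x hx hxL
    have hL0 : 0 < Real.log T := Real.log_pos (by linarith)
    rw [integral_Icc_eq_integral_Ioc, ← intervalIntegral.integral_of_le (by linarith)]
    rw [← intervalIntegral.integral_add_adjacent_intervals (b := T + Real.log T)
      (dv_ii m T x (by linarith)) (dv_ii m T x (by linarith)),
      ← intervalIntegral.integral_add_adjacent_intervals (a := T + Real.log T)
      (b := 2 * T - Real.log T - 7)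
      (dv_ii m T x (by linarith)) (dv_ii m T x (by linarith))]
    linarith
  rw [← hM]
  rcases le_or_gt b a with ha16 | ha16
  · refine (hlong a ha16 haL).trans ?_
    apply mul_le_mul_of_nonneg_right _ hT0.le
    have h1 : Real.log a ≤ Real.log (1 + a) := Real.log_le_log ha (by linarith)
    have h0 : 0 ≤ Real.log a := Real.log_nonneg (by linarith)
    have h2 : (1 + Real.log a) ^ m ≤ M := by
      rw [hM]
      exact pow_le_pow_left₀ (by linarith) (by linarith) m
    have h4 : 0 ≤ 4 ^ (2 * m) * C16 + 2 * 4 ^ (2 * m) * b ^ (2 * m) := by positivity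
    nlinarith
  · have h1 := hlong b le_rfl g6
    have hL0 : 0 < Real.log T := Real.log_pos (by linarith)
    have hpi := Real.pi_pos
    have e4 : (4 : ℝ) ^ (2 * m) = 2 ^ (2 * m) * 2 ^ (2 * m) := by
      rw [← mul_pow]; norm_num
    have hpt : ∀ t, dv m T a t ≤ 4 ^ (2 * m) * dv m T b t + 2 * 4 ^ (2 * m) * b ^ (2 * m) := by
      intro t
      unfold dv
      have h2 : (NZ (t + 2 * Real.pi * a / Real.log T) : ℝ) ≤ NZ (t + 2 * Real.pi * b / Real.log T) := by
        exact_mod_cast SG.NZ_mono (by gcongr)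
      have h3 : (NZ t : ℝ) ≤ NZ (t + 2 * Real.pi * a / Real.log T) := by
        have : 0 < 2 * Real.pi * a / Real.log T := by positivity
        exact_mod_cast SG.NZ_mono (by linarith)
      set x := (NZ (t + 2 * Real.pi * a / Real.log T) : ℝ) - NZ t with hx
      set y := (NZ (t + 2 * Real.pi * b / Real.log T) : ℝ) - NZ t with hy
      have hx0 : 0 ≤ x := by linarith
      have hxy : x ≤ y := by linarith
      have h4 : (x - a) ^ (2 * m) ≤ 2 ^ (2 * m) * (x ^ (2 * m) + a ^ (2 * m)) := by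
        have := add_pow_q hqe x (-a)
        rw [hqe.neg_pow, ← sub_eq_add_neg] at this
        exact this
      have h5 : x ^ (2 * m) ≤ y ^ (2 * m) := pow_le_pow_left₀ hx0 hxy _
      have h6 : y ^ (2 * m) ≤ 2 ^ (2 * m) * ((y - b) ^ (2 * m) + b ^ (2 * m)) := by
        have := add_pow_q hqe (y - b) b
        rw [sub_add_cancel] at this
        exact this
      have h7 : a ^ (2 * m) ≤ b ^ (2 * m) := pow_le_pow_left₀ ha.le ha16.le _
      have h8 : (1 : ℝ) ≤ 2 ^ (2 * m) := one_le_pow₀ (by norm_num)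
      have h9 : 0 ≤ b ^ (2 * m) := by positivity
      have h10 : 2 ^ (2 * m) * (x ^ (2 * m) + a ^ (2 * m)) ≤
          2 ^ (2 * m) * (2 ^ (2 * m) * ((y - b) ^ (2 * m) + b ^ (2 * m)) + b ^ (2 * m)) :=
        mul_le_mul_of_nonneg_left (by linarith) (by positivity)
      have h11 : (2 : ℝ) ^ (2 * m) * b ^ (2 * m) ≤ 2 ^ (2 * m) * 2 ^ (2 * m) * b ^ (2 * m) := by
        have : 0 ≤ (2 : ℝ) ^ (2 * m) * b ^ (2 * m) := by positivity
        nlinarith
      rw [e4]
      calc (x - a) ^ (2 * m) ≤ 2 ^ (2 * m) *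
          (2 ^ (2 * m) * ((y - b) ^ (2 * m) + b ^ (2 * m)) + b ^ (2 * m)) := h4.trans h10
        _ = 2 ^ (2 * m) * 2 ^ (2 * m) * (y - b) ^ (2 * m) + (2 ^ (2 * m) * 2 ^ (2 * m) * b ^ (2 * m) +
            2 ^ (2 * m) * b ^ (2 * m)) := by ring
        _ ≤ 2 ^ (2 * m) * 2 ^ (2 * m) * (y - b) ^ (2 * m) + (2 ^ (2 * m) * 2 ^ (2 * m) * b ^ (2 * m) +
            2 ^ (2 * m) * 2 ^ (2 * m) * b ^ (2 * m)) := by linarith
        _ = _ := by ring
    have hi : IntegrableOn (fun t => 4 ^ (2 * m) * dv m T b t + 2 * 4 ^ (2 * m) * b ^ (2 * m))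
        (Icc T (2 * T)) :=
      ((dv_int m T b _ _).const_mul _).add
        (integrableOn_const (by rw [Real.volume_Icc]; exact ENNReal.ofReal_ne_top))
    have h2 : ∫ t in Icc T (2 * T), dv m T a t ≤
        ∫ t in Icc T (2 * T), (4 ^ (2 * m) * dv m T b t + 2 * 4 ^ (2 * m) * b ^ (2 * m)) :=
      setIntegral_mono_on (dv_int m T a _ _) hi measurableSet_Icc fun t _ => hpt t
    refine h2.trans ?_
    rw [integral_add ((dv_int m T b _ _).const_mul _)
      (integrableOn_const (by rw [Real.volume_Icc]; exact ENNReal.ofReal_ne_top)),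
      integral_const_mul, setIntegral_const, smul_eq_mul, Measure.real, Real.volume_Icc,
      ENNReal.toReal_ofReal (by linarith)]
    have h7 : 4 ^ (2 * m) * ∫ t in Icc T (2 * T), dv m T b t ≤ 4 ^ (2 * m) * (C16 * T) :=
      mul_le_mul_of_nonneg_left h1 (by positivity)
    have h5 : (4 ^ (2 * m) * C16 + 2 * 4 ^ (2 * m) * b ^ (2 * m)) * T ≤
        (4 ^ (2 * m) * C16 + 2 * 4 ^ (2 * m) * b ^ (2 * m)) * M * T := by
      have : 0 ≤ (4 ^ (2 * m) * C16 + 2 * 4 ^ (2 * m) * b ^ (2 * m)) * T := by positivity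
      nlinarith
    have h6 : 0 ≤ (C1 + 2) * M * T := by positivity
    calc _ ≤ 4 ^ (2 * m) * (C16 * T) + (2 * T - T) * (2 * 4 ^ (2 * m) * b ^ (2 * m)) := by linarith
      _ = (4 ^ (2 * m) * C16 + 2 * 4 ^ (2 * m) * b ^ (2 * m)) * T := by ring
      _ ≤ _ := by nlinarith

end Pool.Agent.R320.VQ
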